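import Mathlib

open TensorProduct Cardinal

universe u

namespace Pool.Agent.Lib.MP_07b136_ag.Sch

variable {k K : Type u} [Field k] [Field K] [Algebra k K]

/-- the `K`-point of `K ⊗ A` attached to a map `A → K` -/
noncomputable def liftK {A : Type u} [CommRing A] [Algebra k A] (χ : A →ₐ[k] K) :
    K ⊗[k] A →ₐ[K] K :=
  Algebra.TensorProduct.lift (AlgHom.id K K) χ fun _ _ => Commute.all _ _

theorem liftK_tmul {A : Type u} [CommRing A] [Algebra k A] (χ : A →ₐ[k] K) (c : K) (a : A) :
    liftK χ (c ⊗ₜ a) = c * χ a := rfl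

/-- a tensor killed by a family of functionals comes from their common kernel -/
theorem tensor_ker {M : Type u} [AddCommGroup M] [Module k M] (P : Set (M →ₗ[k] k))
    (t : K ⊗[k] M) (h : ∀ χ ∈ P, TensorProduct.rid k K (χ.lTensor K t) = 0) :
    t ∈ Submodule.span K ((fun m : M => (1 : K) ⊗ₜ[k] m) '' {m | ∀ χ ∈ P, χ m = 0}) := by
  let b := Module.Basis.ofVectorSpace k K
  obtain ⟨c, rfl⟩ := TensorProduct.eq_repr_basis_left b t
  refine Submodule.sum_mem _ fun i hi => ?_
  have e : b i ⊗ₜ[k] c i = b i • ((1 : K) ⊗ₜ[k] c i) := by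
    rw [TensorProduct.smul_tmul', smul_eq_mul, mul_one]
  beta_reduce
  rw [e]
  refine Submodule.smul_mem _ _ (Submodule.subset_span ⟨c i, fun χ hχ => ?_, rfl⟩)
  have := h χ hχ
  rw [Finsupp.sum, map_sum, map_sum] at this
  simp only [LinearMap.lTensor_tmul, TensorProduct.rid_tmul] at this
  exact linearIndependent_iff'.mp b.linearIndependent _ _ this i hi

theorem exists_pt_ft [IsAlgClosed k] {B : Type u} [CommRing B] [IsDomain B] [Algebra k B]
    [Algebra.FiniteType k B] {x : B} (hx : x ≠ 0) : ∃ χ : B →ₐ[k] k, χ x ≠ 0 := by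
  have : IsJacobsonRing B := isJacobsonRing_of_finiteType (A := k)
  have h : x ∉ (⊥ : Ideal B).jacobson := by
    rw [IsJacobsonRing.out inferInstance Ideal.isPrime_bot.isRadical]
    exact hx
  obtain ⟨m, ⟨-, hm⟩, hxm⟩ : ∃ m ∈ {J : Ideal B | ⊥ ≤ J ∧ J.IsMaximal}, x ∉ m := by
    by_contra hc
    exact h (Ideal.mem_sInf.mpr fun {m} hm => by_contra fun h' => hc ⟨m, hm, h'⟩)
  let _ := Ideal.Quotient.field m
  have : Module.Finite k (B ⧸ m) := finite_of_finite_type_of_isJacobsonRing k (B ⧸ m)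
  let e := AlgEquiv.ofBijective (Algebra.ofId k (B ⧸ m))
    IsAlgClosed.algebraMap_bijective_of_isIntegral
  refine ⟨e.symm.toAlgHom.comp (Ideal.Quotient.mkₐ k m), fun h0 => hxm ?_⟩
  exact Ideal.Quotient.eq_zero_iff_mem.mp ((map_eq_zero_iff _ e.symm.injective).mp h0)

theorem tensor_domain [IsAlgClosed k] {B : Type u} [CommRing B] [IsDomain B] [Algebra k B] :
    IsDomain (K ⊗[k] B) := by
  classical
  have : NoZeroDivisors (K ⊗[k] B) := ⟨fun {t t'} h => by
    let b := Module.Basis.ofVectorSpace k K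
    obtain ⟨c, rfl⟩ := TensorProduct.eq_repr_basis_left b t
    obtain ⟨c', rfl⟩ := TensorProduct.eq_repr_basis_left b t'
    by_contra hne
    rw [not_or] at hne
    obtain ⟨i, hi⟩ : c.support.Nonempty := Finsupp.support_nonempty_iff.mpr fun e => hne.1 (by
      rw [e, Finsupp.sum_zero_index])
    obtain ⟨j, hj⟩ : c'.support.Nonempty := Finsupp.support_nonempty_iff.mpr fun e => hne.2 (by
      rw [e, Finsupp.sum_zero_index])
    let S : Finset B := c.support.image c ∪ c'.support.image c'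
    let B' := Algebra.adjoin k (S : Set B)
    have : Algebra.FiniteType k B' := Algebra.FiniteType.adjoin_of_finite S.finite_toSet
    have m1 : ∀ i : c.support, c i ∈ B' := fun i => Algebra.subset_adjoin
      (Finset.mem_union_left _ (Finset.mem_image_of_mem _ i.2))
    have m2 : ∀ i : c'.support, c' i ∈ B' := fun i => Algebra.subset_adjoin
      (Finset.mem_union_right _ (Finset.mem_image_of_mem _ i.2))
    obtain ⟨χ, hχ⟩ := exists_pt_ft (k := k) (x := (⟨_, m1 ⟨i, hi⟩⟩ * ⟨_, m2 ⟨j, hj⟩⟩ : B'))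
      (mul_ne_zero (fun e => Finsupp.mem_support_iff.mp hi (congrArg Subtype.val e))
        fun e => Finsupp.mem_support_iff.mp hj (congrArg Subtype.val e))
    rw [map_mul, mul_ne_zero_iff] at hχ
    let ρ := Algebra.TensorProduct.map (AlgHom.id k K) B'.val
    have hρ : Function.Injective ρ :=
      Module.Flat.lTensor_preserves_injective_linearMap (M := K) B'.val.toLinearMap
        Subtype.val_injective
    have key : ∀ (c : _ →₀ B) (m : ∀ i : c.support, c i ∈ B') (i : c.support), χ ⟨_, m i⟩ ≠ 0 →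
        ∃ t : K ⊗[k] B', ρ t = (c.sum fun i n => b i ⊗ₜ n) ∧
          liftK ((Algebra.ofId k K).comp χ) t ≠ 0 := fun c m i hi => by
      refine ⟨∑ i : c.support, b i ⊗ₜ ⟨_, m i⟩, ?_, fun h0 => hi ?_⟩
      · rw [map_sum, Finsupp.sum, ← Finset.sum_coe_sort c.support]
        rfl
      · rw [map_sum] at h0
        refine Fintype.linearIndependent_iff.mp
          (b.linearIndependent.comp (fun i : c.support => i.1) Subtype.val_injective)
          (fun i => χ ⟨_, m i⟩) ?_ i
        rw [← h0]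
        refine Finset.sum_congr rfl fun i _ => ?_
        rw [liftK_tmul, Algebra.smul_def, mul_comm]
        rfl
    obtain ⟨t, e1, h1⟩ := key c m1 ⟨i, hi⟩ hχ.1
    obtain ⟨t', e2, h2⟩ := key c' m2 ⟨j, hj⟩ hχ.2
    rw [← e1, ← e2, ← map_mul, map_eq_zero_iff _ hρ] at h
    exact mul_ne_zero h1 h2 (by rw [← map_mul, h, map_zero])⟩
  exact NoZeroDivisors.to_isDomain _

theorem exists_pt_big [IsAlgClosed K] {R : Type u} [CommRing R] [IsDomain R] [Algebra K R]
    (hR : Module.rank K R < #K) (hK : ℵ₀ < #K) {t : R} (ht : t ≠ 0) :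
    ∃ φ : R →ₐ[K] K, φ t ≠ 0 := by
  have : IsDomain (Localization.Away t) :=
    IsLocalization.isDomain_localization (powers_le_nonZeroDivisors_of_noZeroDivisors ht)
  obtain ⟨m, hm⟩ := Ideal.exists_maximal (Localization.Away t)
  let _ := Ideal.Quotient.field m
  let σ : Polynomial R →ₐ[R] Localization.Away t ⧸ m := (Ideal.Quotient.mkₐ R m).comp
    ((Localization.awayEquivAdjoin t).symm.toAlgHom.comp (AdjoinRoot.mkₐ _))
  have hσ : Function.Surjective σ := Ideal.Quotient.mk_surjective.comp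
    ((Localization.awayEquivAdjoin t).symm.surjective.comp AdjoinRoot.mk_surjective)
  have h1 : Module.rank K (Localization.Away t ⧸ m) < #K := by
    refine ((σ.restrictScalars K).toLinearMap.rank_le_of_surjective hσ).trans_lt ?_
    have h2 : Module.rank R (Polynomial R) = ℵ₀ := by
      simpa using (Polynomial.basisMonomials R).mk_eq_rank.symm
    rw [← rank_mul_rank K R (Polynomial R), h2]
    exact Cardinal.mul_lt_of_lt hK.le hR hK
  have : Algebra.IsAlgebraic K (Localization.Away t ⧸ m) := ⟨fun x => by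
    by_contra hx
    exact h1.not_ge (Transcendental.linearIndependent_sub_inv hx).cardinal_le_rank⟩
  let e := AlgEquiv.ofBijective (Algebra.ofId K (Localization.Away t ⧸ m))
    IsAlgClosed.algebraMap_bijective_of_isIntegral
  refine ⟨e.symm.toAlgHom.comp (IsScalarTower.toAlgHom K R _), ?_⟩
  have hu : IsUnit (algebraMap R (Localization.Away t ⧸ m) t) :=
    (IsLocalization.Away.algebraMap_isUnit (S := Localization.Away t) t).map (Ideal.Quotient.mk m)
  exact (hu.map e.symm).ne_zero

section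
variable {A : Type u} [CommRing A] [Algebra k A]

variable (K) in
/-- reduction of `K ⊗ A` modulo an ideal of `A` -/
noncomputable def redK (p : Ideal A) : K ⊗[k] A →ₐ[K] K ⊗[k] (A ⧸ p) :=
  Algebra.TensorProduct.map (AlgHom.id K K) (Ideal.Quotient.mkₐ k p)

theorem liftK_redK (p : Ideal A) (χ : A ⧸ p →ₐ[k] K) (t : K ⊗[k] A) :
    liftK χ (redK K p t) = liftK (χ.comp (Ideal.Quotient.mkₐ k p)) t := by
  induction t with
  | zero => rw [map_zero, map_zero, map_zero]
  | add x y hx hy => rw [map_add, map_add, map_add, hx, hy]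
  | tmul c a => rfl

theorem redK_ne_of_pt {p : Ideal A} {χ : A →ₐ[k] K} (hχ : ∀ a ∈ p, χ a = 0) {t : K ⊗[k] A}
    (ht : liftK χ t ≠ 0) : redK K p t ≠ 0 := fun h => ht (by
  have := liftK_redK p (Ideal.Quotient.liftₐ p χ hχ) t
  rw [h, map_zero] at this
  exact this.symm)

theorem redK_one_tmul {p : Ideal A} {a : A} (ha : a ∉ p) : redK K p ((1 : K) ⊗ₜ[k] a) ≠ 0 :=
  fun h => ha (Ideal.Quotient.eq_zero_iff_mem.mp
    (Algebra.TensorProduct.includeRight_injective (R := k) (A := K) (B := A ⧸ p)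
      (algebraMap k K).injective (h.trans (map_zero _).symm)))

theorem pt_of_redK [IsAlgClosed k] [IsAlgClosed K] (hA : #A < #K) (hK : ℵ₀ < #K) (p : Ideal A)
    [p.IsPrime] {t t' : K ⊗[k] A} (ht : redK K p t ≠ 0) (ht' : redK K p t' ≠ 0) :
    ∃ χ : A →ₐ[k] K, (∀ a ∈ p, χ a = 0) ∧ liftK χ t ≠ 0 ∧ liftK χ t' ≠ 0 := by
  have : IsDomain (K ⊗[k] (A ⧸ p)) := tensor_domain
  have hR : Module.rank K (K ⊗[k] (A ⧸ p)) < #K := by
    have h1 : Module.rank K (K ⊗[k] (A ⧸ p)) = Module.rank k (A ⧸ p) := by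
      simp
    rw [h1]
    exact ((rank_le_card _ _).trans (mk_le_of_surjective Ideal.Quotient.mk_surjective)).trans_lt hA
  obtain ⟨φ, hφ⟩ := exists_pt_big hR hK (mul_ne_zero ht ht')
  let χ : A ⧸ p →ₐ[k] K := (φ.restrictScalars k).comp Algebra.TensorProduct.includeRight
  have e : liftK χ = φ := by
    ext a
    exact one_mul _
  rw [map_mul, mul_ne_zero_iff, ← e, liftK_redK, liftK_redK] at hφ
  refine ⟨_, fun a ha => ?_, hφ⟩
  rw [AlgHom.comp_apply, Ideal.Quotient.mkₐ_eq_mk, Ideal.Quotient.eq_zero_iff_mem.mpr ha, map_zero]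

end

theorem exists_big (k : Type u) [Field k] (ι : Type u) :
    ∃ (K : Type u) (_ : Field K) (_ : IsAlgClosed K) (_ : Algebra k K), #ι < #K ∧ ℵ₀ < #K := by
  let σ := Set (ι ⊕ ULift.{u} ℕ)
  have h : #σ ≤ #(AlgebraicClosure (FractionRing (MvPolynomial σ k))) :=
    mk_le_of_injective (f := fun i => algebraMap (FractionRing (MvPolynomial σ k)) _
      (algebraMap (MvPolynomial σ k) _ (MvPolynomial.X i)))
      ((algebraMap (FractionRing (MvPolynomial σ k))
        (AlgebraicClosure (FractionRing (MvPolynomial σ k)))).injective.comp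
        ((IsFractionRing.injective (MvPolynomial σ k) (FractionRing (MvPolynomial σ k))).comp MvPolynomial.X_injective))
  have h2 : #(ι ⊕ ULift.{u} ℕ) < #σ := by
    rw [mk_set]
    exact cantor _
  refine ⟨AlgebraicClosure (FractionRing (MvPolynomial σ k)), inferInstance, inferInstance,
    inferInstance, ((mk_le_of_injective Sum.inl_injective).trans_lt h2).trans_le h,
    (lt_of_le_of_lt ?_ h2).trans_le h⟩
  exact aleph0_le_mk _

end Pool.Agent.Lib.MP_07b136_ag.Sch
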