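import Pool.Agent.Lib.MP_07b136_ag.Graded

open MvPolynomial Filter

universe u

namespace Pool.Agent.Lib.MP_07b136_ag

variable {k : Type u} [Field k] {n d r : ℕ}

/-- The Cox ring of a product of projective spaces -/
abbrev Cx (k : Type u) [Field k] (n r : ℕ) := MvPolynomial (Fin r × Fin (n + 1)) k

/-- the linear map in degree `a`, extended to the polynomial ring -/
noncomputable def extd (φ : Fr k n d r) (a : Fin r → ℕ) : Cx k n r →ₗ[k] Fin d → k :=
  if h : hilbFun n d a = d then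
    (LinearMap.funLeft k k (Fin.cast h.symm)).comp ((φ a).comp
      ((weightedHomogeneousComponent (wt n r) a).codRestrict _ fun f =>
        weightedHomogeneousComponent_mem _ f a))
  else 0

lemma extd_apply (φ : Fr k n d r) {a : Fin r → ℕ} (h : hilbFun n d a = d)
    {f : Cx k n r} (hf : f ∈ piece k n r a) (i : Fin d) :
    extd φ a f i = φ a ⟨f, hf⟩ (Fin.cast h.symm i) := by
  rw [extd, dif_pos h]
  change φ a ⟨_, weightedHomogeneousComponent_mem _ f a⟩ _ = _
  have : (⟨_, weightedHomogeneousComponent_mem _ f a⟩ : piece k n r a) = ⟨f, hf⟩ :=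
    Subtype.ext (weightedHomogeneousComponent_eq_self hf)
  rw [this]

lemma extd_mem (a : Fin r → ℕ) (f : Cx k n r) (i : Fin d) :
    (fun φ : Fr k n d r => extd φ a f i) ∈ polyFun k n d r := by
  by_cases h : hilbFun n d a = d
  · refine Algebra.subset_adjoin ⟨a, ⟨_, weightedHomogeneousComponent_mem _ f a⟩,
      Fin.cast h.symm i, funext fun φ => ?_⟩
    rw [extd, dif_pos h]
    rfl
  · simp only [extd, dif_neg h]
    exact zero_mem _

/-- a point of the Hilbert scheme with a frame -/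
structure Pr (k : Type u) [Field k] (n d r : ℕ) where
  /-- the point -/
  I : Hilb k n d r
  /-- the frame -/
  φ : Fr k n d r
  h : IsFr I.1 φ

lemma Pr.extd_eq_zero (p : Pr k n d r) {a : Fin r → ℕ} (h : hilbFun n d a = d)
    {f : Cx k n r} (hf : f ∈ piece k n r a) : extd p.φ a f = 0 ↔ f ∈ p.I.1 := by
  rw [← p.h a ⟨f, hf⟩]
  constructor
  · intro h0
    ext i
    have := congr($h0 (Fin.cast h i))
    rwa [extd_apply p.φ h hf] at this
  · intro h0
    ext i
    rw [extd_apply p.φ h hf, h0]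
    rfl

lemma Pr.extd_surj (p : Pr k n d r) {a : Fin r → ℕ}
    (h : hilbFun n d a = d) (v : Fin d → k) : ∃ f ∈ piece k n r a, extd p.φ a f = v := by
  obtain ⟨f, hf⟩ := p.h.surjective a fun i => v (Fin.cast h i)
  refine ⟨f.1, f.2, funext fun i => ?_⟩
  rw [extd_apply p.φ h f.2, Subtype.coe_eta, hf]
  rfl

/-- Zariski neighbourhoods of a framed point -/
def nb (p : Pr k n d r) : Filter (Pr k n d r) where
  sets := {s | ∃ D ∈ polyFun k n d r, D p.φ ≠ 0 ∧ ∀ q : Pr k n d r, D q.φ ≠ 0 → q ∈ s}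
  univ_sets := ⟨1, one_mem _, one_ne_zero, fun _ _ => trivial⟩
  sets_of_superset := fun ⟨D, h1, h2, h3⟩ h => ⟨D, h1, h2, fun q hq => h (h3 q hq)⟩
  inter_sets := fun ⟨D, h1, h2, h3⟩ ⟨E, g1, g2, g3⟩ =>
    ⟨D * E, mul_mem h1 g1, mul_ne_zero h2 g2, fun q hq =>
      ⟨h3 q (left_ne_zero_of_mul hq), g3 q (right_ne_zero_of_mul hq)⟩⟩

lemma exists_open {p : Pr k n d r} {Q : Hilb k n d r → Prop} (h : ∀ᶠ q in nb p, Q q.I) :
    ∃ U, @IsOpen _ (zariski k n d r) U ∧ p.I ∈ U ∧ ∀ J ∈ U, Q J := by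
  obtain ⟨D, h1, h2, h3⟩ := h
  exact ⟨_, isOpen_ne h1, ⟨p.φ, p.h, h2⟩, fun J ⟨ψ, hψ, h4⟩ => h3 ⟨J, ψ, hψ⟩ h4⟩

lemma freq_of_closure {p : Pr k n d r} {A : Set (Hilb k n d r)}
    (h : p.I ∈ @closure _ (zariski k n d r) A) : ∃ᶠ q in nb p, q.I ∈ A := by
  let _ := zariski k n d r
  intro H
  obtain ⟨U, h1, h2, h3⟩ := exists_open (Q := fun J => J ∉ A) H
  obtain ⟨J, h4, h5⟩ := mem_closure_iff.mp h _ h1 h2
  exact h3 J h4 h5

/-- functions regular at a framed point -/
def Reg (p : Pr k n d r) : Subalgebra k (Pr k n d r → k) where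
  carrier := {F | ∃ D ∈ polyFun k n d r, ∃ G ∈ polyFun k n d r, D p.φ ≠ 0 ∧
    ∀ q : Pr k n d r, D q.φ ≠ 0 → G q.φ = D q.φ * F q}
  mul_mem' := fun ⟨D, h1, G, h2, h3, h4⟩ ⟨D', g1, G', g2, g3, g4⟩ =>
    ⟨D * D', mul_mem h1 g1, G * G', mul_mem h2 g2, mul_ne_zero h3 g3, fun q hq => by
      simp only [Pi.mul_apply, h4 q (left_ne_zero_of_mul hq), g4 q (right_ne_zero_of_mul hq)]
      ring⟩
  add_mem' := fun ⟨D, h1, G, h2, h3, h4⟩ ⟨D', g1, G', g2, g3, g4⟩ =>
    ⟨D * D', mul_mem h1 g1, G * D' + D * G', add_mem (mul_mem h2 g1) (mul_mem h1 g2),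
      mul_ne_zero h3 g3, fun q hq => by
      simp only [Pi.mul_apply, Pi.add_apply, h4 q (left_ne_zero_of_mul hq),
        g4 q (right_ne_zero_of_mul hq)]
      ring⟩
  algebraMap_mem' := fun c => ⟨1, one_mem _, algebraMap k _ c, Subalgebra.algebraMap_mem _ c,
    one_ne_zero, fun q _ => by simp⟩

variable {p : Pr k n d r}

lemma reg_extd (a : Fin r → ℕ) (f : Cx k n r) (i : Fin d) :
    (fun q : Pr k n d r => extd q.φ a f i) ∈ Reg p :=
  ⟨1, one_mem _, _, extd_mem a f i, one_ne_zero, fun q _ => by simp⟩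

lemma reg_const (c : k) : (fun _ : Pr k n d r => c) ∈ Reg p := Subalgebra.algebraMap_mem _ c

lemma ev_ne {F : Pr k n d r → k} (hF : F ∈ Reg p) (h : F p ≠ 0) : ∀ᶠ q in nb p, F q ≠ 0 := by
  obtain ⟨D, h1, G, h2, h3, h4⟩ := hF
  refine ⟨D * G, mul_mem h1 h2, mul_ne_zero h3 (h4 p h3 ▸ mul_ne_zero h3 h), fun q hq h0 => ?_⟩
  have := right_ne_zero_of_mul hq
  rw [h4 q (left_ne_zero_of_mul hq), h0, mul_zero] at this
  exact this rfl

lemma reg_inv {F : Pr k n d r → k} (hF : F ∈ Reg p) (h : F p ≠ 0) :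
    (fun q => (F q)⁻¹) ∈ Reg p := by
  obtain ⟨D, h1, G, h2, h3, h4⟩ := hF
  refine ⟨D * G, mul_mem h1 h2, D * D, mul_mem h1 h1,
    mul_ne_zero h3 (h4 p h3 ▸ mul_ne_zero h3 h), fun q hq => ?_⟩
  have h5 := right_ne_zero_of_mul hq
  simp only [Pi.mul_apply]
  rw [h4 q (left_ne_zero_of_mul hq)] at h5 ⊢
  have := right_ne_zero_of_mul h5
  field_simp

lemma reg_det {ι : Type} [Fintype ι] [DecidableEq ι] {M : Pr k n d r → Matrix ι ι k}
    (h : ∀ i j, (fun q => M q i j) ∈ Reg p) : (fun q => (M q).det) ∈ Reg p := by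
  have : (fun q => (M q).det) = (Matrix.of fun i j => (⟨_, h i j⟩ : Reg p)).det.1 := by
    funext q
    exact (((Pi.evalRingHom _ q).comp (Reg p).val.toRingHom).map_det
      (Matrix.of fun i j => (⟨_, h i j⟩ : Reg p))).symm
  rw [this]
  exact Subtype.property _

/-- forms of degree `a` with regular coefficients -/
inductive RegP (p : Pr k n d r) (a : Fin r → ℕ) : (Pr k n d r → Cx k n r) → Prop
  | const {f : Cx k n r} (hf : f ∈ piece k n r a) : RegP p a fun _ => f
  | add {F G : Pr k n d r → Cx k n r} : RegP p a F → RegP p a G → RegP p a fun q => F q + G q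
  | smul {c : Pr k n d r → k} {F : Pr k n d r → Cx k n r} :
      c ∈ Reg p → RegP p a F → RegP p a fun q => c q • F q

variable {a b : Fin r → ℕ} {F G : Pr k n d r → Cx k n r}

lemma RegP.mem (h : RegP p a F) (q : Pr k n d r) : F q ∈ piece k n r a := by
  induction h with
  | const hf => exact hf
  | add _ _ h1 h2 => exact add_mem h1 h2
  | smul _ _ h1 => exact Submodule.smul_mem _ _ h1

lemma RegP.reg (h : RegP p a F) (i : Fin d) : (fun q => extd q.φ a (F q) i) ∈ Reg p := by
  induction h with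
  | const hf => exact reg_extd _ _ _
  | add _ _ h1 h2 => simp only [map_add]; exact add_mem h1 h2
  | smul hc _ h1 => simp only [map_smul]; exact mul_mem hc h1

lemma RegP.mul (h : RegP p a F) (h' : RegP p b G) : RegP p (a + b) fun q => F q * G q := by
  induction h with
  | const hf =>
    induction h' with
    | const hg => exact .const (mul_mem_piece hf hg)
    | add _ _ h1 h2 => simpa only [mul_add] using h1.add h2
    | smul hc _ h1 => simpa only [mul_smul_comm] using h1.smul hc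
  | add _ _ h1 h2 => simpa only [add_mul] using h1.add h2
  | smul hc _ h1 => simpa only [smul_mul_assoc] using h1.smul hc

lemma RegP.sub (h : RegP p a F) (h' : RegP p a G) : RegP p a fun q => F q - G q := by
  simpa only [neg_smul, one_smul, ← sub_eq_add_neg] using h.add (h'.smul (reg_const (-1)))

lemma RegP.sum {ι : Type*} (s : Finset ι) {F : ι → Pr k n d r → Cx k n r}
    (h : ∀ i, RegP p a (F i)) : RegP p a fun q => ∑ i ∈ s, F i q := by
  classical
  induction s using Finset.induction_on with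
  | empty => exact .const (zero_mem _)
  | insert i s hi ih => simpa only [Finset.sum_insert hi] using (h i).add ih

lemma RegP.prod {ι : Type*} (s : Finset ι) {F : ι → Pr k n d r → Cx k n r}
    (h : ∀ i, RegP p a (F i)) : RegP p (s.card • a) fun q => ∏ i ∈ s, F i q := by
  classical
  induction s using Finset.induction_on with
  | empty => exact .const (pow_mem_piece (f := 0) (zero_mem _) 0)
  | insert i s hi ih =>
    simpa only [Finset.prod_insert hi, Finset.card_insert_of_notMem hi, succ_nsmul'] using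
      (h i).mul ih

lemma RegP.ev_notMem (h : RegP p a F) (ha : hilbFun n d a = d) (h0 : F p ∉ p.I.1) :
    ∀ᶠ q in nb p, F q ∉ q.I.1 := by
  rw [← p.extd_eq_zero ha (h.mem p), ← ne_eq, Function.ne_iff] at h0
  obtain ⟨i, hi⟩ := h0
  filter_upwards [ev_ne (h.reg i) hi] with q hq h1
  exact hq congr($((q.extd_eq_zero ha (h.mem q)).mpr h1) i)

/-- independence modulo an ideal -/
def Indep (J : Ideal (Cx k n r)) (m : Fin d → Cx k n r) : Prop :=
  ∀ c : Fin d → k, ∑ s, c s • m s ∈ J → c = 0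

/-- a subspace maps onto a graded piece of the quotient -/
def Sur (J : Ideal (Cx k n r)) (a : Fin r → ℕ) (N : Submodule k (Cx k n r)) : Prop :=
  ∀ f ∈ piece k n r a, ∃ g ∈ N, f - g ∈ J

lemma Sur.mono {J : Ideal (Cx k n r)} {N N' : Submodule k (Cx k n r)} (h : Sur J a N)
    (h' : N ≤ N') : Sur J a N' := fun f hf => (h f hf).imp fun _ hg => ⟨h' hg.1, hg.2⟩

lemma indep_iff (ha : hilbFun n d a = d) {m : Fin d → Cx k n r} (hm : ∀ s, m s ∈ piece k n r a) :
    Indep p.I.1 m ↔ (Matrix.of fun s => extd p.φ a (m s)).det ≠ 0 := by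
  rw [ne_eq, ← Matrix.exists_vecMul_eq_zero_iff, Indep]
  have H (c : Fin d → k) : Matrix.vecMul c (Matrix.of fun s => extd p.φ a (m s)) = 0 ↔
      ∑ s, c s • m s ∈ p.I.1 := by
    rw [← p.extd_eq_zero ha (sum_mem fun s _ => Submodule.smul_mem _ _ (hm s)), map_sum,
      Matrix.vecMul_eq_sum]
    simp only [map_smul]
    rfl
  simp only [H]
  push Not
  exact forall_congr' fun c => not_imp_not.symm

lemma cramer_mem (ha : hilbFun n d a = d) {m : Fin d → Cx k n r} (hm : ∀ s, m s ∈ piece k n r a)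
    (h : Indep p.I.1 m) {f : Cx k n r} (hf : f ∈ piece k n r a) :
    f - ∑ s, (((Matrix.of fun s => extd p.φ a (m s)).det)⁻¹ *
      ((Matrix.of fun s => extd p.φ a (m s)).updateRow s (extd p.φ a f)).det) • m s ∈ p.I.1 := by
  rw [indep_iff ha hm] at h
  rw [← p.extd_eq_zero ha (sub_mem hf (sum_mem fun s _ => Submodule.smul_mem _ _ (hm s))),
    map_sub, map_sum, sub_eq_zero]
  set M := Matrix.of fun s => extd p.φ a (m s) with hM
  have := Matrix.mulVec_cramer M.transpose (extd p.φ a f)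
  rw [Matrix.mulVec_transpose, Matrix.vecMul_eq_sum, Matrix.det_transpose] at this
  simp only [map_smul, mul_smul, ← Finset.smul_sum, ← Matrix.cramer_transpose_apply]
  rw [eq_inv_smul_iff₀ h, ← this]
  rfl

lemma Indep.sur (ha : hilbFun n d a = d) {m : Fin d → Cx k n r} (hm : ∀ s, m s ∈ piece k n r a)
    (h : Indep p.I.1 m) : Sur p.I.1 a (Submodule.span k (Set.range m)) := fun _ hf =>
  ⟨_, sum_mem fun s _ => Submodule.smul_mem _ _ (Submodule.subset_span ⟨s, rfl⟩),
    cramer_mem ha hm h hf⟩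

lemma exists_indep (ha : hilbFun n d a = d) {ι : Type*} {m : ι → Cx k n r}
    (hm : ∀ s, m s ∈ piece k n r a) (h : Sur p.I.1 a (Submodule.span k (Set.range m))) :
    ∃ j : Fin d → ι, Indep p.I.1 fun s => m (j s) := by
  have h1 : Submodule.span k (Set.range fun s => extd p.φ a (m s)) = ⊤ := by
    rw [eq_top_iff]
    intro v _
    obtain ⟨f, hf, rfl⟩ := p.extd_surj ha v
    obtain ⟨g, hg, h2⟩ := h f hf
    have h3 : g ∈ piece k n r a := Submodule.span_le.mpr (Set.range_subset_iff.mpr hm) hg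
    rw [← p.extd_eq_zero ha (sub_mem hf h3), map_sub, sub_eq_zero] at h2
    rw [h2, show (fun s => extd p.φ a (m s)) = extd p.φ a ∘ m from rfl, Set.range_comp,
      Submodule.span_image]
    exact ⟨g, hg, rfl⟩
  have h2 := Submodule.exists_fun_fin_finrank_span_eq k (Set.range fun s => extd p.φ a (m s))
  rw [h1, finrank_top, Module.finrank_fin_fun] at h2
  obtain ⟨v, h3, -, h4⟩ := h2
  choose j hj using h3
  refine ⟨j, fun c hc => funext (Fintype.linearIndependent_iff.mp h4 c ?_)⟩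
  rw [← p.extd_eq_zero ha (sum_mem fun s _ => Submodule.smul_mem _ _ (hm _)), map_sum] at hc
  simpa only [map_smul, ← hj] using hc

lemma ev_indep (ha : hilbFun n d a = d) {m : Fin d → Pr k n d r → Cx k n r}
    (hm : ∀ s, RegP p a (m s)) (h : Indep p.I.1 fun s => m s p) :
    ∀ᶠ q in nb p, Indep q.I.1 fun s => m s q := by
  rw [indep_iff ha fun s => (hm s).mem p] at h
  filter_upwards [ev_ne (reg_det (M := fun q => Matrix.of fun s => extd q.φ a (m s q))
    fun s i => (hm s).reg i) h] with q hq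
  exact (indep_iff ha fun s => (hm s).mem q).mpr hq

lemma solve (ha : hilbFun n d a = d) {m : Fin d → Pr k n d r → Cx k n r}
    (hm : ∀ s, RegP p a (m s)) (h : Indep p.I.1 fun s => m s p) (hF : RegP p a F) :
    ∃ c : Fin d → Pr k n d r → k, (∀ s, c s ∈ Reg p) ∧
      ∀ᶠ q in nb p, F q - ∑ s, c s q • m s q ∈ q.I.1 := by
  refine ⟨fun s q => _, fun s => ?_, (ev_indep ha hm h).mono fun q hq =>
    cramer_mem ha (fun s => (hm s).mem q) hq (hF.mem q)⟩
  refine mul_mem (reg_inv (reg_det (M := fun q => Matrix.of fun s => extd q.φ a (m s q))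
    fun s i => (hm s).reg i) ((indep_iff ha fun s => (hm s).mem p).mp h))
    (reg_det (M := fun q => (Matrix.of fun s => extd q.φ a (m s q)).updateRow s
      (extd q.φ a (F q))) fun s' i => ?_)
  by_cases e : s' = s
  · subst e
    simpa only [Matrix.updateRow_self] using hF.reg i
  · simp only [Matrix.updateRow_ne e]
    exact (hm s').reg i

lemma ev_sur (ha : hilbFun n d a = d) {ι : Type*} {m : ι → Pr k n d r → Cx k n r}
    (hm : ∀ s, RegP p a (m s)) (h : Sur p.I.1 a (Submodule.span k (Set.range fun s => m s p))) :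
    ∀ᶠ q in nb p, Sur q.I.1 a (Submodule.span k (Set.range fun s => m s q)) := by
  obtain ⟨j, hj⟩ := exists_indep ha (fun s => (hm s).mem p) h
  filter_upwards [ev_indep ha (fun s => hm (j s)) hj] with q hq
  exact (hq.sur ha fun s => (hm _).mem q).mono
    (Submodule.span_mono (Set.range_comp_subset_range j fun s => m s q))

/-- multiplication by `z` is onto in degree `b + a` -/
def Onto (J : Ideal (Cx k n r)) (z : Cx k n r) (b a : Fin r → ℕ) : Prop :=
  ∀ f ∈ piece k n r (b + a), ∃ g ∈ piece k n r a, f - z * g ∈ J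

lemma onto_iff {J : Ideal (Cx k n r)} {z : Cx k n r} : Onto J z b a ↔
    Sur J (b + a) (Submodule.span k (Set.range fun g : piece k n r a => z * g.1)) := by
  have : Submodule.span k (Set.range fun g : piece k n r a => z * g.1) =
      (piece k n r a).map (LinearMap.mulLeft k z) := by
    rw [← Submodule.span_eq (Submodule.map _ _)]
    congr 1
    ext x
    simp
  simp [this, Onto, Sur]

lemma ev_onto (ha : hilbFun n d (b + a) = d) {z : Cx k n r} (hz : z ∈ piece k n r b)
    (h : Onto p.I.1 z b a) : ∀ᶠ q in nb p, Onto q.I.1 z b a := by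
  simp only [onto_iff] at h ⊢
  exact ev_sur (m := fun (g : piece k n r a) _ => z * g.1) ha
    (fun g => .const (mul_mem_piece hz g.2)) h

lemma Indep.of_mul {J : Ideal (Cx k n r)} {z : Cx k n r} {m : Fin d → Cx k n r}
    (h : Indep J fun s => z * m s) : Indep J m := fun c hc => h c <| by
  simpa only [Finset.mul_sum, mul_smul_comm] using J.mul_mem_left z hc

lemma Onto.inj (ha : hilbFun n d a = d) (hb : hilbFun n d (b + a) = d) {z : Cx k n r}
    (hz : z ∈ piece k n r b) (h : Onto p.I.1 z b a) {f : Cx k n r} (hf : f ∈ piece k n r a)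
    (h0 : z * f ∈ p.I.1) : f ∈ p.I.1 := by
  obtain ⟨j, hj⟩ := exists_indep hb (fun g => mul_mem_piece hz g.2) (onto_iff.mp h)
  obtain ⟨g, hg, h1⟩ := hj.of_mul.sur ha (fun s => (j s).2) f hf
  obtain ⟨c, rfl⟩ := (Submodule.mem_span_range_iff_exists_fun k).mp hg
  have h2 := sub_mem h0 (p.I.1.mul_mem_left z h1)
  rw [mul_sub, sub_sub_cancel, Finset.mul_sum] at h2
  have h3 := hj c (by simpa only [mul_smul_comm] using h2)
  simpa [h3] using h1

end Pool.Agent.Lib.MP_07b136_ag
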