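import Pool.Agent.Lib.MP_07b136_ag.AllPoint

open MvPolynomial Finset Filter

universe u

namespace Pool.Agent.Lib.MP_07b136_ag

variable {k : Type u} [Field k] {n d r : ℕ}

lemma ne01 : (0 : Fin (r + 3)) ≠ 1 := Fin.ne_of_val_ne Nat.zero_ne_one
lemma ne02 : (0 : Fin (r + 3)) ≠ 2 := Fin.ne_of_val_ne (show 0 ≠ 2 by decide)
lemma ne12 : (1 : Fin (r + 3)) ≠ 2 := Fin.ne_of_val_ne (show 1 ≠ 2 by decide)

/-- a monomial in the three main variables -/
def mk3 (a b c : ℕ) : Ex (n + 1) (r + 3) := a • ex1 0 0 + b • ex1 1 0 + c • ex1 2 0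

lemma mk3_0 (a b c : ℕ) : (mk3 a b c : Ex (n + 1) (r + 3)) 0 = Pi.single 0 a := by
  ext j; simp [mk3, ex1, ne02, Pi.single_apply]

lemma mk3_1 (a b c : ℕ) : (mk3 a b c : Ex (n + 1) (r + 3)) 1 = Pi.single 0 b := by
  ext j; simp [mk3, ex1, ne12, Pi.single_apply]

lemma mk3_2 (a b c : ℕ) : (mk3 a b c : Ex (n + 1) (r + 3)) 2 = Pi.single 0 c := by
  ext j; simp [mk3, ex1, ne02.symm, ne12.symm, Pi.single_apply]

lemma mk3_3 (a b c : ℕ) {i : Fin (r + 3)} (h0 : i ≠ 0) (h1 : i ≠ 1) (h2 : i ≠ 2) :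
    (mk3 a b c : Ex (n + 1) (r + 3)) i = 0 := by
  simp [mk3, ex1, h0, h1, h2]

lemma dg_mk3 (a b c : ℕ) : dg (mk3 a b c : Ex (n + 1) (r + 3)) = a + b + c := by
  have H (i : Fin (r + 3)) : ∑ i', ∑ j, (ex1 i 0 : Ex (n + 1) (r + 3)) i' j = 1 := by
    rw [Fintype.sum_eq_single i fun i' h => by simp [ex1, h]]
    simp [ex1]
  simp [dg, mk3, sum_add_distrib, ← mul_sum, H]

lemma mk3_mem {a b c : ℕ} {α : Fin (r + 3) → ℕ} (h0 : a ≤ α 0) (h1 : b ≤ α 1) (h2 : c ≤ α 2) :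
    mk3 a b c ∈ box (n + 1) α := mem_box.mpr fun i => by
  by_cases e0 : i = 0
  · simpa [e0, mk3_0] using h0
  by_cases e1 : i = 1
  · simpa [e1, mk3_1] using h1
  by_cases e2 : i = 2
  · simpa [e2, mk3_2] using h2
  simp [mk3_3 _ _ _ e0 e1 e2]

/-- only the three main variables occur -/
def Pure (u : Ex (n + 1) (r + 3)) : Prop := u = mk3 (u 0 0) (u 1 0) (u 2 0)

lemma pure_mk3 (a b c : ℕ) : Pure (mk3 a b c : Ex (n + 1) (r + 3)) := by
  simp [Pure, mk3_0, mk3_1, mk3_2]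

lemma Pure.of_le {u v : Ex (n + 1) (r + 3)} (h : Pure u) (h' : v ≤ u) : Pure v := by
  funext i j
  have h1 := h' i j
  rw [h] at h1
  by_cases e0 : i = 0
  · by_cases e : j = 0 <;> simp_all [mk3_0]
  by_cases e1 : i = 1
  · by_cases e : j = 0 <;> simp_all [mk3_1]
  by_cases e2 : i = 2
  · by_cases e : j = 0 <;> simp_all [mk3_2]
  simpa [mk3_3 _ _ _ e0 e1 e2] using h1

/-- priority class of a monomial in the main variables -/
def cls3 (d a b c : ℕ) : ℕ :=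
  if a = 0 ∧ (b = 0 ∧ c + 2 < d ∨ b = 1 ∧ c ≤ 1) then 0
  else if b = 0 ∧ c = 0 ∧ a ≤ 2 then 1
  else if b = 0 ∧ c = 0 ∨ a = 0 ∧ c = 0 ∨ a = 0 ∧ b = 0 then 2 else 3

open Classical in
/-- priority class of a monomial -/
noncomputable def cls (d : ℕ) (u : Ex (n + 1) (r + 3)) : ℕ :=
  if Pure u then cls3 d (u 0 0) (u 1 0) (u 2 0) else 3

lemma cls_mk3 (a b c : ℕ) : cls d (mk3 a b c : Ex (n + 1) (r + 3)) = cls3 d a b c := by
  simp [cls, pure_mk3, mk3_0, mk3_1, mk3_2]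

lemma cls_mono (hd : 4 ≤ d) {u v : Ex (n + 1) (r + 3)} (h : v ≤ u) : cls d v ≤ cls d u := by
  have h0 : v 0 0 ≤ u 0 0 := h 0 0
  have h1 : v 1 0 ≤ u 1 0 := h 1 0
  have h2 : v 2 0 ≤ u 2 0 := h 2 0
  by_cases H : Pure u
  · simp only [cls, H, H.of_le h, if_true, cls3]
    split_ifs <;> omega
  · simp only [cls, H, if_false, cls3]
    split_ifs <;> omega

/-- the order on monomials -/
noncomputable def key (d : ℕ) (u : Ex (n + 1) (r + 3)) : ℕ ×ₗ ℕ ×ₗ ℕ :=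
  toLex (cls d u, toLex (dg u, (exists_injective_nat _).choose u))

lemma key_inj : (key d : Ex (n + 1) (r + 3) → _).Injective := fun _ _ h =>
  (exists_injective_nat _).choose_spec congr((ofLex (ofLex $h).2).2)

lemma key_lt {u v : Ex (n + 1) (r + 3)}
    (h : cls d v < cls d u ∨ cls d v ≤ cls d u ∧ dg v < dg u) : key d v < key d u := by
  simp only [key, Prod.Lex.toLex_lt_toLex]
  omega

lemma key_mono (hd : 4 ≤ d) : Monotone (key d : Ex (n + 1) (r + 3) → _) := fun _ _ h =>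
  h.eq_or_lt.elim (fun e => e ▸ le_rfl) fun e =>
    (key_lt (Or.inr ⟨cls_mono hd h, dg_lt h e.ne⟩)).le

/-- the monomials chosen in degree `α` are described by `Q` -/
def Desc (n d : ℕ) (α : Fin (r + 3) → ℕ) (Q : ℕ → ℕ → ℕ → Prop) : Prop :=
  hilbFun (n + 1) d α = d ∧
    ∀ u, u ∈ top (key d) d (box (n + 1) α) ↔ ∃ a b c, Q a b c ∧ u = mk3 a b c

lemma desc_of {α : Fin (r + 3) → ℕ} {Q : ℕ → ℕ → ℕ → Prop} (τ : ℕ → ℕ × ℕ × ℕ)
    (h1 : ∀ a b c, Q a b c ↔ ∃ s < d, τ s = (a, b, c))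
    (h2 : ∀ s < d, ∀ s' < d, τ s = τ s' → s = s')
    (h3 : ∀ a b c, Q a b c → a ≤ α 0 ∧ b ≤ α 1 ∧ c ≤ α 2 ∧ cls3 d a b c < 3 ∧
      ∀ a' ≤ α 0, ∀ b' ≤ α 1, ∀ c' ≤ α 2, ¬ Q a' b' c' → cls3 d a b c < cls3 d a' b' c' ∨
        cls3 d a b c ≤ cls3 d a' b' c' ∧ a + b + c < a' + b' + c') : Desc n d α Q := by
  let T : Finset (Ex (n + 1) (r + 3)) :=
    (range d).image fun s => mk3 (τ s).1 (τ s).2.1 (τ s).2.2
  have hT (u) : u ∈ T ↔ ∃ a b c, Q a b c ∧ u = mk3 a b c := by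
    simp only [T, mem_image, mem_range, h1]
    constructor
    · rintro ⟨s, hs, rfl⟩
      exact ⟨_, _, _, ⟨s, hs, rfl⟩, rfl⟩
    · rintro ⟨a, b, c, ⟨s, hs, e⟩, rfl⟩
      exact ⟨s, hs, by rw [e]⟩
  have hc : T.card = d := by
    rw [card_image_of_injOn, card_range]
    intro s hs s' hs' e
    refine h2 s (mem_range.mp hs) s' (mem_range.mp hs') (Prod.ext ?_ (Prod.ext ?_ ?_))
    · simpa [mk3_0] using congr($e 0 0)
    · simpa [mk3_1] using congr($e 1 0)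
    · simpa [mk3_2] using congr($e 2 0)
  have hs : T ⊆ box (n + 1) α := fun u hu => by
    obtain ⟨a, b, c, h, rfl⟩ := (hT u).mp hu
    exact mk3_mem (h3 _ _ _ h).1 (h3 _ _ _ h).2.1 (h3 _ _ _ h).2.2.1
  have hd : d ≤ (box (n + 1) α).card := hc ▸ card_le_card hs
  refine ⟨min_eq_left (card_box α ▸ hd), fun u => ?_⟩
  rw [← hT, eq_of_subset_of_card_le (top_subset hs hc.ge fun u hu hu' v hv => ?_)
    (by rw [card_top key_inj, min_eq_left hd, hc])]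
  obtain ⟨a, b, c, h, rfl⟩ := (hT v).mp hv
  obtain ⟨-, -, -, h4, h5⟩ := h3 _ _ _ h
  refine key_lt ?_
  by_cases H : Pure u
  · have h6 (i) : u i 0 ≤ α i :=
      (single_le_sum (fun _ _ => Nat.zero_le _) (mem_univ 0)).trans (mem_box.mp hu i)
    rw [H, cls_mk3, cls_mk3, dg_mk3, dg_mk3]
    exact h5 _ (h6 0) _ (h6 1) _ (h6 2) fun h7 => hu' ((hT u).mpr ⟨_, _, _, h7, H⟩)
  · rw [cls_mk3, cls, if_neg H]
    exact Or.inl h4

section

variable (hd : 4 ≤ d) {α : Fin (r + 3) → ℕ}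
include hd

lemma desc_lam (h1 : 1 ≤ α 1) (h2 : d ≤ α 2) :
    Desc n d α fun a b c => a = 0 ∧ (b = 0 ∧ c + 2 < d ∨ b = 1 ∧ c ≤ 1) := by
  refine desc_of (fun s => if s + 2 < d then (0, 0, s) else (0, 1, s + 2 - d))
    (fun a b c => ⟨?_, ?_⟩) (fun s _ s' _ => ?_) fun a b c h => ?_
  · rintro ⟨rfl, ⟨rfl, h⟩ | ⟨rfl, h⟩⟩
    · exact ⟨c, by omega, if_pos h⟩
    · exact ⟨c + d - 2, by omega, by rw [if_neg (by omega)]; simp; omega⟩
  · rintro ⟨s, hs, h⟩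
    split_ifs at h <;> simp only [Prod.mk.injEq] at h <;> omega
  · split_ifs <;> simp only [Prod.mk.injEq] <;> omega
  · refine ⟨by omega, by omega, by omega, by simp [cls3, h], fun a' _ b' _ c' _ h' => Or.inl ?_⟩
    simp only [cls3, if_pos h, if_neg h']
    split_ifs <;> omega

lemma desc_mu (h0 : α 0 = 2) (h1 : α 1 = 0) (h2 : d ≤ α 2) :
    Desc n d α fun a b c => b = 0 ∧ (a = 0 ∧ c + 2 < d ∨ c = 0 ∧ a ≤ 2) := by
  refine desc_of (fun s => if s + 2 < d then (0, 0, s) else (s + 3 - d, 0, 0))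
    (fun a b c => ⟨?_, ?_⟩) (fun s _ s' _ => ?_) fun a b c h => ?_
  · rintro ⟨rfl, h⟩
    by_cases e : a = 0
    · exact ⟨c, by omega, by rw [if_pos (by omega), e]⟩
    · exact ⟨a + d - 3, by omega, by rw [if_neg (by omega)]; simp; omega⟩
  · rintro ⟨s, hs, h⟩
    split_ifs at h <;> simp only [Prod.mk.injEq] at h <;> omega
  · split_ifs <;> simp only [Prod.mk.injEq] <;> omega
  · refine ⟨by omega, by omega, by omega, ?_, fun a' _ b' _ c' _ h' => Or.inl ?_⟩ <;>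
      simp only [cls3] <;> split_ifs <;> omega

lemma desc_nu (h0 : α 0 = 1) (h1 : α 1 = 0) (h2 : d ≤ α 2) :
    Desc n d α fun a b c => b = 0 ∧ (a = 0 ∧ c + 1 < d ∨ c = 0 ∧ a ≤ 1) := by
  refine desc_of (fun s => if s + 1 < d then (0, 0, s) else (1, 0, 0))
    (fun a b c => ⟨?_, ?_⟩) (fun s _ s' _ => ?_) fun a b c h => ?_
  · rintro ⟨rfl, h⟩
    by_cases e : a = 0
    · exact ⟨c, by omega, by rw [if_pos (by omega), e]⟩
    · exact ⟨d - 1, by omega, by rw [if_neg (by omega)]; simp; omega⟩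
  · rintro ⟨s, hs, h⟩
    split_ifs at h <;> simp only [Prod.mk.injEq] at h <;> omega
  · split_ifs <;> simp only [Prod.mk.injEq] <;> omega
  · refine ⟨by omega, by omega, by omega, ?_, fun a' _ b' _ c' _ h' => ?_⟩ <;>
      simp only [cls3] <;> split_ifs <;> omega

lemma desc_x (h0 : d ≤ α 0) (h1 : α 1 = 0) (h2 : α 2 = 0) :
    Desc n d α fun a b c => a < d ∧ b = 0 ∧ c = 0 := by
  refine desc_of (fun s => (s, 0, 0)) (fun a b c => ⟨?_, ?_⟩) (fun s _ s' _ => ?_) fun a b c h => ?_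
  · rintro ⟨h, rfl, rfl⟩
    exact ⟨a, h, rfl⟩
  · rintro ⟨s, hs, h⟩
    simp only [Prod.mk.injEq] at h
    omega
  · simp
  · refine ⟨by omega, by omega, by omega, ?_, fun a' _ b' _ c' _ h' => ?_⟩ <;>
      simp only [cls3] <;> split_ifs <;> omega

lemma desc_y (h0 : α 0 = 0) (h1 : d ≤ α 1) (h2 : α 2 = 0) :
    Desc n d α fun a b c => a = 0 ∧ b < d ∧ c = 0 := by
  refine desc_of (fun s => (0, s, 0)) (fun a b c => ⟨?_, ?_⟩) (fun s _ s' _ => ?_) fun a b c h => ?_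
  · rintro ⟨rfl, h, rfl⟩
    exact ⟨b, h, rfl⟩
  · rintro ⟨s, hs, h⟩
    simp only [Prod.mk.injEq] at h
    omega
  · simp
  · refine ⟨by omega, by omega, by omega, ?_, fun a' _ b' _ c' _ h' => ?_⟩ <;>
      simp only [cls3] <;> split_ifs <;> omega

end

section

variable {c : ℕ → k} (hc : c.Injective) {J : Ideal (Cx k (n + 1) (r + 3))}
  (hJ : ∀ a, ∀ f ∈ piece k (n + 1) (r + 3) a,
    f ∈ J ↔ ∀ u ∈ top (key d) d (box (n + 1) a), eval (pt c u) f = 0)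
  {α β : Fin (r + 3) → ℕ} {Q : ℕ → ℕ → ℕ → Prop}
include hc hJ

lemma onto_pow (i : Fin (r + 3)) (m : ℕ) (h1 : Desc n d α Q)
    (h2 : Desc n d (m • Pi.single i 1 + α) Q) : Onto J (X (i, 0) ^ m) (m • Pi.single i 1) α := by
  intro f hf
  obtain ⟨g, hg, h⟩ := exists_interp hc (top (key d) d (box (n + 1) α)) (filter_subset _ _)
    fun u => eval (pt c u) f
  refine ⟨g, hg, (hJ _ _ (sub_mem hf (mul_mem_piece (pow_mem_piece (X_mem i 0) m) hg))).mpr
    fun u hu => ?_⟩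
  simp [pt, h u ((h1.2 u).mpr ((h2.2 u).mp hu))]

lemma onto_one (i : Fin (r + 3)) (h1 : Desc n d α Q) (h2 : Desc n d (Pi.single i 1 + α) Q) :
    Onto J (X (i, 0)) (Pi.single i 1) α := by
  simpa using onto_pow hc hJ i 1 h1 (by simpa using h2)

lemma inj_at (i : Fin (r + 3)) (h1 : Desc n d α Q) (h2 : Desc n d (Pi.single i 1 + α) Q)
    {v : Ex (n + 1) (r + 3)}
    (hv : ∀ a b c, Q a b c → (mk3 a b c : Ex (n + 1) (r + 3)) i 0 ≠ v i 0) :
    ∀ g ∈ piece k (n + 1) (r + 3) α,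
      (X (i, Fin.succ 0) - eval (pt c v) (X (i, Fin.succ 0)) • X (i, 0)) * g ∈ J → g ∈ J := by
  intro g hg h
  refine (hJ _ _ hg).mpr fun u hu => ?_
  have h3 := (hJ _ _ (mul_mem_piece (sub_mem (X_mem _ _)
    (Submodule.smul_mem _ _ (X_mem _ _))) hg)).mp h u ((h2.2 u).mpr ((h1.2 u).mp hu))
  obtain ⟨a, b, c', h4, rfl⟩ := (h1.2 u).mp hu
  rw [map_mul, map_sub, smul_eval, eval_X, eval_X, eval_X] at h3
  refine (mul_eq_zero.mp h3).resolve_left (sub_ne_zero.mpr fun e => hv _ _ _ h4 (hc ?_))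
  simpa only [pt, Fin.cases_succ, Fin.cases_zero, mul_one] using e

lemma rk_at {p : Pr k (n + 1) d (r + 3)} (hp : p.I.1 = J) (i : Fin (r + 3)) {m : ℕ}
    {Q' : ℕ → ℕ → ℕ → Prop} (h1 : Desc n d (Pi.single i 1 + β) Q)
    (h2 : Desc n d (Pi.single i 1 + (Pi.single i 1 + β)) Q)
    (h3 : Desc n d ((2 * d) • Pi.single i 1 + (Pi.single i 1 + β)) Q)
    (h4 : Desc n d ((2 * d) • Pi.single i 1 + Pi.single i 1) Q')
    (h5 : Desc n d (d • Pi.single i 1 + Pi.single i 1) Q')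
    {ℓ : Fin m → Cx k (n + 1) (r + 3)} (hℓ : ∀ κ, ℓ κ ∈ piece k (n + 1) (r + 3) (Pi.single i 1))
    (H : ∀ g : Ex (n + 1) (r + 3) → k, ∃ γ : Fin m → k, ∀ a b c' a' b' c'', Q a b c' →
      Q' a' b' c'' → (mk3 a b c' : Ex (n + 1) (r + 3)) i 0 =
        (mk3 a' b' c'' : Ex (n + 1) (r + 3)) i 0 →
      eval (pt c (mk3 a' b' c'')) (∑ κ, γ κ • ℓ κ) = g (mk3 a' b' c'')) :
    ∀ᶠ q in nb p, Rk q.I.1 (Pi.single i 1) β m := by
  subst hp
  refine ev_rk h1.1 h2.1 h3.1 h4.1 (X_mem i 0) (X_mem i (Fin.succ 0)) (onto_one hc hJ i h1 h2)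
    (onto_pow hc hJ i _ h1 h3) hℓ fun χ c1 c2 f hf => ?_
  obtain ⟨γ, hγ⟩ := H fun u => eval (pt c u) f
  obtain ⟨g, hg, h⟩ := exists_interp hc (top (key d) d (box (n + 1) _)) (filter_subset _ _)
    (a := d • Pi.single i 1 + Pi.single i 1)
    fun u => (eval (pt c u) f - eval (pt c u) (∑ κ, γ κ • ℓ κ)) / eval (pt c u) χ
  refine ⟨γ, g, hg, (hJ _ _ (sub_mem hf (add_mem (mul_mem_piece (pow_mem_piece (X_mem i 0) _)
    (sum_mem fun κ _ => Submodule.smul_mem _ _ (hℓ κ))) (by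
      have := mul_mem_piece c2 hg
      rwa [← add_assoc, ← add_smul, ← two_mul] at this)))).mpr fun u hu => ?_⟩
  have h6 : eval (pt c u) (X (i, 0)) = 1 := by simp [pt]
  rw [map_sub, map_add, map_mul, map_mul, map_pow, h6, one_pow, one_mul,
    h u ((h5.2 u).mpr ((h4.2 u).mp hu))]
  by_cases e : ∀ a b c, Q a b c → (mk3 a b c : Ex (n + 1) (r + 3)) i 0 ≠ u i 0
  · rw [mul_div_cancel₀ _ (c1 _ h6 (inj_at hc hJ i h1 h2 e))]
    ring
  · push Not at e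
    obtain ⟨a, b, c', e1, e2⟩ := e
    obtain ⟨a', b', c'', e3, rfl⟩ := (h4.2 u).mp hu
    rw [hγ _ _ _ _ _ _ e1 e3 e2]
    simp

end

theorem exists_component_disjoint_all (k : Type u) [Field k] [Infinite k] (n r : ℕ) (hd : 4 ≤ d) :
    ∃ C ∈ @irreducibleComponents _ (zariski k (n + 1) d (r + 3)),
      Disjoint C (slip k (n + 1) d (r + 3)) := by
  let _ := zariski k (n + 1) d (r + 3)
  let c := Infinite.natEmbedding k
  have hc : Function.Injective c := c.injective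
  obtain ⟨I₀, hI⟩ := exists_point (k := k) (d := d) hc (key_inj (n := n) (r := r) (d := d))
    (key_mono hd)
  obtain ⟨φ₀, hφ₀⟩ := exists_isFr (by omega) I₀
  let p : Pr k (n + 1) d (r + 3) := ⟨I₀, φ₀, hφ₀⟩
  have s01 := @ne01 r
  have s02 := @ne02 r
  have s12 := @ne12 r
  have lam (α : Fin (r + 3) → ℕ) := desc_lam (n := n) (α := α) hd
  have mu (α : Fin (r + 3) → ℕ) := desc_mu (n := n) (α := α) hd
  have r1 : ∀ᶠ q in nb p, Rk q.I.1 (Pi.single 0 1) (Pi.single 1 1 + d • Pi.single 2 1) 1 := by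
    refine rk_at hc hI rfl 0 (lam _ (by simp [*]) (by simp [s02.symm, s12.symm]))
      (lam _ (by simp [*]) (by simp [s02.symm, s12.symm]))
      (lam _ (by simp [*]) (by simp [s02.symm, s12.symm]))
      (desc_x hd (by simp; omega) (by simp) (by simp [s02.symm]))
      (desc_x hd (by simp) (by simp) (by simp [s02.symm])) (ℓ := fun _ => X (0, 0))
      (fun _ => X_mem _ _) fun g => ⟨fun _ => g (mk3 0 0 0), ?_⟩
    rintro _ b c' a' _ _ ⟨rfl, -⟩ ⟨-, rfl, rfl⟩ h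
    obtain rfl : 0 = a' := by simpa [mk3_0] using h
    simp [pt]
  have r2 : ∀ᶠ q in nb p, Rk q.I.1 (Pi.single 1 1) (Pi.single 0 1 + d • Pi.single 2 1) 2 := by
    refine rk_at hc hI rfl 1 (lam _ (by simp [*]) (by simp [s02.symm, s12.symm]))
      (lam _ (by simp [*]) (by simp [s02.symm, s12.symm]))
      (lam _ (by simp [*]) (by simp [s02.symm, s12.symm]))
      (desc_y hd (by simp) (by simp; omega) (by simp [s12.symm]))
      (desc_y hd (by simp) (by simp) (by simp [s12.symm])) (ℓ := ![X (1, 0), X (1, Fin.succ 0)])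
      (Fin.forall_fin_two.mpr ⟨X_mem _ _, X_mem _ _⟩) fun g =>
        ⟨![(c 1 * g (mk3 0 0 0) - c 0 * g (mk3 0 1 0)) / (c 1 - c 0),
          (g (mk3 0 1 0) - g (mk3 0 0 0)) / (c 1 - c 0)], ?_⟩
    rintro _ b c' _ b' _ ⟨rfl, h1⟩ ⟨rfl, -, rfl⟩ h
    obtain rfl : b = b' := by simpa [mk3_1] using h
    have h2 : c 1 - c 0 ≠ 0 := sub_ne_zero.mpr fun e => one_ne_zero (hc e)
    have h3 (u : Ex (n + 1) (r + 3)) : pt c u (1, Fin.succ 0) = c (u 1 0) := rfl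
    have h4 (u : Ex (n + 1) (r + 3)) : pt c u (1, 0) = 1 := rfl
    rw [Fin.sum_univ_two, map_add, smul_eval, smul_eval]
    simp only [Matrix.cons_val_zero, Matrix.cons_val_one, eval_X, h3, h4, mk3_1, Pi.single_eq_same]
    obtain rfl | rfl : b = 0 ∨ b = 1 := by omega
    all_goals field_simp; ring
  have m1 := mu (Pi.single 0 1 + (Pi.single 0 1 + d • Pi.single 2 1)) (by simp [*]) (by simp [*])
    (by simp [s02.symm])
  have m2 := mu (Pi.single 2 1 + (Pi.single 0 1 + (Pi.single 0 1 + d • Pi.single 2 1)))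
    (by simp [*]) (by simp [*]) (by simp [s02.symm])
  have m3 := desc_nu (n := n) (r := r) hd
    (α := d • Pi.single 2 1 + (Pi.single 0 1 + d • Pi.single 2 1))
    (by simp [*]) (by simp [*]) (by simp [s02.symm])
  have m4 := mu (Pi.single 0 1 + (d • Pi.single 2 1 + (Pi.single 0 1 + d • Pi.single 2 1)))
    (by simp [*]) (by simp [*]) (by simp [s02.symm])
  have r3 := ev_not_onto (p := p) (x := pt c (mk3 0 0 (d - 2))) (X_mem 2 0) (X_mem 2 (Fin.succ 0))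
    (mul_mem_piece (X_mem 0 0) (pow_mem_piece (X_mem 2 0) d)) m1.1 m2.1 m3.1 m4.1
    (onto_one hc hI 2 m1 m2) (by simp [pt]) (by simp [pt])
    (inj_at hc hI 2 m1 m2 fun a b c' h => by simp only [mk3_2, Pi.single_eq_same]; omega)
    fun f hf h => (hI _ f hf).mp h _ ((m3.2 _).mpr ⟨0, 0, d - 2, by omega, rfl⟩)
  obtain ⟨U, hU, hP, hQ⟩ := exists_open (p := p) (Q := fun J =>
    Rk J.1 (Pi.single 0 1) (Pi.single 1 1 + d • Pi.single 2 1) 1 ∧
    Rk J.1 (Pi.single 1 1) (Pi.single 0 1 + d • Pi.single 2 1) 2 ∧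
    ∀ w ∈ piece k (n + 1) (r + 3) (Pi.single 0 1), ¬ Onto J.1 w (Pi.single 0 1)
      (d • Pi.single 2 1 + (Pi.single 0 1 + d • Pi.single 2 1)))
    (by filter_upwards [r1, r2, r3] with q h1 h2 h3 using ⟨h1, h2, h3⟩)
  refine ⟨_, irreducibleComponent_mem_irreducibleComponents I₀,
    Set.disjoint_left.mpr fun I hI hI' => ?_⟩
  have hcl : I ∈ closure U := closure_mono Set.inter_subset_right
    (subset_closure_inter_of_isPreirreducible_of_isOpen isIrreducible_irreducibleComponent.2 hU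
      ⟨_, mem_irreducibleComponent, hP⟩ hI)
  obtain ⟨φ, hφ⟩ := exists_isFr (by omega) I
  have fr := freq_of_closure (p := ⟨I, φ, hφ⟩) hcl
  have l1 := (lam (Pi.single 0 1 + (Pi.single 1 1 + d • Pi.single 2 1)) (by simp [*])
    (by simp [s02.symm, s12.symm])).1
  obtain ⟨z, hz, h⟩ := onto_of_slip (p := ⟨I, φ, hφ⟩) hI' l1
    (mu _ (by simp [*]) (by simp [*]) (by simp [s02.symm])).1
    (rk_of_freq (by omega) l1 (fr.mono fun q hq => (hQ _ hq).1))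
    (rk_of_freq (by omega) (lam _ (by simp [*]) (by simp [s02.symm, s12.symm])).1
      (fr.mono fun q hq => (hQ _ hq).2.1))
  obtain ⟨q, h1, h2⟩ := (fr.and_eventually (ev_onto m4.1 hz h)).exists
  exact (hQ _ h1).2.2 z hz h2

end Pool.Agent.Lib.MP_07b136_ag
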