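import Pool.Agent.Lib.MP_07b136_ag.AllRig

open MvPolynomial Finset

universe u

namespace Pool.Agent.Lib.MP_07b136_ag

variable {k : Type u} [Field k] {n d r : ℕ}

/-- exponents of affine monomials -/
abbrev Ex (n r : ℕ) := Fin r → Fin n → ℕ

/-- exponent vectors of sum at most `m` -/
noncomputable def box1 (n m : ℕ) : Finset (Fin n → ℕ) :=
  (finsuppAntidiag (univ : Finset (Fin (n + 1))) m).image fun f j => f j.succ

lemma mem_box1 {m : ℕ} {v : Fin n → ℕ} : v ∈ box1 n m ↔ ∑ j, v j ≤ m := by
  simp only [box1, mem_image, mem_finsuppAntidiag, subset_univ, and_true, Fin.sum_univ_succ]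
  constructor
  · rintro ⟨f, h, rfl⟩
    exact h ▸ Nat.le_add_left _ _
  · intro h
    exact ⟨Finsupp.equivFunOnFinite.symm (Fin.cons (m - ∑ j, v j) v), by simp; omega, by simp⟩

lemma card_box1 (m : ℕ) : (box1 n m).card = (n + m).choose n := by
  rw [box1, card_image_of_injOn, card_finsuppAntidiag_nat_eq_choose, card_univ, Fintype.card_fin,
    show n + 1 + m - 1 = n + m by omega, Nat.choose_symm_add]
  intro f hf g hg h
  simp only [mem_coe, mem_finsuppAntidiag, Fin.sum_univ_succ] at hf hg
  have h1 (j : Fin n) : f j.succ = g j.succ := congr($h j)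
  ext j
  cases j using Fin.cases with
  | zero => have := hf.1.trans hg.1.symm; simp only [h1] at this; omega
  | succ j => exact h1 j

/-- the affine monomials available in degree `a` -/
noncomputable def box (n : ℕ) (a : Fin r → ℕ) : Finset (Ex n r) :=
  Fintype.piFinset fun i => box1 n (a i)

lemma mem_box {a : Fin r → ℕ} {u : Ex n r} : u ∈ box n a ↔ ∀ i, ∑ j, u i j ≤ a i := by
  simp [box, mem_box1]

lemma card_box (a : Fin r → ℕ) : (box n a).card = ∏ i, (n + a i).choose n := by
  simp [box, card_box1]

lemma box_mono {a b : Fin r → ℕ} {u v : Ex n r} (h : u ∈ box n a) (h1 : v ≤ u) (h2 : a ≤ b) :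
    v ∈ box n b :=
  mem_box.mpr fun i => (sum_le_sum fun j _ => h1 i j).trans ((mem_box.mp h i).trans (h2 i))

section top

variable {α L : Type*} [LinearOrder L] (key : α → L)

/-- the first `d` elements of a finite set -/
def top (d : ℕ) (s : Finset α) : Finset α :=
  s.filter fun u => (s.filter fun v => key v < key u).card < d

variable {key}

lemma top_her {s t : Finset α} {u v : α} (hu : u ∈ top key d t) (h : s ⊆ t) (hv : v ∈ s)
    (huv : key v ≤ key u) : v ∈ top key d s :=
  mem_filter.mpr ⟨hv, lt_of_le_of_lt (card_le_card fun _ hw => mem_filter.mpr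
    ⟨h (mem_filter.mp hw).1, (mem_filter.mp hw).2.trans_le huv⟩) (mem_filter.mp hu).2⟩

lemma card_top (hk : key.Injective) (s : Finset α) : (top key d s).card = min d s.card := by
  classical
  let ρ (u : α) := (s.filter fun v => key v < key u).card
  have h1 {u v} (hu : u ∈ s) (h : key u < key v) : ρ u < ρ v :=
    card_lt_card ⟨fun w hw => mem_filter.mpr ⟨(mem_filter.mp hw).1, (mem_filter.mp hw).2.trans h⟩,
      fun H => lt_irrefl _ (mem_filter.mp (H (mem_filter.mpr ⟨hu, h⟩))).2⟩
  have h2 : Set.InjOn ρ s := fun u hu v hv h => by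
    rcases lt_trichotomy (key u) (key v) with H | H | H
    · exact absurd h (h1 hu H).ne
    · exact hk H
    · exact absurd h (h1 hv H).ne'
  have h3 : s.image ρ = range s.card := by
    refine eq_of_subset_of_card_le (fun m hm => ?_) (by rw [card_image_of_injOn h2, card_range])
    obtain ⟨u, hu, rfl⟩ := mem_image.mp hm
    exact mem_range.mpr (card_lt_card ⟨filter_subset _ _,
      fun H => lt_irrefl _ (mem_filter.mp (H hu)).2⟩)
  have h4 : (top key d s).image ρ = range (min d s.card) := by
    ext m
    rw [mem_range, lt_min_iff, ← mem_range (n := s.card), ← h3, mem_image, mem_image]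
    constructor
    · rintro ⟨u, hu, rfl⟩
      exact ⟨(mem_filter.mp hu).2, u, (mem_filter.mp hu).1, rfl⟩
    · rintro ⟨h, u, hu, rfl⟩
      exact ⟨u, mem_filter.mpr ⟨hu, h⟩, rfl⟩
  rw [← card_image_of_injOn (s := top key d s) (h2.mono (filter_subset _ _)), h4, card_range]

lemma top_subset {s T : Finset α} (hT : T ⊆ s) (hc : d ≤ T.card)
    (h : ∀ u ∈ s, u ∉ T → ∀ v ∈ T, key v < key u) : top key d s ⊆ T := fun u hu => by
  by_contra H
  have := card_le_card (show T ⊆ s.filter fun v => key v < key u from
    fun v hv => mem_filter.mpr ⟨hT hv, h u (mem_filter.mp hu).1 H v hv⟩)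
  have := (mem_filter.mp hu).2
  omega

end top

variable (c : ℕ → k)

/-- grid point of an exponent -/
def pt (u : Ex n r) : Fin r × Fin (n + 1) → k :=
  fun v => Fin.cases (motive := fun _ => k) 1 (fun j => c (u v.1 j)) v.2

/-- Newton basis -/
def newt (v u : Ex n r) : k := ∏ i, ∏ j, ∏ l ∈ range (v i j), (c (u i j) - c l)

/-- unit exponent -/
def ex1 (i : Fin r) (j : Fin n) : Ex n r := Pi.single i (Pi.single j 1)

lemma newt_add (v u : Ex n r) (i : Fin r) (j : Fin n) :
    newt c (v + ex1 i j) u = newt c v u * (c (u i j) - c (v i j)) := by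
  have H (i' j') : ∏ l ∈ range ((v + ex1 i j) i' j'), (c (u i' j') - c l) =
      (∏ l ∈ range (v i' j'), (c (u i' j') - c l)) *
        if i' = i then if j' = j then c (u i j) - c (v i j) else 1 else 1 := by
    by_cases h : i' = i
    · subst h
      by_cases h' : j' = j
      · subst h'
        simp [ex1, prod_range_succ]
      · simp [ex1, h']
    · simp [ex1, h]
  simp only [newt, H, prod_mul_distrib]
  congr 1
  rw [Fintype.prod_eq_single i fun i' h => by simp [h]]
  simp

lemma add_mem_box {a : Fin r → ℕ} {v : Ex n r} (i : Fin r) (j : Fin n) :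
    v + ex1 i j ∈ box n (Pi.single i 1 + a) ↔ v ∈ box n a := by
  simp only [mem_box]
  refine forall_congr' fun i' => ?_
  by_cases h : i' = i
  · subst h
    simp [ex1, sum_add_distrib, add_comm]
  · simp [ex1, h]

lemma le_of_newt {v u : Ex n r} (h : newt c v u ≠ 0) : v ≤ u := fun i j => by
  by_contra H
  exact h (prod_eq_zero (mem_univ i) (prod_eq_zero (mem_univ j)
    (prod_eq_zero (mem_range.mpr (not_le.mp H)) (sub_self _))))

lemma newt_self (hc : c.Injective) (u : Ex n r) : newt c u u ≠ 0 :=
  prod_ne_zero_iff.mpr fun _ _ => prod_ne_zero_iff.mpr fun _ _ => prod_ne_zero_iff.mpr fun _ hl =>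
    sub_ne_zero.mpr fun e => (mem_range.mp hl).ne' (hc e)

lemma deg_induction {P : (Fin r → ℕ) → Prop} (h0 : P 0)
    (h1 : ∀ l a, P a → P (Pi.single l 1 + a)) (a : Fin r → ℕ) : P a := by
  induction h : ∑ i, a i generalizing a with
  | zero =>
    obtain rfl : a = 0 := funext fun i => Finset.sum_eq_zero_iff.mp h i (Finset.mem_univ _)
    exact h0
  | succ m ih =>
    obtain ⟨l, hl⟩ : ∃ l, a l ≠ 0 := by
      by_contra H
      push Not at H
      simp [H] at h
    obtain ⟨a', rfl⟩ := exists_single_add hl
    exact h1 l a' (ih a' (by simp [Finset.sum_add_distrib] at h; omega))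

lemma eval_mem_span (a : Fin r → ℕ) : ∀ f ∈ piece k n r a,
    (fun u => eval (pt c u) f) ∈ Submodule.span k (newt c '' (box n a : Set (Ex n r))) := by
  induction a using deg_induction with
  | h0 =>
    intro f hf
    obtain ⟨x, rfl⟩ := exists_eq_C hf
    have : (fun u : Ex n r => eval (pt c u) (C x)) = x • newt c 0 := by
      funext u
      simp [newt]
    rw [this]
    exact Submodule.smul_mem _ _ (Submodule.subset_span ⟨0, mem_box.mpr (by simp), rfl⟩)
  | h1 l a ih =>
    intro f hf
    obtain ⟨g, hg, rfl⟩ := exists_decomp hf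
    rw [show (fun u : Ex n r => eval (pt c u) (∑ j, X (l, j) * g j)) =
      ∑ j, (fun u => pt c u (l, j)) * fun u => eval (pt c u) (g j) by funext u; simp]
    refine sum_mem fun j _ => ?_
    have h := ih _ (hg j)
    generalize (fun u => eval (pt c u) (g j)) = G at h
    induction h using Submodule.span_induction with
    | mem _ h =>
      obtain ⟨v, hv, rfl⟩ := h
      have h1 : newt c v ∈ Submodule.span k (newt c '' (box n (Pi.single l 1 + a) : Set (Ex n r))) :=
        Submodule.subset_span ⟨v, box_mono hv le_rfl le_add_self, rfl⟩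
      cases j using Fin.cases with
      | zero => convert h1 using 1; funext u; simp [pt]
      | succ j =>
        convert add_mem (Submodule.subset_span (Set.mem_image_of_mem (newt c)
          ((add_mem_box l j).mpr hv))) (Submodule.smul_mem _ (c (v l j)) h1) using 1
        funext u
        simp [pt, newt_add]
        ring
    | zero => simp
    | add _ _ _ _ h1 h2 => rw [mul_add]; exact add_mem h1 h2
    | smul x _ _ h1 => rw [mul_smul_comm]; exact Submodule.smul_mem _ _ h1

lemma exists_newt (a : Fin r → ℕ) : ∀ v ∈ box n a,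
    ∃ f ∈ piece k n r a, ∀ u, eval (pt c u) f = newt c v u := by
  induction a using deg_induction with
  | h0 =>
    intro v hv
    obtain rfl : v = 0 := funext fun i => funext fun j =>
      sum_eq_zero_iff.mp (Nat.le_zero.mp (mem_box.mp hv i)) j (mem_univ _)
    exact ⟨1, pow_mem_piece (f := 0) (a := 0) (zero_mem _) 0, by simp [newt]⟩
  | h1 l a ih =>
    intro v hv
    by_cases h : ∃ j, v l j ≠ 0
    · obtain ⟨j, hj⟩ := h
      obtain ⟨v', rfl⟩ : ∃ v', v = v' + ex1 l j := ⟨v - ex1 l j, (tsub_add_cancel_of_le
        fun i j' => by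
          by_cases h : i = l
          · subst h
            by_cases h' : j' = j
            · subst h'
              simpa [ex1] using Nat.one_le_iff_ne_zero.mpr hj
            · simp [ex1, h']
          · simp [ex1, h]).symm⟩
      obtain ⟨f, hf, h1⟩ := ih v' ((add_mem_box l j).mp hv)
      exact ⟨_, mul_mem_piece (sub_mem (X_mem l j.succ)
        (Submodule.smul_mem _ (c (v' l j)) (X_mem l 0))) hf, fun u => by
          simp [newt_add, h1, pt, mul_comm]⟩
    · push Not at h
      obtain ⟨f, hf, h1⟩ := ih v (mem_box.mpr fun i => by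
        by_cases e : i = l
        · simp [e, h]
        · simpa [e] using mem_box.mp hv i)
      exact ⟨_, mul_mem_piece (X_mem l 0) hf, fun u => by simp [h1, pt]⟩

/-- total degree -/
def dg (u : Ex n r) : ℕ := ∑ i, ∑ j, u i j

lemma dg_lt {u v : Ex n r} (h : v ≤ u) (h' : v ≠ u) : dg v < dg u := by
  obtain ⟨i, hi⟩ := Function.ne_iff.mp h'
  obtain ⟨j, hj⟩ := Function.ne_iff.mp hi
  exact sum_lt_sum (fun i _ => sum_le_sum fun j _ => h i j) ⟨i, mem_univ _,
    sum_lt_sum (fun j _ => h i j) ⟨j, mem_univ _, lt_of_le_of_ne (h i j) hj⟩⟩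

variable {c}

lemma exists_interp (hc : c.Injective) {a : Fin r → ℕ} (U : Finset (Ex n r)) (hU : U ⊆ box n a)
    (g : Ex n r → k) : ∃ f ∈ piece k n r a, ∀ u ∈ U, eval (pt c u) f = g u := by
  induction U using induction_on_max_value dg with
  | empty => exact ⟨0, zero_mem _, by simp⟩
  | insert v U hv h ih =>
    obtain ⟨f, hf, h1⟩ := ih ((subset_insert _ _).trans hU)
    obtain ⟨f', hf', h2⟩ := exists_newt c a v (hU (mem_insert_self _ _))
    refine ⟨f + ((g v - eval (pt c v) f) / newt c v v) • f',
      add_mem hf (Submodule.smul_mem _ _ hf'), fun u hu => ?_⟩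
    rw [map_add, smul_eval, h2]
    rcases mem_insert.mp hu with rfl | hu
    · rw [div_mul_cancel₀ _ (newt_self c hc _), add_sub_cancel]
    · have : newt c v u = 0 := by
        by_contra H
        exact (h u hu).not_gt (dg_lt (le_of_newt c H) fun e => hv (e ▸ hu))
      rw [this, mul_zero, add_zero, h1 u hu]

lemma eval_eq_zero (hc : c.Injective) {a : Fin r → ℕ} {f : Cx k n r} (hf : f ∈ piece k n r a)
    {u : Ex n r} (h : ∀ v ∈ box n a, v ≤ u → eval (pt c v) f = 0) : eval (pt c u) f = 0 := by
  obtain ⟨x, hx⟩ := (Submodule.mem_span_image_finset_iff_exists_fun' k).mp (eval_mem_span c a f hf)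
  have h1 (w) : eval (pt c w) f = ∑ v ∈ box n a, x v * newt c v w := by
    simpa using congr($hx w).symm
  have h2 (m) : ∀ v ∈ box n a, v ≤ u → dg v = m → x v = 0 := by
    induction m using Nat.strong_induction_on with
    | _ m ih =>
      intro v hv hvu e
      have h3 := h v hv hvu
      rw [h1, sum_eq_single_of_mem v hv] at h3
      · exact (mul_eq_zero.mp h3).resolve_right (newt_self c hc v)
      · intro w hw hwv
        by_cases H : newt c w v = 0
        · rw [H, mul_zero]
        · have h4 := le_of_newt c H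
          rw [ih _ (e ▸ dg_lt h4 hwv) w hw (h4.trans hvu) rfl, zero_mul]
  rw [h1]
  refine sum_eq_zero fun v hv => ?_
  by_cases H : newt c v u = 0
  · rw [H, mul_zero]
  · rw [h2 _ v hv (le_of_newt c H) rfl, zero_mul]

lemma exists_point (hc : c.Injective) {L : Type*} [LinearOrder L] {key : Ex n r → L}
    (hk : key.Injective) (hm : Monotone key) : ∃ I : Hilb k n d r, ∀ a, ∀ f ∈ piece k n r a,
      f ∈ I.1 ↔ ∀ u ∈ top key d (box n a), eval (pt c u) f = 0 := by
  let I : Ideal (Cx k n r) :=
    { carrier := {f | ∀ a, ∀ u ∈ top key d (box n a),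
        eval (pt c u) (weightedHomogeneousComponent (wt n r) a f) = 0}
      add_mem' := fun hf hg a u hu => by rw [map_add, map_add, hf a u hu, hg a u hu, add_zero]
      zero_mem' := fun a u _ => by simp
      smul_mem' := fun g f hf => by
        induction g using MvPolynomial.induction_on with
        | C x =>
          intro a u hu
          rw [smul_eq_mul, weightedHomogeneousComponent_C_mul, map_mul, hf a u hu, mul_zero]
        | add p q hp hq =>
          intro a u hu
          rw [add_smul, map_add, map_add, hp a u hu, hq a u hu, add_zero]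
        | mul_X p v hp =>
          intro a u hu
          obtain ⟨i, j⟩ := v
          rw [smul_eq_mul, mul_comm p, mul_assoc]
          by_cases ha : a i = 0
          · rw [comp_X_mul_of_zero i j ha, map_zero]
          · obtain ⟨b, rfl⟩ := exists_single_add ha
            rw [comp_X_mul, map_mul]
            exact mul_eq_zero_of_right _ (eval_eq_zero hc
              (weightedHomogeneousComponent_mem (wt n r) _ b) fun v hv hvu => hp b v
                (top_her hu (fun w hw => box_mono hw le_rfl le_add_self) hv (hm hvu))) }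
  have hI (a) (f) (hf : f ∈ piece k n r a) :
      f ∈ I ↔ ∀ u ∈ top key d (box n a), eval (pt c u) f = 0 := by
    constructor
    · intro h u hu
      have := h a u hu
      rwa [weightedHomogeneousComponent_eq_self hf] at this
    · intro h b u hu
      rw [weightedHomogeneousComponent_of_mem hf]
      split_ifs with e
      · subst e; exact h u hu
      · simp
  have hcard (a : Fin r → ℕ) : (top key d (box n a)).card = hilbFun n d a := by
    rw [card_top hk, card_box, hilbFun]
  let σ (a : Fin r → ℕ) := (equivFinOfCardEq (hcard a)).symm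
  let φ : Fr k n d r := fun a => LinearMap.pi fun s =>
    (aeval (pt c (σ a s).1)).toLinearMap.comp (Submodule.subtype _)
  have hφ : IsFr I φ := fun a f => by
    rw [hI a f.1 f.2, funext_iff]
    exact ⟨fun h u hu => by simpa [φ] using h ((σ a).symm ⟨u, hu⟩), fun h s => h _ (σ a s).2⟩
  refine ⟨⟨I, fun f hf a => (hI a _ (weightedHomogeneousComponent_mem _ _ a)).mpr (hf a),
    fun a => ?_⟩, hI⟩
  rw [hφ.finrank, LinearMap.range_eq_top.mpr, finrank_top, Module.finrank_fin_fun]
  intro v
  classical
  obtain ⟨f, hf, h⟩ := exists_interp hc (top key d (box n a)) (filter_subset _ _)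
    fun u => if h : u ∈ top key d (box n a) then v ((σ a).symm ⟨u, h⟩) else 0
  refine ⟨⟨f, hf⟩, funext fun s => ?_⟩
  simpa [φ] using h _ (σ a s).2

end Pool.Agent.Lib.MP_07b136_ag
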