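import Pool.Agent.Lib.MP_07b136_ag.AllGerm

open MvPolynomial Filter

universe u

namespace Pool.Agent.Lib.MP_07b136_ag

variable {k : Type u} [Field k] {n d r : ℕ} {p : Pr k n d r} {a b e : Fin r → ℕ}

lemma piece_add_le (a b : Fin r → ℕ) :
    piece k n r (a + b) ≤ piece k n r a * piece k n r b := by
  induction h : ∑ i, a i generalizing a with
  | zero =>
    obtain rfl : a = 0 := funext fun i => Finset.sum_eq_zero_iff.mp h i (Finset.mem_univ _)
    intro f hf
    rw [← one_mul f]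
    exact Submodule.mul_mem_mul (pow_mem_piece (f := 0) (a := 0) (zero_mem _) 0)
      (by simpa using hf)
  | succ m ih =>
    obtain ⟨l, hl⟩ : ∃ l, a l ≠ 0 := by
      by_contra H
      push Not at H
      simp [H] at h
    obtain ⟨a', rfl⟩ := exists_single_add hl
    intro f hf
    rw [add_assoc] at hf
    obtain ⟨u, hu, rfl⟩ := exists_decomp hf
    refine sum_mem fun j _ => ?_
    have h1 := ih a' (by simp [Finset.sum_add_distrib] at h; omega) (hu j)
    refine Submodule.mul_induction_on h1 (fun g hg g' hg' => ?_) fun g g' hg hg' => ?_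
    · rw [← mul_assoc]
      exact Submodule.mul_mem_mul (mul_mem_piece (X_mem l j) hg) hg'
    · rw [mul_add]
      exact add_mem hg hg'

lemma RegP.det {ι : Type} [Fintype ι] [DecidableEq ι] {M : Pr k n d r → Matrix ι ι (Cx k n r)}
    (h : ∀ i j, RegP p a fun q => M q i j) :
    RegP p (Fintype.card ι • a) fun q => (M q).det := by
  simp only [Matrix.det_apply']
  refine RegP.sum _ fun σ => ?_
  have := (RegP.prod Finset.univ fun i => h (σ i) i).smul
    (reg_const ((Equiv.Perm.sign σ : ℤ) : k))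
  simpa only [Finset.card_univ, smul_eq_C_mul, map_intCast] using this

lemma det_mul_mem {R ι : Type*} [CommRing R] [Fintype ι] [DecidableEq ι] {J : Ideal R}
    {M : Matrix ι ι R} {m : ι → R} (h : ∀ s, M.mulVec m s ∈ J) (s : ι) : M.det * m s ∈ J := by
  have : M.adjugate.mulVec (M.mulVec m) s ∈ J := sum_mem fun t _ => J.mul_mem_left _ (h t)
  rwa [Matrix.mulVec_mulVec, Matrix.adjugate_mul, Matrix.smul_mulVec, Matrix.one_mulVec] at this

lemma exists_killer (ha : hilbFun n d a = d) (hb : hilbFun n d (e + a) = d) {z t : Cx k n r}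
    (hz : z ∈ piece k n r e) (ht : t ∈ piece k n r e) (h : Onto p.I.1 z e a) :
    ∃ χ : Pr k n d r → Cx k n r, RegP p (d • e) χ ∧
      (∀ᶠ q in nb p, ∀ c, ∀ f ∈ piece k n r (a + c), χ q * f ∈ q.I.1) ∧
      ∀ x : Fin r × Fin (n + 1) → k, eval x z = 1 →
        (∀ g ∈ piece k n r a, (t - eval x t • z) * g ∈ p.I.1 → g ∈ p.I.1) → eval x (χ p) ≠ 0 := by
  obtain ⟨j, hj⟩ := exists_indep hb (fun g => mul_mem_piece hz g.2) (onto_iff.mp h)
  have hm (s) : RegP p (e + a) fun _ => z * (j s).1 := .const (mul_mem_piece hz (j s).2)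
  choose Y hY hY' using fun s => solve hb hm hj (.const (mul_mem_piece ht (j s).2))
  let M (q : Pr k n d r) : Matrix (Fin d) (Fin d) (Cx k n r) :=
    Matrix.of fun s s' => (if s = s' then t else 0) - Y s s' q • z
  have hM (q s) : (M q).mulVec (fun s => (j s).1) s =
      t * (j s).1 - ∑ s', Y s s' q • (z * (j s').1) := by
    simp [M, Matrix.mulVec, dotProduct, sub_mul, Finset.sum_sub_distrib]
  refine ⟨fun q => (M q).det, ?_, ?_, fun x hx H => ?_⟩
  · have := RegP.det (M := M) (a := e) fun s s' => RegP.sub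
      (.const (by split_ifs; exacts [ht, zero_mem _])) ((RegP.const hz).smul (hY s s'))
    rwa [Fintype.card_fin] at this
  · filter_upwards [eventually_all.mpr hY', ev_indep hb hm hj] with q h1 h2 c f hf
    refine Submodule.mul_induction_on (piece_add_le a c hf) (fun g hg g' _ => ?_)
      fun g g' hg hg' => ?_
    · obtain ⟨g₁, hg₁, h3⟩ := h2.of_mul.sur ha (fun s => (j s).2) g hg
      obtain ⟨c, rfl⟩ := (Submodule.mem_span_range_iff_exists_fun k).mp hg₁
      rw [← mul_assoc]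
      refine q.I.1.mul_mem_right _ ?_
      rw [← sub_add_cancel g (∑ s, c s • (j s).1), mul_add, Finset.mul_sum]
      refine add_mem (q.I.1.mul_mem_left _ h3) (sum_mem fun s _ => ?_)
      rw [mul_smul_comm, smul_eq_C_mul]
      exact q.I.1.mul_mem_left _ (det_mul_mem (M := M q) (m := fun s => (j s).1)
        (fun s => by rw [hM]; exact h1 s) s)
    · rw [mul_add]
      exact add_mem hg hg'
  · rw [RingHom.map_det, ne_eq, ← Matrix.exists_vecMul_eq_zero_iff]
    rintro ⟨v, hv, h0⟩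
    refine hv (hj.of_mul v (H _ (sum_mem fun s _ => Submodule.smul_mem _ _ (j s).2) ?_))
    have h1 : ∀ s, t * (j s).1 - ∑ s', Y s s' p • (z * (j s').1) ∈ p.I.1 := by
      intro s
      obtain ⟨D, -, h2, h3⟩ := hY' s
      exact h3 p h2
    have h2 (s') : ∑ s, v s * Y s s' p = v s' * eval x t := by
      have := congr($h0 s')
      simp [M, Matrix.vecMul, dotProduct, hx, apply_ite, mul_sub, Finset.sum_sub_distrib] at this
      rw [← sub_eq_zero.mp this]
    have h3 : (t - eval x t • z) * ∑ s, v s • (j s).1 =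
        ∑ s, C (v s) * (t * (j s).1 - ∑ s', Y s s' p • (z * (j s').1)) := by
      simp only [mul_sub, sub_mul, Finset.sum_sub_distrib, Finset.mul_sum, ← smul_eq_C_mul,
        smul_sub, mul_smul_comm, smul_smul, smul_mul_assoc]
      rw [Finset.sum_comm]
      simp only [← Finset.sum_smul, ← h2, mul_comm]
    rw [h3]
    exact sum_mem fun s _ => p.I.1.mul_mem_left _ (h1 s)

/-- forms of degree `e` act from degree `b` through a space of dimension at most `m` -/
def Rk (J : Ideal (Cx k n r)) (e b : Fin r → ℕ) (m : ℕ) : Prop :=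
  ∃ ℓ : Fin m → Cx k n r, (∀ κ, ℓ κ ∈ piece k n r e) ∧ ∀ x ∈ piece k n r e, ∃ β : Fin m → k,
    ∀ f ∈ piece k n r b, (x - ∑ κ, β κ • ℓ κ) * f ∈ J

lemma ev_rk {m : ℕ} (ha : hilbFun n d (e + b) = d) (h1 : hilbFun n d (e + (e + b)) = d)
    (h2 : hilbFun n d ((2 * d) • e + (e + b)) = d) (h3 : hilbFun n d ((2 * d) • e + e) = d)
    {z t : Cx k n r} (hz : z ∈ piece k n r e) (ht : t ∈ piece k n r e)
    (o1 : Onto p.I.1 z e (e + b)) (o2 : Onto p.I.1 (z ^ (2 * d)) ((2 * d) • e) (e + b))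
    {ℓ : Fin m → Cx k n r} (hℓ : ∀ κ, ℓ κ ∈ piece k n r e)
    (H : ∀ χ : Cx k n r, (∀ x : Fin r × Fin (n + 1) → k, eval x z = 1 →
      (∀ g ∈ piece k n r (e + b), (t - eval x t • z) * g ∈ p.I.1 → g ∈ p.I.1) → eval x χ ≠ 0) →
      χ ∈ piece k n r (d • e) → ∀ f ∈ piece k n r ((2 * d) • e + e),
      ∃ β : Fin m → k, ∃ g ∈ piece k n r (d • e + e),
        f - (z ^ (2 * d) * ∑ κ, β κ • ℓ κ + χ * g) ∈ p.I.1) :
    ∀ᶠ q in nb p, Rk q.I.1 e b m := by
  obtain ⟨χ, c1, c2, c3⟩ := exists_killer ha h1 hz ht o1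
  have hz' := pow_mem_piece hz (2 * d)
  have hs (β : Fin m → k) : ∑ κ, β κ • ℓ κ ∈ piece k n r e :=
    sum_mem fun κ _ => Submodule.smul_mem _ _ (hℓ κ)
  have h4 := ev_sur (m := fun (i : (Fin m → k) × piece k n r (d • e + e)) q =>
    z ^ (2 * d) * ∑ κ, i.1 κ • ℓ κ + χ q * i.2.1) h3 (fun i => (RegP.const
      (mul_mem_piece hz' (hs i.1))).add (by
        have := c1.mul (RegP.const i.2.2)
        rwa [← add_assoc, ← add_smul, ← two_mul] at this)) fun f hf => by
    obtain ⟨β, g, hg, h⟩ := H _ c3 (c1.mem p) f hf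
    exact ⟨_, Submodule.subset_span ⟨(β, ⟨g, hg⟩), rfl⟩, h⟩
  filter_upwards [h4, c2, ev_onto h2 hz' o2] with q h5 h6 h7
  refine ⟨ℓ, hℓ, fun x hx => ?_⟩
  obtain ⟨g, hg, h8⟩ := h5 _ (mul_mem_piece hz' hx)
  obtain ⟨β, g', hg', rfl⟩ : ∃ β : Fin m → k, ∃ g' ∈ piece k n r (d • e + e),
      g = z ^ (2 * d) * ∑ κ, β κ • ℓ κ + χ q * g' := by
    clear h8
    induction hg using Submodule.span_induction with
    | mem _ h => obtain ⟨i, rfl⟩ := h; exact ⟨i.1, i.2, i.2.2, rfl⟩
    | zero => exact ⟨0, 0, zero_mem _, by simp⟩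
    | add _ _ _ _ i1 i2 =>
      obtain ⟨β, g, hg, rfl⟩ := i1
      obtain ⟨β', g', hg', rfl⟩ := i2
      refine ⟨β + β', g + g', add_mem hg hg', ?_⟩
      simp only [Pi.add_apply, add_smul, Finset.sum_add_distrib]
      ring
    | smul c _ _ i1 =>
      obtain ⟨β, g, hg, rfl⟩ := i1
      refine ⟨c • β, c • g, Submodule.smul_mem _ _ hg, ?_⟩
      simp only [Pi.smul_apply, smul_eq_mul, mul_smul, ← Finset.smul_sum, smul_add, mul_smul_comm]
  refine ⟨β, fun f hf => h7.inj ha h2 hz' (mul_mem_piece (sub_mem hx (hs β)) hf) ?_⟩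
  have h9 := h6 (d • e) (g' * f) (by
    have := mul_mem_piece hg' hf
    rwa [add_assoc, add_comm (d • e)] at this)
  have := add_mem (q.I.1.mul_mem_right f h8) h9
  convert this using 1
  ring

lemma exists_span_or {V W : Type*} [AddCommGroup V] [Module k V] [AddCommGroup W] [Module k W]
    (T : V →ₗ[k] W) (m : ℕ) : ∃ ℓ : Fin m → V, (LinearIndependent k fun κ => T (ℓ κ)) ∨
      ∀ x, T x ∈ Submodule.span k (Set.range fun κ => T (ℓ κ)) := by
  induction m with
  | zero => exact ⟨Fin.elim0, Or.inl linearIndependent_empty_type⟩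
  | succ m ih =>
    obtain ⟨ℓ, h⟩ := ih
    by_cases H : ∀ x, T x ∈ Submodule.span k (Set.range fun κ => T (ℓ κ))
    · exact ⟨Fin.cons 0 ℓ, Or.inr fun x => Submodule.span_mono
        (by rintro _ ⟨κ, rfl⟩; exact ⟨κ.succ, rfl⟩) (H x)⟩
    · push Not at H
      obtain ⟨x, hx⟩ := H
      refine ⟨Fin.cons x ℓ, Or.inl ?_⟩
      have := (h.resolve_right fun H => hx (H x)).finCons hx
      convert this using 1
      funext κ
      cases κ using Fin.cases <;> rfl

lemma rk_of_freq {m : ℕ} (hd : 0 < d) (ha : hilbFun n d (e + b) = d)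
    (h : ∃ᶠ q in nb p, Rk q.I.1 e b m) : Rk p.I.1 e b m := by
  let T : piece k n r e →ₗ[k] (piece k n r b × Fin d → k) := LinearMap.pi fun w =>
    (LinearMap.proj w.2).comp ((extd p.φ (e + b)).comp
      ((LinearMap.mulRight k w.1.1).comp (Submodule.subtype _)))
  have hT (x w) : T x w = extd p.φ (e + b) (x.1 * w.1.1) w.2 := rfl
  obtain ⟨ℓ, hℓ⟩ := exists_span_or T m
  by_cases H : ∀ x, T x ∈ Submodule.span k (Set.range fun κ => T (ℓ κ))
  · refine ⟨fun κ => ℓ κ, fun κ => (ℓ κ).2, fun x hx => ?_⟩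
    obtain ⟨β, hβ⟩ := (Submodule.mem_span_range_iff_exists_fun k).mp (H ⟨x, hx⟩)
    refine ⟨β, fun f hf => ?_⟩
    have h1 : T (⟨x, hx⟩ - ∑ κ, β κ • ℓ κ) = 0 := by simp [← hβ]
    refine (p.extd_eq_zero ha (mul_mem_piece (sub_mem hx (sum_mem fun κ _ =>
      Submodule.smul_mem _ _ (ℓ κ).2)) hf)).mp (funext fun i => ?_)
    simpa [hT] using congr($h1 (⟨f, hf⟩, i))
  exfalso
  push Not at H
  obtain ⟨x, hx⟩ := H
  let y : Fin (m + 1) → piece k n r e := Fin.cons x ℓ
  have hy : LinearIndependent k fun κ => T (y κ) := by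
    rw [show (fun κ => T (y κ)) = Fin.cons (T x) fun κ => T (ℓ κ) from
      funext fun κ => by cases κ using Fin.cases <;> rfl]
    exact (hℓ.resolve_right fun H => hx (H x)).finCons hx
  have : Nonempty (piece k n r b × Fin d) := ⟨0, ⟨0, hd⟩⟩
  have := Module.Finite.span_of_finite k (Set.finite_range fun κ => T (y κ))
  obtain ⟨w, hw⟩ := exists_points (fun w => LinearMap.proj (R := k) w) (fun v hv => funext hv)
    (m + 1) (Submodule.span k (Set.range fun κ => T (y κ)))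
    ((finrank_range_le_card _).trans (by simp))
  let A (q : Pr k n d r) : Matrix (Fin (m + 1)) (Fin (m + 1)) k :=
    Matrix.of fun κ s => extd q.φ (e + b) ((y κ).1 * (w s).1.1) (w s).2
  have hA (q c s) : Matrix.vecMul c (A q) s =
      extd q.φ (e + b) ((∑ κ, c κ • (y κ).1) * (w s).1.1) (w s).2 := by
    simp [A, Matrix.vecMul, dotProduct, Finset.sum_mul]
  have h0 : (A p).det ≠ 0 := by
    rw [ne_eq, ← Matrix.exists_vecMul_eq_zero_iff]
    rintro ⟨c, hc, h1⟩
    refine hc (funext (Fintype.linearIndependent_iff.mp hy c (hw _ (sum_mem fun κ _ =>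
      Submodule.smul_mem _ _ (Submodule.subset_span ⟨κ, rfl⟩)) fun s => ?_)))
    simpa [hA, hT, Finset.sum_mul] using congr($h1 s)
  obtain ⟨q, ⟨ℓ', -, h1⟩, h2⟩ := (h.and_eventually (ev_ne (reg_det (M := A)
    fun κ s => reg_extd _ _ _) h0)).exists
  choose β hβ using fun κ => h1 _ (y κ).2
  obtain ⟨c, h3, i, h4⟩ : ∃ c : Fin (m + 1) → k, ∑ κ, c κ • β κ = 0 ∧ ∃ i, c i ≠ 0 :=
    Fintype.not_linearIndependent_iff.mp fun H => by simpa using H.fintype_card_le_finrank
  refine h2 (Matrix.exists_vecMul_eq_zero_iff.mp ⟨c, fun e => h4 congr($e i), funext fun s => ?_⟩)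
  have h5 : (∑ κ, c κ • (y κ).1) * (w s).1.1 ∈ q.I.1 := by
    have h6 : ∑ κ, c κ • (y κ).1 = ∑ κ, c κ • ((y κ).1 - ∑ κ', β κ κ' • ℓ' κ') := by
      simp only [smul_sub, Finset.sum_sub_distrib, Finset.smul_sum, smul_smul]
      rw [Finset.sum_comm]
      have h7 (κ') : ∑ κ, c κ * β κ κ' = 0 := by simpa using congr($h3 κ')
      simp only [← Finset.sum_smul, h7, zero_smul, Finset.sum_const_zero, sub_zero]
    rw [h6, Finset.sum_mul]
    refine sum_mem fun κ _ => ?_
    rw [smul_mul_assoc, smul_eq_C_mul]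
    exact q.I.1.mul_mem_left _ (hβ κ _ (w s).1.2)
  rw [hA, (q.extd_eq_zero ha (mul_mem_piece (sum_mem fun κ _ =>
    Submodule.smul_mem _ _ (y κ).2) (w s).1.2)).mpr h5]
  rfl

lemma exists_eval_ne {x : Fin r × Fin (n + 1) → k} (hx : ∀ i, ∃ j, x (i, j) ≠ 0)
    (a : Fin r → ℕ) : ∃ f ∈ piece k n r a, eval x f ≠ 0 := by
  induction h : ∑ i, a i generalizing a with
  | zero =>
    obtain rfl : a = 0 := funext fun i => Finset.sum_eq_zero_iff.mp h i (Finset.mem_univ _)
    exact ⟨1, pow_mem_piece (f := 0) (a := 0) (zero_mem _) 0, by simp⟩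
  | succ m ih =>
    obtain ⟨l, hl⟩ : ∃ l, a l ≠ 0 := by
      by_contra H
      push Not at H
      simp [H] at h
    obtain ⟨a', rfl⟩ := exists_single_add hl
    obtain ⟨f, hf, h1⟩ := ih a' (by simp [Finset.sum_add_distrib] at h; omega)
    obtain ⟨j, hj⟩ := hx l
    exact ⟨_, mul_mem_piece (X_mem l j) hf, by simpa using ⟨hj, h1⟩⟩

/-- the Cayley-Hamilton obstruction -/
lemma onto_of_slip {e' c : Fin r → ℕ} (hp : p.I ∈ slip k n d r)
    (h1 : hilbFun n d (e + (e' + c)) = d) (h2 : hilbFun n d ((e + c) + (e + c)) = d)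
    (r1 : Rk p.I.1 e (e' + c) 1) (r2 : Rk p.I.1 e' (e + c) 2) :
    ∃ z ∈ piece k n r e, Onto p.I.1 z e (c + (e + c)) := by
  obtain ⟨z, hz, r1⟩ := r1
  obtain ⟨y, hy, r2⟩ := r2
  refine ⟨z 0, hz 0, ?_⟩
  let m (i : Fin 2 → piece k n r c) : Cx k n r := z 0 * ∑ κ, y κ * (i κ).1
  have hm (i) : m i ∈ piece k n r (e + (e' + c)) :=
    mul_mem_piece (hz 0) (sum_mem fun κ _ => mul_mem_piece (hy κ) (i κ).2)
  have hs : Sur p.I.1 (e + (e' + c)) (Submodule.span k (Set.range m)) := by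
    intro f hf
    refine Submodule.mul_induction_on (piece_add_le _ _ hf) (fun x hx g hg => ?_) ?_
    · obtain ⟨β, hβ⟩ := r1 x hx
      have h3 := hβ g hg
      suffices ∃ g' ∈ Submodule.span k (Set.range m), z 0 * g - g' ∈ p.I.1 by
        obtain ⟨g', h4, h5⟩ := this
        refine ⟨β 0 • g', Submodule.smul_mem _ _ h4, ?_⟩
        convert add_mem h3 (p.I.1.mul_mem_left (C (β 0)) h5) using 1
        simp only [Fin.sum_univ_one, smul_eq_C_mul]
        ring
      clear h3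
      refine Submodule.mul_induction_on (piece_add_le _ _ hg) (fun x' hx' g' hg' => ?_) ?_
      · obtain ⟨γ, hγ⟩ := r2 x' hx'
        refine ⟨_, Submodule.subset_span ⟨fun κ => γ κ • ⟨g', hg'⟩, rfl⟩, ?_⟩
        convert hγ _ (mul_mem_piece (hz 0) hg') using 1
        simp only [m, Fin.sum_univ_two, Submodule.coe_smul, smul_eq_C_mul]
        ring
      · rintro g₁ g₂ ⟨u, h4, h5⟩ ⟨v, h6, h7⟩
        exact ⟨u + v, add_mem h4 h6, by convert add_mem h5 h7 using 1; ring⟩
    · rintro g₁ g₂ ⟨u, h4, h5⟩ ⟨v, h6, h7⟩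
      exact ⟨u + v, add_mem h4 h6, by convert add_mem h5 h7 using 1; ring⟩
  obtain ⟨j, hj⟩ := exists_indep h1 hm hs
  have hm' (s) : RegP p (e + (e' + c)) fun _ => m (j s) := .const (hm _)
  have key (w : Fin 2 → Cx k n r) (hw : ∀ κ, w κ ∈ piece k n r (e + c)) :
      ∃ g ∈ piece k n r (c + (e + c)), w 0 * w 1 - z 0 * g ∈ p.I.1 := by
    choose A hA hA' using fun κ => solve (F := fun _ => w κ * y κ) h1 hm' hj (.const (by
      have := mul_mem_piece (hw κ) (hy κ)
      rwa [add_assoc, add_comm c] at this))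
    let V (κ κ' : Fin 2) (q : Pr k n d r) : Cx k n r := ∑ s, A κ s q • (j s κ').1
    have hV (κ κ') : RegP p c (V κ κ') := RegP.sum _ fun s => (RegP.const (j s κ').2).smul (hA κ s)
    have hzV (κ κ') := (RegP.const (hz 0)).mul (hV κ κ')
    have hF := ((((RegP.const (hw 0)).sub (hzV 0 0)).mul ((RegP.const (hw 1)).sub (hzV 1 1))).sub
      ((hzV 0 1).mul (hzV 1 0))).ev_notMem h2
    refine ⟨V 0 0 p * w 1 + V 1 1 p * w 0 - V 0 0 p * (z 0 * V 1 1 p) + V 0 1 p * (z 0 * V 1 0 p),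
      add_mem (sub_mem (add_mem (mul_mem_piece ((hV _ _).mem p) (hw 1))
        (mul_mem_piece ((hV _ _).mem p) (hw 0))) (mul_mem_piece ((hV _ _).mem p) ((hzV _ _).mem p)))
        (mul_mem_piece ((hV _ _).mem p) ((hzV _ _).mem p)), ?_⟩
    by_contra H
    obtain ⟨q, ⟨Γ, -, hΓ, hq⟩, h3, h4, h5⟩ := ((freq_of_closure hp).and_eventually
      ((hF fun h => H (by convert h using 1; ring)).and ((eventually_all.mpr hA').and
        (ev_indep h1 hm' hj)))).exists
    refine h3 ((hq _ _ (((((RegP.const (hw 0)).sub (hzV 0 0)).mul ((RegP.const (hw 1)).sub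
      (hzV 1 1))).sub ((hzV 0 1).mul (hzV 1 0))).mem q)).mpr fun x hx => ?_)
    have h6 (κ) : eval x (w κ) * eval x (y κ) =
        eval x (z 0) * (eval x (y 0) * eval x (V κ 0 q) + eval x (y 1) * eval x (V κ 1 q)) := by
      have h7 := (hq (e + (e' + c)) _ (sub_mem (by
        have := mul_mem_piece (hw κ) (hy κ)
        rwa [add_assoc, add_comm c] at this) (sum_mem fun s _ =>
          Submodule.smul_mem _ _ (hm _)))).mp (h4 κ) x hx
      rw [map_sub, sub_eq_zero, map_mul] at h7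
      rw [h7]
      simp only [m, V, map_sum, smul_eval, map_mul, Fin.sum_univ_two, map_add, Finset.mul_sum,
        ← Finset.sum_add_distrib]
      exact Finset.sum_congr rfl fun s _ => by ring
    have h7 : eval x (y 0) ≠ 0 ∨ eval x (y 1) ≠ 0 := by
      by_contra H
      push Not at H
      obtain ⟨f, hf, h8⟩ := exists_eval_ne (hΓ x hx) (e + (e' + c))
      obtain ⟨g, hg, h9⟩ := h5.sur h1 (fun s => hm _) f hf
      obtain ⟨c', rfl⟩ := (Submodule.mem_span_range_iff_exists_fun k).mp hg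
      have := (hq _ _ (sub_mem hf (sum_mem fun s _ => Submodule.smul_mem _ _ (hm _)))).mp h9 x hx
      simp [m, H.1, H.2, h8] at this
    simp only [map_sub, map_mul]
    rcases h7 with h | h
    · refine (mul_eq_zero.mp ?_).resolve_left h
      linear_combination (eval x (w 1) - eval x (z 0) * eval x (V 1 1 q)) * h6 0 +
        eval x (z 0) * eval x (V 0 1 q) * h6 1
    · refine (mul_eq_zero.mp ?_).resolve_left h
      linear_combination (eval x (w 0) - eval x (z 0) * eval x (V 0 0 q)) * h6 1 +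
        eval x (z 0) * eval x (V 1 0 q) * h6 0
  intro f hf
  rw [← add_assoc] at hf
  refine Submodule.mul_induction_on (piece_add_le _ _ hf) (fun w hw w' hw' => ?_) ?_
  · exact key ![w, w'] (Fin.forall_fin_two.mpr ⟨hw, hw'⟩)
  · rintro g₁ g₂ ⟨u, h4, h5⟩ ⟨v, h6, h7⟩
    exact ⟨u + v, add_mem h4 h6, by convert add_mem h5 h7 using 1; ring⟩

lemma ev_not_onto {e' : Fin r → ℕ} {z t f₀ : Cx k n r} (hz : z ∈ piece k n r e')
    (ht : t ∈ piece k n r e') (hf₀ : f₀ ∈ piece k n r b) (h1 : hilbFun n d (e + b) = d)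
    (h2 : hilbFun n d (e' + (e + b)) = d) (h3 : hilbFun n d (d • e' + b) = d)
    (h4 : hilbFun n d (e + (d • e' + b)) = d) (o : Onto p.I.1 z e' (e + b))
    {x : Fin r × Fin (n + 1) → k} (x1 : eval x z = 1) (x2 : eval x f₀ ≠ 0)
    (x3 : ∀ g ∈ piece k n r (e + b), (t - eval x t • z) * g ∈ p.I.1 → g ∈ p.I.1)
    (x4 : ∀ f ∈ piece k n r (d • e' + b), f ∈ p.I.1 → eval x f = 0) :
    ∀ᶠ q in nb p, ∀ w ∈ piece k n r e, ¬ Onto q.I.1 w e (d • e' + b) := by
  obtain ⟨χ, c1, c2, c3⟩ := exists_killer h1 h2 hz ht o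
  have hF := c1.mul (RegP.const hf₀)
  filter_upwards [c2, hF.ev_notMem h3 fun h => mul_ne_zero (c3 x x1 x3) x2
    ((map_mul _ _ _).symm.trans (x4 _ (hF.mem p) h))] with q h5 h6 w hw h7
  refine h6 (h7.inj h3 h4 hw (hF.mem q) ?_)
  rw [mul_left_comm]
  exact h5 0 _ (by simpa using mul_mem_piece hw hf₀)

end Pool.Agent.Lib.MP_07b136_ag
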