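import Mathlib

open MvPolynomial

universe u

namespace Pool.Agent.Lib.MP_07b136_ag

/-- The variable `x_{i,j}` has multidegree `e_i`. -/
def wt (n r : ℕ) : Fin r × Fin (n + 1) → Fin r → ℕ := fun v => Pi.single v.1 1

/-- The graded piece `S_a` of the Cox ring of `(ℙⁿ)^r`. -/
noncomputable def piece (k : Type u) [Field k] (n r : ℕ) (a : Fin r → ℕ) :
    Submodule k (MvPolynomial (Fin r × Fin (n + 1)) k) :=
  weightedHomogeneousSubmodule k (wt n r) a

/-- The Hilbert function of `d` general points of `(ℙⁿ)^r`. -/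
def hilbFun (n d : ℕ) {r : ℕ} (a : Fin r → ℕ) : ℕ := min d (∏ i, (n + a i).choose n)

/-- `I` is multihomogeneous with `dim (S/I)_a = hilbFun a` for all `a`. -/
def IsPt {k : Type u} [Field k] {n r : ℕ} (d : ℕ)
    (I : Ideal (MvPolynomial (Fin r × Fin (n + 1)) k)) : Prop :=
  (∀ f ∈ I, ∀ a, weightedHomogeneousComponent (wt n r) a f ∈ I) ∧
    ∀ a, Module.finrank k
      (piece k n r a ⧸ (I.restrictScalars k).comap (piece k n r a).subtype) = hilbFun n d a

/-- The `k`-points of the multigraded Hilbert scheme. -/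
def Hilb (k : Type u) [Field k] (n d r : ℕ) : Type u :=
  {I : Ideal (MvPolynomial (Fin r × Fin (n + 1)) k) // IsPt d I}

/-- Families of linear maps `φ_a : S_a → k ^ hilbFun a`. -/
abbrev Fr (k : Type u) [Field k] (n d r : ℕ) : Type u :=
  ∀ a, piece k n r a →ₗ[k] Fin (hilbFun n d a) → k

/-- The family `φ` has kernels `I_a`. -/
def IsFr {k : Type u} [Field k] {n d r : ℕ} (I : Ideal (MvPolynomial (Fin r × Fin (n + 1)) k))
    (φ : Fr k n d r) : Prop :=
  ∀ a f, φ a f = 0 ↔ f.1 ∈ I

/-- The matrix entries, as functions of `φ`. -/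
def entries (k : Type u) [Field k] (n d r : ℕ) : Set (Fr k n d r → k) :=
  {g | ∃ a f i, g = fun φ => φ a f i}

/-- The Zariski topology, induced from the product of the Grassmannians of quotients of the
`S_a`: a basic open set consists of the `I` such that a given polynomial `G` in the matrix entries
does not vanish at some family of linear maps `φ_a : S_a → k ^ hilbFun a` with kernels `I_a`. -/
@[reducible] def zariski (k : Type u) [Field k] (n d r : ℕ) : TopologicalSpace (Hilb k n d r) :=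
  .generateFrom {U | ∃ G ∈ Algebra.adjoin k (entries k n d r),
    U = {I | ∃ φ, IsFr I.1 φ ∧ G φ ≠ 0}}

/-- The closure of the set of ideals of finite sets of points of `(ℙⁿ)^r`. -/
def slip (k : Type u) [Field k] (n d r : ℕ) : Set (Hilb k n d r) :=
  @closure _ (zariski k n d r) {I | ∃ Γ : Set (Fin r × Fin (n + 1) → k), Γ.Finite ∧
    (∀ q ∈ Γ, ∀ i, ∃ j, q (i, j) ≠ 0) ∧
    ∀ a, ∀ f ∈ piece k n r a, f ∈ I.1 ↔ ∀ q ∈ Γ, eval q f = 0}

end Pool.Agent.Lib.MP_07b136_ag
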