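import Mathlib

open Matrix Kronecker

namespace Pool.Agent.Lib.MP_07b136_ag

section ring

variable {R R' : Type*} [CommRing R] [CommRing R']

/-- determinant of three vectors -/
def d3 (u v w : Fin 3 → R) : R :=
  u 0 * (v 1 * w 2 - v 2 * w 1) - u 1 * (v 0 * w 2 - v 2 * w 0) + u 2 * (v 0 * w 1 - v 1 * w 0)

/-- signed maximal minors -/
def minors (C : Fin 4 → Fin 3 → R) : Fin 4 → R :=
  ![d3 (C 1) (C 2) (C 3), -d3 (C 0) (C 2) (C 3), d3 (C 0) (C 1) (C 3), -d3 (C 0) (C 1) (C 2)]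

/-- divided difference of a cubic evaluated at `Y ⊗ 1`, `1 ⊗ Y` -/
def divDiff (Y : Matrix (Fin 3) (Fin 3) R) (g₁ g₂ g₃ : R) :
    Matrix (Fin 3 × Fin 3) (Fin 3 × Fin 3) R :=
  g₁ • 1 + g₂ • (Y ⊗ₖ 1 + 1 ⊗ₖ Y) + g₃ • ((Y * Y) ⊗ₖ 1 + Y ⊗ₖ Y + 1 ⊗ₖ (Y * Y))

/-- the open condition -/
def cond (M₀ M₁ N₁ M₃ : Matrix (Fin 3) (Fin 3) R) (C : Fin 4 → Fin 3 → R) : R :=
  M₀.det * M₁.det * M₃.det *
    (divDiff (N₁ * M₁.adjugate) (M₁.det ^ 2 * minors C 1) (M₁.det * minors C 2) (minors C 3)).det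

lemma map_d3 (g : R →+* R') (u v w : Fin 3 → R) :
    g (d3 u v w) = d3 (fun i => g (u i)) (fun i => g (v i)) fun i => g (w i) := by
  simp [d3]

lemma map_minors (g : R →+* R') (C : Fin 4 → Fin 3 → R) (j : Fin 4) :
    g (minors C j) = minors (fun j i => g (C j i)) j := by
  fin_cases j <;> simp [minors, map_d3]

lemma map_divDiff (g : R →+* R') (Y : Matrix (Fin 3) (Fin 3) R) (g₁ g₂ g₃ : R) :
    g.mapMatrix (divDiff Y g₁ g₂ g₃) = divDiff (g.mapMatrix Y) (g g₁) (g g₂) (g g₃) := by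
  ext ⟨i, j⟩ ⟨i', j'⟩
  simp [divDiff, Matrix.one_apply, Matrix.mul_apply, apply_ite g]

lemma map_cond (g : R →+* R') (M₀ M₁ N₁ M₃ : Matrix (Fin 3) (Fin 3) R) (C : Fin 4 → Fin 3 → R) :
    g (cond M₀ M₁ N₁ M₃ C) = cond (g.mapMatrix M₀) (g.mapMatrix M₁) (g.mapMatrix N₁)
      (g.mapMatrix M₃) fun j i => g (C j i) := by
  simp only [cond, map_mul, RingHom.map_det, map_divDiff, map_pow, map_minors,
    RingHom.map_adjugate]

lemma sum_minors (C : Fin 4 → Fin 3 → R) : ∑ j, minors C j • C j = 0 := by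
  ext i
  fin_cases i <;> simp [minors, d3, Fin.sum_univ_four] <;> ring

lemma d3_eq_det (u v w : Fin 3 → R) : d3 u v w = (Matrix.of ![u, v, w]).det := by
  simp [d3, Matrix.det_fin_three]; ring

lemma d3_mulVec (g : Matrix (Fin 3) (Fin 3) R) (u v w : Fin 3 → R) :
    d3 (g *ᵥ u) (g *ᵥ v) (g *ᵥ w) = g.det * d3 u v w := by
  simp [d3, Matrix.det_fin_three, Matrix.mulVec, dotProduct, Fin.sum_univ_three]; ring

lemma d3_rot (u v w : Fin 3 → R) : d3 u v w = d3 v w u := by simp [d3]; ring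

lemma d3_eq_zero_of_span {ι : Type*} (γ : ι → Fin 3 → R) (v w : Fin 3 → R)
    (h : ∀ a, d3 (γ a) v w = 0) {u : Fin 3 → R} (hu : u ∈ Submodule.span R (Set.range γ)) :
    d3 u v w = 0 := by
  induction hu using Submodule.span_induction with
  | mem x hx => obtain ⟨a, rfl⟩ := hx; exact h a
  | zero => simp [d3]
  | add x y _ _ hx hy => simp only [d3, Pi.add_apply] at hx hy ⊢; linear_combination hx + hy
  | smul c x _ hx => simp only [d3, Pi.smul_apply, smul_eq_mul] at hx ⊢; linear_combination c * hx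

/-- first affine coordinate of a point of the plane -/
def al (X Z : Fin 3 → R) : R := Z 2 * (X 1 * Z 0 - X 0 * Z 1)

/-- second affine coordinate of a point of the plane -/
def be (X Z : Fin 3 → R) : R := Z 1 * (X 2 * Z 0 - X 0 * Z 2)

lemma d3_good (Xe Ze Xy Zy Zl : Fin 3 → R) :
    d3 (Zl * (Ze * Zy)) (Zl * (Xe * Zy)) (Zl * (Ze * Xy)) =
      (Zl 0 * Zl 1 * Zl 2) * (al Xe Ze * be Xy Zy - be Xe Ze * al Xy Zy) := by
  simp [d3, al, be]; ring

lemma d3_bad (Xe Ze Zy Xl Zl : Fin 3 → R) :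
    d3 (Zl * (Ze * Zy)) (Zl * (Xe * Zy)) (Xl * (Ze * Zy)) =
      (Zy 0 * Zy 1 * Zy 2) * (al Xe Ze * be Xl Zl - be Xe Ze * al Xl Zl) := by
  simp [d3, al, be]; ring

end ring

variable {k : Type*} [Field k]

lemma scalar_of_divDiff (Y : Matrix (Fin 3) (Fin 3) k) (g₀ g₁ g₂ g₃ : k)
    (h : g₀ • (1 : Matrix (Fin 3) (Fin 3) k) + g₁ • Y + g₂ • (Y * Y) + g₃ • (Y * Y * Y) = 0)
    (hE : (divDiff Y g₁ g₂ g₃).det ≠ 0) : Y = Y 0 0 • 1 := by
  have h1 : (Y ⊗ₖ (1 : Matrix (Fin 3) (Fin 3) k) - (1 : Matrix (Fin 3) (Fin 3) k) ⊗ₖ Y) *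
      divDiff Y g₁ g₂ g₃ = 0 := by
    have e1 := congr($h ⊗ₖ (1 : Matrix (Fin 3) (Fin 3) k))
    have e2 := congr((1 : Matrix (Fin 3) (Fin 3) k) ⊗ₖ $h)
    simp only [add_kronecker, kronecker_add, smul_kronecker, kronecker_smul, zero_kronecker,
      kronecker_zero] at e1 e2
    simp only [divDiff, mul_add, sub_mul, Matrix.mul_smul, ← mul_kronecker_mul, Matrix.mul_one,
      Matrix.one_mul, ← Matrix.mul_assoc]
    linear_combination (norm := module) e1 - e2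
  have h2 := sub_eq_zero.mp ((Matrix.isUnit_iff_isUnit_det _).mpr (Ne.isUnit hE) |>.mul_left_eq_zero.mp h1)
  ext i j
  have h3 := congr($h2 (i, 0) (j, 0))
  simpa [Matrix.one_apply, mul_comm] using h3

lemma exists_scalar {S : Type*} [CommRing S] [Algebra k S] (I : Ideal S) (x z : S)
    (w : Fin 3 → S) (Φ₀ Φ₁ Φ₃ Φ' : S →ₗ[k] Fin 3 → k) (P₀ P₁ P₃ P' : Submodule k S)
    (h₀ : ∀ f ∈ P₀, Φ₀ f = 0 → f ∈ I) (h₁ : ∀ f ∈ P₁, Φ₁ f = 0 → f ∈ I)
    (h₃ : ∀ f ∈ P₃, f ∈ I → Φ₃ f = 0) (h' : ∀ f ∈ P', Φ' f = 0 → f ∈ I)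
    (hw : ∀ s, w s ∈ P₀) (hz : ∀ s, z * w s ∈ P₁) (hx : ∀ s, x * w s ∈ P₁)
    (hz₃ : ∀ s, z ^ 3 * w s ∈ P₃) (hm : ∀ j, ![z ^ 3, x * z ^ 2, x ^ 2 * z, x ^ 3] j ∈ P')
    (hc : cond (Matrix.of fun s => Φ₀ (w s)) (Matrix.of fun s => Φ₁ (z * w s))
      (Matrix.of fun s => Φ₁ (x * w s)) (Matrix.of fun s => Φ₃ (z ^ 3 * w s))
      (fun j => Φ' (![z ^ 3, x * z ^ 2, x ^ 2 * z, x ^ 3] j)) ≠ 0) :
    ∃ ρ : k, ∀ f ∈ P₀, x * f - ρ • (z * f) ∈ I := by
  set M₀ := Matrix.of fun s => Φ₀ (w s) with hM₀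
  set M₁ := Matrix.of fun s => Φ₁ (z * w s) with hM₁
  set N₁ := Matrix.of fun s => Φ₁ (x * w s) with hN₁
  set M₃ := Matrix.of fun s => Φ₃ (z ^ 3 * w s) with hM₃
  set C := fun j => Φ' (![z ^ 3, x * z ^ 2, x ^ 2 * z, x ^ 3] j) with hC
  simp only [cond, mul_ne_zero_iff] at hc
  obtain ⟨⟨⟨c₀, c₁⟩, c₃⟩, cE⟩ := hc
  set Y := N₁ * M₁.adjugate with hY
  set m := M₁.det with hmm
  let π := Ideal.Quotient.mkₐ k I
  have hπ (f : S) : π f = 0 ↔ f ∈ I := Ideal.Quotient.eq_zero_iff_mem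
  have e1 (s : Fin 3) : m • (π x * π (w s)) = π z * ∑ t, Y s t • π (w t) := by
    have h1 : Y * M₁ = m • N₁ := by
      rw [hY, Matrix.mul_assoc, Matrix.adjugate_mul, Matrix.mul_smul, Matrix.mul_one]
    have h2 := h₁ (m • (x * w s) - ∑ t, Y s t • (z * w t))
      (sub_mem (P₁.smul_mem _ (hx s)) (sum_mem fun t _ => P₁.smul_mem _ (hz t))) (by
        ext i
        have := congr($h1 s i)
        simp only [Matrix.mul_apply, hM₁, hN₁, of_apply, Matrix.smul_apply] at this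
        simp only [map_sub, map_smul, map_sum, Pi.sub_apply, Pi.smul_apply, Finset.sum_apply,
          smul_eq_mul, Pi.zero_apply, this, sub_self])
    rw [← hπ, map_sub, sub_eq_zero] at h2
    simpa [Finset.mul_sum] using h2
  have step (A : Matrix (Fin 3) (Fin 3) k) (s : Fin 3) :
      m • (π x * ∑ t, A s t • π (w t)) = π z * ∑ t, (A * Y) s t • π (w t) := by
    simp only [Finset.mul_sum, Finset.smul_sum, mul_smul_comm, smul_comm m, e1, Matrix.mul_apply,
      Finset.sum_smul, mul_smul]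
    rw [Finset.sum_comm]
  have hF : minors C 0 • π z ^ 3 + minors C 1 • (π x * π z ^ 2) + minors C 2 • (π x ^ 2 * π z) +
      minors C 3 • π x ^ 3 = 0 := by
    have h2 := h' (∑ j, minors C j • ![z ^ 3, x * z ^ 2, x ^ 2 * z, x ^ 3] j)
      (sum_mem fun j _ => P'.smul_mem _ (hm j)) (by
        simp only [map_sum, map_smul]; exact sum_minors C)
    rw [← hπ] at h2
    simpa [Fin.sum_univ_four] using h2
  set G := (m ^ 3 * minors C 0) • (1 : Matrix (Fin 3) (Fin 3) k) + (m ^ 2 * minors C 1) • Y +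
    (m * minors C 2) • (Y * Y) + minors C 3 • (Y * Y * Y) with hG
  have hG0 : G = 0 := by
    have h1 : G * M₃ = 0 := by
      ext s i
      have a1 := e1 s
      have a2 := step Y s
      have a3 := step (Y * Y) s
      have h2 := h₃ (∑ t, G s t • (z ^ 3 * w t)) (sum_mem fun t _ => P₃.smul_mem _ (hz₃ t)) (by
        rw [← hπ]
        have a4 : π (∑ t, G s t • (z ^ 3 * w t)) = π z ^ 3 * ((m ^ 3 * minors C 0) • π (w s) +
            (m ^ 2 * minors C 1) • ∑ t, Y s t • π (w t) +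
            (m * minors C 2) • ∑ t, (Y * Y) s t • π (w t) +
            minors C 3 • ∑ t, (Y * Y * Y) s t • π (w t)) := by
          simp only [hG, map_add, map_sum, map_smul, map_mul, map_pow, Matrix.add_apply, Matrix.smul_apply,
            smul_eq_mul, add_smul, Finset.sum_add_distrib, mul_add, Finset.mul_sum,
            Finset.smul_sum, mul_smul_comm, mul_smul, Matrix.one_apply, ite_smul, one_smul,
            zero_smul, smul_ite, smul_zero, Finset.sum_ite_eq, Finset.mem_univ, if_true]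
        rw [a4]
        simp only [Algebra.smul_def, map_mul, map_pow] at a1 a2 a3 hF ⊢
        set μ := algebraMap k (S ⧸ I) m
        linear_combination (μ ^ 3 * π (w s)) * hF -
          (algebraMap k (S ⧸ I) (minors C 1) * μ ^ 2 * π z ^ 2 +
            algebraMap k (S ⧸ I) (minors C 2) * μ ^ 2 * π x * π z +
            algebraMap k (S ⧸ I) (minors C 3) * μ ^ 2 * π x ^ 2) * a1 -
          (algebraMap k (S ⧸ I) (minors C 2) * μ * π z ^ 2 +
            algebraMap k (S ⧸ I) (minors C 3) * μ * π x * π z) * a2 -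
          (algebraMap k (S ⧸ I) (minors C 3) * π z ^ 2) * a3)
      have h3 := congr($h2 i)
      simpa [Matrix.mul_apply, hM₃] using h3
    exact ((Matrix.isUnit_iff_isUnit_det _).mpr (Ne.isUnit c₃)).mul_left_eq_zero.mp h1
  have hsc := scalar_of_divDiff Y _ _ _ _ hG0 cE
  refine ⟨m⁻¹ * Y 0 0, fun f hf => ?_⟩
  have e2 (s : Fin 3) : π x * π (w s) = (m⁻¹ * Y 0 0) • (π z * π (w s)) := by
    have := e1 s
    rw [hsc] at this
    simp only [Matrix.smul_apply, Matrix.one_apply, smul_eq_mul, mul_ite, mul_one, mul_zero,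
      ite_smul, zero_smul, Finset.sum_ite_eq, Finset.mem_univ, if_true, mul_smul_comm] at this
    rw [mul_smul, ← this, inv_smul_smul₀ c₁]
  have e3 : π f = ∑ s, (Φ₀ f ᵥ* M₀⁻¹) s • π (w s) := by
    have h2 := h₀ (f - ∑ s, (Φ₀ f ᵥ* M₀⁻¹) s • w s)
      (sub_mem hf (sum_mem fun t _ => P₀.smul_mem _ (hw t))) (by
        have : (Φ₀ f ᵥ* M₀⁻¹) ᵥ* M₀ = Φ₀ f := by
          rw [Matrix.vecMul_vecMul, Matrix.nonsing_inv_mul _ (Ne.isUnit c₀), Matrix.vecMul_one]
        rw [map_sub, sub_eq_zero]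
        refine this.symm.trans ?_
        generalize Φ₀ f ᵥ* M₀⁻¹ = c
        ext i
        simp [Matrix.vecMul, dotProduct, hM₀])
    rw [← hπ, map_sub, sub_eq_zero] at h2
    simpa using h2
  rw [← hπ, map_sub, map_smul, map_mul, map_mul, e3, sub_eq_zero]
  simp only [Finset.mul_sum, mul_smul_comm, e2, Finset.smul_sum, smul_comm (m⁻¹ * Y 0 0)]

lemma exists_d3_ne_zero (γ : Fin 2 × Fin 2 → Fin 3 → k)
    (h : Submodule.span k (Set.range γ) = ⊤) : ∃ s t : k,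
      d3 (γ (1, 1) + s • γ (0, 1) + t • γ (1, 0) + (s * t) • γ (0, 0)) (γ (0, 1) + t • γ (0, 0))
        (γ (1, 0) + s • γ (0, 0)) ≠ 0 := by
  by_contra H
  push Not at H
  have h00 := H 0 0
  have h10 := H 1 0
  have h01 := H 0 1
  have h11 := H 1 1
  have h1 (a b c) : d3 (γ a) (γ b) (γ c) = 0 := by
    simp only [d3, Pi.add_apply, Pi.smul_apply, smul_eq_mul] at h00 h10 h01 h11 ⊢
    obtain ⟨a, a'⟩ := a
    obtain ⟨b, b'⟩ := b
    obtain ⟨c, c'⟩ := c
    fin_cases a <;> fin_cases a' <;> fin_cases b <;> fin_cases b' <;> fin_cases c <;>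
      fin_cases c' <;> simp only [Fin.zero_eta, Fin.mk_one, Fin.isValue] <;>
      first
      | ring1
      | linear_combination h00
      | linear_combination -h00
      | linear_combination h10 - h00
      | linear_combination h00 - h10
      | linear_combination h01 - h00
      | linear_combination h00 - h01
      | linear_combination h11 - h10 - h01 + h00
      | linear_combination -h11 + h10 + h01 - h00
  have hm (u : Fin 3 → k) : u ∈ Submodule.span k (Set.range γ) := h ▸ trivial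
  have h2 (u b c) : d3 (γ b) (γ c) u = 0 := by
    rw [← d3_rot]; exact d3_eq_zero_of_span γ _ _ (fun a => h1 a b c) (hm u)
  have h3 (u v c) : d3 (γ c) u v = 0 := by
    rw [← d3_rot]; exact d3_eq_zero_of_span γ _ _ (fun a => h2 u a c) (hm v)
  have h4 := d3_eq_zero_of_span γ ![0, 1, 0] ![0, 0, 1] (fun a => h3 _ _ a) (hm ![1, 0, 0])
  simp [d3] at h4

lemma exists_span_eq_top [Infinite k] {ι : Type*} (α β : ι → Fin 3 → k)
    (hstar : ∀ a b i j, α a i * β b j = β a i * α b j)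
    (h : Submodule.span k (Set.range α ∪ Set.range β) = ⊤) :
    ∃ s : k, Submodule.span k (Set.range fun a => β a + s • α a) = ⊤ := by
  by_cases hβ : ∀ b j, β b j = 0
  · refine ⟨1, ?_⟩
    rw [eq_top_iff, ← h, Submodule.span_le]
    rintro _ (⟨a, rfl⟩ | ⟨a, rfl⟩)
    · exact Submodule.subset_span ⟨a, by ext i; simp [hβ]⟩
    · rw [show β a = 0 from funext (hβ a)]; exact zero_mem _
  · push Not at hβ
    obtain ⟨b, j, hb⟩ := hβ
    refine ⟨0, ?_⟩
    rw [eq_top_iff, ← h, Submodule.span_le]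
    rintro _ (⟨a, rfl⟩ | ⟨a, rfl⟩)
    · have : α a = (α b j / β b j) • (β a + (0 : k) • α a) := by
        ext i
        simp only [zero_smul, add_zero, Pi.smul_apply, smul_eq_mul]
        field_simp
        linear_combination hstar a b i j
      rw [this]
      exact Submodule.smul_mem _ _ (Submodule.subset_span ⟨a, rfl⟩)
    · exact Submodule.subset_span ⟨a, by simp⟩

lemma exists_common_ne_zero [Infinite k] {σ ι : Type*} [Fintype ι] (P : ι → MvPolynomial σ k)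
    (h : ∀ i, ∃ s, MvPolynomial.eval s (P i) ≠ 0) : ∃ s, ∀ i, MvPolynomial.eval s (P i) ≠ 0 := by
  have h1 : ∏ i, P i ≠ 0 := Finset.prod_ne_zero_iff.mpr fun i _ h0 => by
    obtain ⟨s, hs⟩ := h i
    simp [h0] at hs
  by_contra H
  push Not at H
  apply h1
  refine MvPolynomial.funext fun s => ?_
  obtain ⟨i, hi⟩ := H s
  rw [map_prod, map_zero]
  exact Finset.prod_eq_zero (Finset.mem_univ i) hi

lemma exists_mulVec_of_ker_le {V : Type*} [AddCommGroup V] [Module k V] (P : Submodule k V)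
    (Φ Ψ : V →ₗ[k] Fin 3 → k) (h : ∀ f ∈ P, Ψ f = 0 → Φ f = 0) :
    ∃ g : Matrix (Fin 3) (Fin 3) k, ∀ f ∈ P, Φ f = g *ᵥ Ψ f := by
  let Ψ' := Ψ.domRestrict P
  obtain ⟨g, hg⟩ := LinearMap.exists_extend
    (((LinearMap.ker Ψ').liftQ (Φ.domRestrict P) fun f hf => h f f.2 hf).comp
      Ψ'.quotKerEquivRange.symm.toLinearMap)
  refine ⟨LinearMap.toMatrix' g, fun f hf => ?_⟩
  have := congr($hg ⟨Ψ' ⟨f, hf⟩, ⟨_, rfl⟩⟩)
  simp only [LinearMap.coe_comp, Submodule.coe_subtype, Function.comp_apply, LinearEquiv.coe_coe,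
    LinearMap.quotKerEquivRange_symm_apply_image, Submodule.mkQ_apply, Submodule.liftQ_apply]
    at this
  rw [← Matrix.toLin'_apply, Matrix.toLin'_toMatrix']
  exact this.symm

lemma exists_points {V Γ : Type*} [AddCommGroup V] [Module k V] [Nonempty Γ]
    (ev : Γ → V →ₗ[k] k) (hev : ∀ v, (∀ q, ev q v = 0) → v = 0) (m : ℕ) (N : Submodule k V)
    [Module.Finite k N] (hN : Module.finrank k N ≤ m) :
    ∃ q : Fin m → Γ, ∀ v ∈ N, (∀ s, ev (q s) v = 0) → v = 0 := by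
  induction m generalizing N with
  | zero =>
    refine ⟨Fin.elim0, fun v hv _ => ?_⟩
    rwa [Submodule.finrank_eq_zero.mp (Nat.le_zero.mp hN)] at hv
  | succ m ih =>
    by_cases h0 : ∀ v ∈ N, v = 0
    · exact ⟨fun _ => Classical.arbitrary Γ, fun v hv _ => h0 v hv⟩
    push Not at h0
    obtain ⟨v₀, hv₀, h0⟩ := h0
    obtain ⟨q₀, hq₀⟩ : ∃ q, ev q v₀ ≠ 0 := by
      by_contra H
      push Not at H
      exact h0 (hev _ H)
    have hlt : N ⊓ LinearMap.ker (ev q₀) < N :=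
      lt_of_le_of_ne inf_le_left fun e => hq₀ (e.ge hv₀).2
    have : Module.Finite k ↥(N ⊓ LinearMap.ker (ev q₀)) := Submodule.finiteDimensional_of_le hlt.le
    obtain ⟨q, hq⟩ := ih (N ⊓ LinearMap.ker (ev q₀))
      (by have := Submodule.finrank_lt_finrank_of_lt hlt; omega)
    exact ⟨Fin.cons q₀ q, fun v hv h => hq v ⟨hv, h 0⟩ fun s => h s.succ⟩

end Pool.Agent.Lib.MP_07b136_ag
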