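import Pool.Agent.Lib.MP_07b136_ag.Defs
import Pool.Agent.Lib.MP_07b136_ag.Lin

open MvPolynomial

universe u

namespace Pool.Agent.Lib.MP_07b136_ag

variable {k : Type u} [Field k] {n d r : ℕ}

lemma X_mem (i : Fin r) (j : Fin (n + 1)) : X (i, j) ∈ piece k n r (Pi.single i 1) :=
  isWeightedHomogeneous_X k (wt n r) (i, j)

lemma mul_mem_piece {a b : Fin r → ℕ} {f g : MvPolynomial (Fin r × Fin (n + 1)) k}
    (hf : f ∈ piece k n r a) (hg : g ∈ piece k n r b) : f * g ∈ piece k n r (a + b) :=
  IsWeightedHomogeneous.mul hf hg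

lemma pow_mem_piece {a : Fin r → ℕ} {f : MvPolynomial (Fin r × Fin (n + 1)) k}
    (hf : f ∈ piece k n r a) (m : ℕ) : f ^ m ∈ piece k n r (m • a) :=
  IsWeightedHomogeneous.pow hf m

lemma weight_apply (m : Fin r × Fin (n + 1) →₀ ℕ) (i : Fin r) :
    Finsupp.weight (wt n r) m i = ∑ j, m (i, j) := by
  rw [Finsupp.weight_apply, Finsupp.sum_fintype _ _ (by simp), Finset.sum_apply,
    Fintype.sum_prod_type, Finset.sum_eq_single i]
  · simp [wt]
  · intro i' _ hi
    simp [wt, Pi.single_eq_of_ne' hi]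
  · simp

lemma exists_decomp {l : Fin r} {b : Fin r → ℕ} {f : MvPolynomial (Fin r × Fin (n + 1)) k}
    (hf : f ∈ piece k n r (Pi.single l 1 + b)) :
    ∃ u : Fin (n + 1) → MvPolynomial (Fin r × Fin (n + 1)) k, (∀ j, u j ∈ piece k n r b) ∧
      f = ∑ j, X (l, j) * u j := by
  induction hf using IsWeightedHomogeneous.induction_on with
  | zero => exact ⟨0, fun _ => zero_mem _, by simp⟩
  | add p q _ _ hp hq =>
    obtain ⟨u, hu, rfl⟩ := hp
    obtain ⟨v, hv, rfl⟩ := hq
    exact ⟨u + v, fun j => add_mem (hu j) (hv j), by simp [mul_add, Finset.sum_add_distrib]⟩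
  | monomial m c hm =>
    obtain ⟨j, hj⟩ : ∃ j, m (l, j) ≠ 0 := by
      by_contra H
      push Not at H
      have := congr($hm l)
      rw [weight_apply] at this
      simp [H] at this
      omega
    have h1 : m = Finsupp.single (l, j) 1 + (m - Finsupp.single (l, j) 1) :=
      (add_tsub_cancel_of_le (Finsupp.single_le_iff.mpr (Nat.one_le_iff_ne_zero.mpr hj))).symm
    refine ⟨Pi.single j (monomial (m - Finsupp.single (l, j) 1) c), fun j' => ?_, ?_⟩
    · by_cases h : j' = j
      · subst h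
        rw [Pi.single_eq_same]
        refine isWeightedHomogeneous_monomial _ _ _ ?_
        rw [h1, map_add, Finsupp.weight_single, one_smul] at hm
        exact add_left_cancel hm
      · rw [Pi.single_eq_of_ne h]; exact zero_mem _
    · rw [Finset.sum_eq_single j]
      · rw [Pi.single_eq_same, X, monomial_mul, one_mul, ← h1]
      · intro j' _ h
        rw [Pi.single_eq_of_ne h, mul_zero]
      · simp

lemma exists_eq_C {f : MvPolynomial (Fin r × Fin (n + 1)) k} (hf : f ∈ piece k n r 0) :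
    ∃ c, f = C c := by
  induction hf using IsWeightedHomogeneous.induction_on with
  | zero => exact ⟨0, by simp⟩
  | add p q _ _ hp hq =>
    obtain ⟨a, rfl⟩ := hp
    obtain ⟨b, rfl⟩ := hq
    exact ⟨a + b, by simp⟩
  | monomial m c hm =>
    have : m = 0 := by
      ext ⟨i, j⟩
      have := congr($hm i)
      rw [weight_apply] at this
      exact Finset.sum_eq_zero_iff.mp this j (Finset.mem_univ _)
    exact ⟨c, by rw [this]; rfl⟩

lemma eval_congr {b : Fin r → ℕ} {f : MvPolynomial (Fin r × Fin (n + 1)) k}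
    (hf : f ∈ piece k n r b) {q q' : Fin r × Fin (n + 1) → k}
    (h : ∀ i, b i ≠ 0 → ∀ j, q (i, j) = q' (i, j)) : eval q f = eval q' f := by
  induction hf using IsWeightedHomogeneous.induction_on with
  | zero => simp
  | add p q _ _ hp hq => rw [map_add, map_add, hp, hq]
  | monomial m c hm =>
    rw [eval_monomial, eval_monomial]
    congr 1
    refine Finsupp.prod_congr fun ⟨i, j⟩ hv => ?_
    rw [h i]
    rw [← hm, weight_apply]
    intro h0
    exact Finsupp.mem_support_iff.mp hv (Finset.sum_eq_zero_iff.mp h0 j (Finset.mem_univ _))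

lemma comp_X_mul (i : Fin r) (j : Fin (n + 1)) (b : Fin r → ℕ)
    (f : MvPolynomial (Fin r × Fin (n + 1)) k) :
    weightedHomogeneousComponent (wt n r) (Pi.single i 1 + b) (X (i, j) * f) =
      X (i, j) * weightedHomogeneousComponent (wt n r) b f := by
  induction f using MvPolynomial.induction_on' with
  | monomial m c =>
    have h1 := isWeightedHomogeneous_monomial (R := k) (wt n r) m c rfl
    rw [weightedHomogeneousComponent_of_mem (mul_mem_piece (X_mem i j) h1),
      weightedHomogeneousComponent_of_mem h1]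
    simp
  | add p q hp hq => rw [mul_add, map_add, map_add, hp, hq, mul_add]

lemma comp_X_mul_of_zero (i : Fin r) (j : Fin (n + 1)) {a : Fin r → ℕ} (ha : a i = 0)
    (f : MvPolynomial (Fin r × Fin (n + 1)) k) :
    weightedHomogeneousComponent (wt n r) a (X (i, j) * f) = 0 := by
  induction f using MvPolynomial.induction_on' with
  | monomial m c =>
    have h1 := isWeightedHomogeneous_monomial (R := k) (wt n r) m c rfl
    rw [weightedHomogeneousComponent_of_mem (mul_mem_piece (X_mem i j) h1), if_neg]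
    intro e
    have := congr($e i)
    simp [ha] at this
    omega
  | add p q hp hq => rw [mul_add, map_add, hp, hq, add_zero]

lemma exists_single_add {a : Fin r → ℕ} {i : Fin r} (h : a i ≠ 0) :
    ∃ b : Fin r → ℕ, a = Pi.single i 1 + b :=
  ⟨a - Pi.single i 1, by
    ext j
    by_cases hj : j = i
    · subst hj; simp; omega
    · simp [Pi.single_eq_of_ne hj]⟩

/-- The homogeneous ideal of forms vanishing at a family of points depending on the degree. -/
noncomputable def idealOf {ι : Type} (P : (Fin r → ℕ) → ι → Fin r × Fin (n + 1) → k)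
    (hP : ∀ b l s, ∃ s', ∀ i, b i ≠ 0 → ∀ j, P (Pi.single l 1 + b) s (i, j) = P b s' (i, j)) :
    Ideal (MvPolynomial (Fin r × Fin (n + 1)) k) where
  carrier := {f | ∀ a s, eval (P a s) (weightedHomogeneousComponent (wt n r) a f) = 0}
  add_mem' {f g} hf hg a s := by rw [map_add, map_add, hf, hg, add_zero]
  zero_mem' a s := by simp
  smul_mem' g f hf := by
    induction g using MvPolynomial.induction_on with
    | C c =>
      intro a s
      rw [smul_eq_mul, weightedHomogeneousComponent_C_mul, map_mul, hf, mul_zero]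
    | add p q hp hq =>
      intro a s
      rw [add_smul, map_add, map_add, hp, hq, add_zero]
    | mul_X p v hp =>
      intro a s
      obtain ⟨i, j⟩ := v
      rw [smul_eq_mul, mul_comm p, mul_assoc]
      by_cases ha : a i = 0
      · rw [comp_X_mul_of_zero i j ha, map_zero]
      · obtain ⟨b, rfl⟩ := exists_single_add ha
        obtain ⟨s', hs'⟩ := hP b i s
        rw [comp_X_mul, map_mul,
          eval_congr (weightedHomogeneousComponent_mem (wt n r) _ b) hs']
        exact mul_eq_zero_of_right _ (hp b s')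

section

variable {ι : Type} {P : (Fin r → ℕ) → ι → Fin r × Fin (n + 1) → k}
  {hP : ∀ b l s, ∃ s', ∀ i, b i ≠ 0 → ∀ j, P (Pi.single l 1 + b) s (i, j) = P b s' (i, j)}

lemma mem_idealOf {a : Fin r → ℕ} {f : MvPolynomial (Fin r × Fin (n + 1)) k}
    (hf : f ∈ piece k n r a) : f ∈ idealOf P hP ↔ ∀ s, eval (P a s) f = 0 := by
  constructor
  · intro h s
    have := h a s
    rwa [weightedHomogeneousComponent_eq_self hf] at this
  · intro h b s
    rw [weightedHomogeneousComponent_of_mem hf]
    split_ifs with e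
    · subst e; exact h s
    · simp

lemma comp_mem_idealOf (f : MvPolynomial (Fin r × Fin (n + 1)) k) (hf : f ∈ idealOf P hP)
    (a : Fin r → ℕ) : weightedHomogeneousComponent (wt n r) a f ∈ idealOf P hP :=
  (mem_idealOf (weightedHomogeneousComponent_mem _ _ a)).mpr (hf a)

end

/-- polynomial functions in the matrix entries -/
abbrev polyFun (k : Type u) [Field k] (n d r : ℕ) : Subalgebra k (Fr k n d r → k) :=
  Algebra.adjoin k (entries k n d r)

lemma IsFr.ker {I : Ideal (MvPolynomial (Fin r × Fin (n + 1)) k)} {φ : Fr k n d r}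
    (h : IsFr I φ) (a : Fin r → ℕ) :
    (I.restrictScalars k).comap (piece k n r a).subtype = LinearMap.ker (φ a) := by
  ext f
  exact (h a f).symm

lemma IsFr.finrank {I : Ideal (MvPolynomial (Fin r × Fin (n + 1)) k)} {φ : Fr k n d r}
    (h : IsFr I φ) (a : Fin r → ℕ) : Module.finrank k
      (piece k n r a ⧸ (I.restrictScalars k).comap (piece k n r a).subtype) =
      Module.finrank k (LinearMap.range (φ a)) := by
  rw [h.ker, (φ a).quotKerEquivRange.finrank_eq]

lemma IsFr.surjective {I : Hilb k n d r} {φ : Fr k n d r} (h : IsFr I.1 φ) (a : Fin r → ℕ) :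
    Function.Surjective (φ a) := by
  rw [← LinearMap.range_eq_top]
  apply Submodule.eq_top_of_finrank_eq
  rw [← h.finrank, I.2.2, Module.finrank_fin_fun]

lemma hilbFun_pos (hd : 0 < d) (a : Fin r → ℕ) : 0 < hilbFun n d a :=
  lt_min hd (Finset.prod_pos fun _ _ => Nat.choose_pos (Nat.le_add_right _ _))

lemma exists_isFr (hd : 0 < d) (I : Hilb k n d r) : ∃ φ : Fr k n d r, IsFr I.1 φ := by
  have H (a : Fin r → ℕ) : ∃ φ : piece k n r a →ₗ[k] Fin (hilbFun n d a) → k,
      ∀ f, φ f = 0 ↔ f.1 ∈ I.1 := by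
    have h1 := I.2.2 a
    have := Module.finite_of_finrank_pos (h1 ▸ hilbFun_pos hd a)
    let e := LinearEquiv.ofFinrankEq (R := k) _ (Fin (hilbFun n d a) → k)
      (h1.trans (Module.finrank_fin_fun k).symm)
    refine ⟨e.toLinearMap.comp (Submodule.mkQ _), fun f => ?_⟩
    simp
  choose φ hφ using H
  exact ⟨φ, hφ⟩

lemma isOpen_ne {G : Fr k n d r → k} (hG : G ∈ polyFun k n d r) :
    @IsOpen _ (zariski k n d r) {I | ∃ φ, IsFr I.1 φ ∧ G φ ≠ 0} :=
  TopologicalSpace.isOpen_generateFrom_of_mem ⟨G, hG, rfl⟩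

lemma eq_zero_of_mem_closure {G : Fr k n d r → k} (hG : G ∈ polyFun k n d r)
    {A : Set (Hilb k n d r)} (hA : ∀ I ∈ A, ∀ φ, IsFr I.1 φ → G φ = 0) {I : Hilb k n d r}
    (hI : I ∈ @closure _ (zariski k n d r) A) {φ : Fr k n d r} (hφ : IsFr I.1 φ) : G φ = 0 := by
  let _ := zariski k n d r
  by_contra h
  obtain ⟨J, ⟨ψ, hψ, h1⟩, hJ⟩ := mem_closure_iff.mp hI _ (isOpen_ne hG) ⟨φ, hφ, h⟩
  exact h1 (hA J hJ ψ hψ)

/-- the linear map in degree `a`, extended to the polynomial ring -/
noncomputable def ext3 (φ : Fr k n d r) (a : Fin r → ℕ) :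
    MvPolynomial (Fin r × Fin (n + 1)) k →ₗ[k] Fin 3 → k :=
  if h : hilbFun n d a = 3 then
    (LinearMap.funLeft k k (Fin.cast h.symm)).comp ((φ a).comp
      ((weightedHomogeneousComponent (wt n r) a).codRestrict _ fun f =>
        weightedHomogeneousComponent_mem _ f a))
  else 0

lemma ext3_apply (φ : Fr k n d r) {a : Fin r → ℕ} (h : hilbFun n d a = 3)
    {f : MvPolynomial (Fin r × Fin (n + 1)) k} (hf : f ∈ piece k n r a) (i : Fin 3) :
    ext3 φ a f i = φ a ⟨f, hf⟩ (Fin.cast h.symm i) := by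
  rw [ext3, dif_pos h]
  change φ a ⟨_, weightedHomogeneousComponent_mem _ f a⟩ _ = _
  have : (⟨_, weightedHomogeneousComponent_mem _ f a⟩ : piece k n r a) = ⟨f, hf⟩ :=
    Subtype.ext (weightedHomogeneousComponent_eq_self hf)
  rw [this]

lemma ext3_mem (a : Fin r → ℕ) (f : MvPolynomial (Fin r × Fin (n + 1)) k) (i : Fin 3) :
    (fun φ : Fr k n d r => ext3 φ a f i) ∈ polyFun k n d r := by
  by_cases h : hilbFun n d a = 3
  · refine Algebra.subset_adjoin ⟨a, ⟨_, weightedHomogeneousComponent_mem _ f a⟩,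
      Fin.cast h.symm i, funext fun φ => ?_⟩
    rw [ext3, dif_pos h]
    rfl
  · simp only [ext3, dif_neg h]
    exact zero_mem _

lemma IsFr.ext3_eq_zero {I : Ideal (MvPolynomial (Fin r × Fin (n + 1)) k)} {φ : Fr k n d r}
    (hφ : IsFr I φ) {a : Fin r → ℕ} (h : hilbFun n d a = 3)
    {f : MvPolynomial (Fin r × Fin (n + 1)) k} (hf : f ∈ piece k n r a) :
    ext3 φ a f = 0 ↔ f ∈ I := by
  rw [← hφ a ⟨f, hf⟩]
  constructor
  · intro h0
    ext i
    have := congr($h0 (Fin.cast h i))
    rwa [ext3_apply φ h hf] at this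
  · intro h0
    ext i
    rw [ext3_apply φ h hf, h0]
    rfl

lemma IsFr.ext3_surj {I : Hilb k n d r} {φ : Fr k n d r} (hφ : IsFr I.1 φ) {a : Fin r → ℕ}
    (h : hilbFun n d a = 3) (v : Fin 3 → k) : ∃ f ∈ piece k n r a, ext3 φ a f = v := by
  obtain ⟨f, hf⟩ := hφ.surjective a fun i => v (Fin.cast h i)
  refine ⟨f.1, f.2, funext fun i => ?_⟩
  rw [ext3_apply φ h f.2, Subtype.coe_eta, hf]
  rfl

end Pool.Agent.Lib.MP_07b136_ag
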