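import Pool.Agent.Lib.MP_07b136_ag.Triple

open MvPolynomial

universe u

namespace Pool.Agent.Lib.MP_07b136_ag

/-- priority list of pairs of factors -/
def pairs : List (Fin 6 × Fin 6) :=
  [(4, 5), (0, 4), (1, 5), (0, 1), (1, 4), (1, 2), (3, 4), (2, 4), (0, 5), (0, 3), (0, 2), (2, 5),
    (2, 3), (1, 3), (3, 5), (0, 0), (1, 1), (2, 2), (3, 3), (4, 4), (5, 5)]

/-- the first pair contained in a set of factors -/
def ch (T : Fin 6 → Bool) : Fin 6 × Fin 6 := (pairs.find? fun p => T p.1 && T p.2).getD (0, 0)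

/-- label of the `i`-th coordinate of the `s`-th point -/
def lab (c : Fin 6 × Fin 6) (s : Fin 3) (i : Fin 6) : Fin 3 :=
  if s = 0 then 0 else if s = 1 then (if i = c.1 then 1 else 0)
  else if i = c.2 then (if c.1 = c.2 then 2 else 1) else 0

lemma ch_heritage : ∀ (T : Fin 6 → Bool) (l : Fin 6) (s : Fin 3), ∃ s' : Fin 3, ∀ i, T i = true →
    lab (ch fun j => decide (j = l) || T j) s i = lab (ch T) s' i := by decide +kernel

lemma ch_mem : ∀ (T : Fin 6 → Bool) (i : Fin 6), T i = true →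
    T (ch T).1 = true ∧ T (ch T).2 = true := by decide +kernel

lemma ch_ne : ∀ (T : Fin 6 → Bool) (i j : Fin 6), i ≠ j → T i = true → T j = true →
    (ch T).1 ≠ (ch T).2 := by decide +kernel

/-- support of a degree -/
def sup (a : Fin 6 → ℕ) : Fin 6 → Bool := fun i => decide (a i ≠ 0)

variable {k : Type u} [Field k] (τ : k)

/-- the three points attached to a pair -/
def ptc (c : Fin 6 × Fin 6) (s : Fin 3) : Fin 6 × Fin (1 + 1) → k :=
  fun v => if v.2 = 0 then ![0, 1, τ] (lab c s v.1) else 1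

/-- the three points attached to a degree -/
def pts (a : Fin 6 → ℕ) : Fin 3 → Fin 6 × Fin (1 + 1) → k := ptc τ (ch (sup a))

lemma pts_heritage (b : Fin 6 → ℕ) (l : Fin 6) (s : Fin 3) : ∃ s', ∀ i, b i ≠ 0 → ∀ j,
    pts τ (Pi.single l 1 + b) s (i, j) = pts τ b s' (i, j) := by
  obtain ⟨s', hs'⟩ := ch_heritage (sup b) l s
  refine ⟨s', fun i hi j => ?_⟩
  have : sup (Pi.single l 1 + b) = fun j => decide (j = l) || sup b j := by
    funext j
    by_cases h : j = l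
    · subst h; simp [sup]
    · simp [sup, h]
  simp only [pts, ptc, this, hs' i (by simpa [sup] using hi)]

lemma hilbFun_le (a : Fin 6 → ℕ) : hilbFun 1 3 a ≤ 3 := min_le_left _ _

/-- evaluation at the points -/
noncomputable def frP : Fr k 1 3 6 := fun a =>
  LinearMap.pi fun s => (aeval (pts τ a (Fin.castLE (hilbFun_le a) s))).toLinearMap.comp
    (Submodule.subtype _)

lemma cases_deg (a : Fin 6 → ℕ) : a = 0 ∨ (∃ i, a = Pi.single i 1) ∨ hilbFun 1 3 a = 3 := by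
  by_cases h0 : a = 0
  · exact Or.inl h0
  obtain ⟨i, hi⟩ : ∃ i, a i ≠ 0 := Function.ne_iff.mp h0
  by_cases h1 : ∃ j, j ≠ i ∧ a j ≠ 0
  · obtain ⟨j, hj, hj'⟩ := h1
    exact Or.inr (Or.inr (hilbFun_of_two hj hj' hi))
  by_cases h2 : 2 ≤ a i
  · exact Or.inr (Or.inr (hilbFun_of_le h2))
  push Not at h1
  refine Or.inr (Or.inl ⟨i, funext fun j => ?_⟩)
  by_cases h : j = i
  · subst h; simp; omega
  · simp [h, h1 j h]

lemma hilbFun_zero : hilbFun 1 3 (0 : Fin 6 → ℕ) = 1 := by decide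

lemma hilbFun_single : ∀ i : Fin 6, hilbFun 1 3 (Pi.single i 1 : Fin 6 → ℕ) = 2 := by decide

lemma ch_single : ∀ i : Fin 6, ch (sup (Pi.single i 1)) = (i, i) := by decide

lemma isFr_frP : IsFr (idealOf (pts τ) (pts_heritage τ)) (frP τ) := by
  intro a ⟨f, hf⟩
  rw [mem_idealOf hf, funext_iff]
  refine ⟨fun h => ?_, fun h s => h _⟩
  replace h : ∀ s : Fin 3, s.1 < hilbFun 1 3 a → eval (pts τ a s) f = 0 := fun s hs => h ⟨s, hs⟩
  rcases cases_deg a with rfl | ⟨i, rfl⟩ | h3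
  · obtain ⟨c, rfl⟩ := exists_eq_C hf
    simpa using h 0 (by rw [hilbFun_zero]; decide)
  · obtain ⟨u, hu, rfl⟩ := exists_decomp (l := i) (b := 0) (by simpa using hf)
    choose c hc using fun j => exists_eq_C (hu j)
    have h0 := h 0 (by rw [hilbFun_single]; decide)
    have h1 := h 1 (by rw [hilbFun_single]; decide)
    simp [hc, pts, ptc, ch_single, lab] at h0 h1
    simp [hc, h0, show c 0 = 0 by simpa [h0] using h1]
  · exact fun s => h s (h3.symm ▸ s.2)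

lemma eval_zpow (c : Fin 6 × Fin 6) (s : Fin 3) (b : Fin 6 → ℕ) :
    eval (ptc τ c s) (∏ i, X (i, 1) ^ b i) = 1 := by simp [ptc]

lemma exists_tri (hτ : τ ≠ 0) (hτ' : τ ≠ 1) (a : Fin 6 → ℕ) (s : Fin 3)
    (hs : s.1 < hilbFun 1 3 a) : ∃ f ∈ piece k 1 6 a, eval (pts τ a s) f = 1 ∧
      ∀ s' < s, eval (pts τ a s') f = 0 := by
  by_cases h0 : s = 0
  · subst h0
    exact ⟨_, prod_X_pow_mem (fun _ => 1) a, eval_zpow τ _ _ _, by simp⟩
  have ha : a ≠ 0 := by
    rintro rfl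
    rw [hilbFun_zero] at hs
    omega
  obtain ⟨i, hi⟩ : ∃ i, a i ≠ 0 := Function.ne_iff.mp ha
  obtain ⟨h1, h2⟩ := ch_mem (sup a) i (by simpa [sup] using hi)
  replace h1 : a (ch (sup a)).1 ≠ 0 := by simpa [sup] using h1
  replace h2 : a (ch (sup a)).2 ≠ 0 := by simpa [sup] using h2
  by_cases h3 : s = 1
  · subst h3
    obtain ⟨b, hb⟩ := exists_single_add h1
    refine ⟨X ((ch (sup a)).1, 0) * ∏ i, X (i, 1) ^ b i, ?_, ?_, fun s' hs' => ?_⟩
    · have := mul_mem_piece (X_mem (k := k) (ch (sup a)).1 (0 : Fin (1 + 1)))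
        (prod_X_pow_mem (fun _ => 1) b)
      rwa [← hb] at this
    · rw [map_mul, pts, eval_zpow]; simp [ptc, lab]
    · obtain rfl : s' = 0 := by omega
      simp [pts, ptc, lab]
  obtain rfl : s = 2 := by omega
  by_cases h4 : (ch (sup a)).1 = (ch (sup a)).2
  · obtain ⟨b, hb⟩ := exists_single_add h1
    have hb' : b (ch (sup a)).1 ≠ 0 := by
      intro h5
      have : b = 0 := by
        funext j
        by_contra h6
        have h7 : j ≠ (ch (sup a)).1 := by rintro rfl; exact h6 h5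
        refine ch_ne (sup a) _ _ h7 ?_ (by simpa [sup] using h1) h4
        have := congr($hb j)
        simp only [Pi.add_apply] at this
        simp only [sup, decide_eq_true_eq]
        simp only [Pi.zero_apply] at h6
        omega
      rw [hb, this, add_zero, hilbFun_single] at hs
      omega
    obtain ⟨b', hb''⟩ := exists_single_add hb'
    have hne : τ * (τ - 1) ≠ 0 := mul_ne_zero hτ (sub_ne_zero.mpr hτ')
    refine ⟨(τ * (τ - 1))⁻¹ • (X ((ch (sup a)).1, 0) *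
      ((X ((ch (sup a)).1, 0) - X ((ch (sup a)).1, 1)) * ∏ i, X (i, 1) ^ b' i)), ?_, ?_,
      fun s' hs' => ?_⟩
    · have := mul_mem_piece (X_mem (k := k) (ch (sup a)).1 (0 : Fin (1 + 1)))
        (mul_mem_piece (sub_mem (X_mem (ch (sup a)).1 0) (X_mem (ch (sup a)).1 1))
          (prod_X_pow_mem (fun _ => 1) b'))
      rw [← hb'', ← hb] at this
      exact Submodule.smul_mem _ _ this
    · rw [smul_eval, map_mul, map_mul, pts, eval_zpow]
      simp only [ptc, lab, ← h4, eval_X, map_sub]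
      have := sub_ne_zero.mpr hτ'
      simp
      field_simp
    · obtain rfl | rfl : s' = 0 ∨ s' = 1 := by omega
      all_goals simp [pts, ptc, lab]
  · obtain ⟨b, hb⟩ := exists_single_add h2
    refine ⟨X ((ch (sup a)).2, 0) * ∏ i, X (i, 1) ^ b i, ?_, ?_, fun s' hs' => ?_⟩
    · have := mul_mem_piece (X_mem (k := k) (ch (sup a)).2 (0 : Fin (1 + 1)))
        (prod_X_pow_mem (fun _ => 1) b)
      rwa [← hb] at this
    · rw [map_mul, pts, eval_zpow]; simp [ptc, lab, h4]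
    · obtain rfl | rfl : s' = 0 ∨ s' = 1 := by omega
      all_goals simp [pts, ptc, lab, Ne.symm h4]

lemma frP_surjective (hτ : τ ≠ 0) (hτ' : τ ≠ 1) (a : Fin 6 → ℕ) :
    Function.Surjective (frP τ a) := by
  choose f hf h1 h0 using fun s : Fin (hilbFun 1 3 a) =>
    exists_tri τ hτ hτ' a (Fin.castLE (hilbFun_le a) s) s.2
  let M : Matrix (Fin (hilbFun 1 3 a)) (Fin (hilbFun 1 3 a)) k :=
    Matrix.of fun s => frP τ a ⟨f s, hf s⟩
  have hM : M.det = 1 := by
    rw [Matrix.det_of_isUpperTriangular (M := M) (fun s t h => h0 s (Fin.castLE _ t) h)]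
    exact Finset.prod_eq_one fun s _ => h1 s
  intro v
  refine ⟨∑ s, (Matrix.vecMul v M⁻¹) s • ⟨f s, hf s⟩, ?_⟩
  have : Matrix.vecMul (Matrix.vecMul v M⁻¹) M = v := by
    rw [Matrix.vecMul_vecMul, Matrix.nonsing_inv_mul _ (hM ▸ isUnit_one), Matrix.vecMul_one]
  refine Eq.trans ?_ this
  generalize Matrix.vecMul v M⁻¹ = c
  ext t
  simp only [map_sum, map_smul]
  simp [Matrix.vecMul, dotProduct, M]

/-- the special point of the Hilbert scheme -/
noncomputable def ptP (hτ : τ ≠ 0) (hτ' : τ ≠ 1) : Hilb k 1 3 6 :=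
  ⟨idealOf (pts τ) (pts_heritage τ), comp_mem_idealOf, fun a => by
    rw [(isFr_frP τ).finrank, LinearMap.range_eq_top.mpr (frP_surjective τ hτ hτ' a), finrank_top,
      Module.finrank_fin_fun]⟩

lemma ext3_frP {a : Fin 6 → ℕ} (h : hilbFun 1 3 a = 3) {f : Cox k 6} (hf : f ∈ piece k 1 6 a) :
    ext3 (frP τ) a f = fun s => eval (pts τ a s) f :=
  funext fun s => ext3_apply _ h hf s

lemma condFun_frP (hτ : τ ≠ 0) (hτ' : τ ≠ 1) {l e y : Fin 6} (hey : e ≠ y) (hle : l ≠ e)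
    (hly : l ≠ y) {c : Fin 6 × Fin 6} (hc : c = (e, y) ∨ c = (y, e))
    (h0 : ch (sup (d0 e y)) = c) (h1 : ch (sup (d1 l e y)) = c) (h3 : ch (sup (d3' l e y)) = c)
    (h' : ch (sup (d' l)) = (l, l)) : condFun l e y (frP τ) ≠ 0 := by
  have e0 (s) := ext3_frP τ (hilbFun_d0 hey) (mon3_mem e y s)
  have e1 (j s) := ext3_frP τ (hilbFun_d1 hey) (mul_mem_piece (X_mem l j) (mon3_mem e y s))
  have e3 (s) := ext3_frP τ (hilbFun_d3' hey)
    (mul_mem_piece (pow_mem_piece (X_mem l 1) 3) (mon3_mem e y s))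
  have e' (s) := ext3_frP τ (hilbFun_d' l) (mon4_mem l s)
  have hM : (Matrix.of fun s t => eval (ptc τ c t) (mon3 k e y s)).det ≠ 0 := by
    rcases hc with rfl | rfl <;>
      simp [Matrix.det_fin_three, mon3, ptc, lab, hey, hey.symm]
  have hx (t) : ptc τ c t (l, 0) = 0 := by
    rcases hc with rfl | rfl <;> simp [ptc, lab, hle, hly]
  have hz (t) : ptc τ c t (l, 1) = 1 := by simp [ptc]
  simp only [condFun, e0, e1, e3, e', pts, h0, h1, h3, h', map_mul, map_pow, eval_X, hx, hz,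
    one_mul, zero_mul, one_pow, cond]
  refine mul_ne_zero (mul_ne_zero (mul_ne_zero hM hM) hM) ?_
  rw [show (Matrix.of fun _ _ => (0 : k)) = (0 : Matrix (Fin 3) (Fin 3) k) from rfl]
  simp only [divDiff, Matrix.zero_mul, Matrix.zero_kronecker, Matrix.kronecker_zero, add_zero,
    smul_zero, Matrix.det_smul, Matrix.det_one, mul_one]
  refine pow_ne_zero _ (mul_ne_zero (pow_ne_zero _ hM) ?_)
  have : τ ^ 2 * (τ - 1) ≠ 0 := mul_ne_zero (pow_ne_zero _ hτ) (sub_ne_zero.mpr hτ')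
  simp [minors, d3, mon4, ptc, lab]
  intro h
  exact this (by linear_combination -h)

/-- the six triples -/
def tr : Fin 6 → Fin 6 × Fin 6 × Fin 6 :=
  ![(1, 4, 0), (0, 5, 1), (3, 1, 2), (3, 5, 2), (2, 0, 3), (2, 4, 3)]

/-- the cross-ratio identity -/
noncomputable def ident (s : Fin 6 → k) (φ : Fr k 1 3 6) : k :=
  bad s 1 4 0 φ * bad s 0 5 1 φ * (bad s 2 0 3 φ * good s 2 4 3 φ - good s 2 0 3 φ * bad s 2 4 3 φ) *
    (good s 3 1 2 φ * bad s 3 5 2 φ - bad s 3 1 2 φ * good s 3 5 2 φ) -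
  good s 1 4 0 φ * good s 0 5 1 φ *
    (good s 3 1 2 φ * good s 2 4 3 φ - bad s 3 1 2 φ * bad s 2 4 3 φ) *
    (bad s 2 0 3 φ * bad s 3 5 2 φ - good s 2 0 3 φ * good s 3 5 2 φ)

lemma ident_mem (s : Fin 6 → k) : ident s ∈ polyFun k 1 3 6 := by
  have hg (l e y) : good s l e y ∈ polyFun k 1 3 6 := d3_mem _ _ _ _
  have hb (l e y) : bad s l e y ∈ polyFun k 1 3 6 := d3_mem _ _ _ _
  exact sub_mem (mul_mem (mul_mem (mul_mem (hb _ _ _) (hb _ _ _))
    (sub_mem (mul_mem (hb _ _ _) (hg _ _ _)) (mul_mem (hg _ _ _) (hb _ _ _))))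
    (sub_mem (mul_mem (hg _ _ _) (hb _ _ _)) (mul_mem (hb _ _ _) (hg _ _ _))))
    (mul_mem (mul_mem (mul_mem (hg _ _ _) (hg _ _ _))
    (sub_mem (mul_mem (hg _ _ _) (hg _ _ _)) (mul_mem (hb _ _ _) (hb _ _ _))))
    (sub_mem (mul_mem (hb _ _ _) (hb _ _ _)) (mul_mem (hg _ _ _) (hg _ _ _))))

lemma ident_eq_zero (s : Fin 6 → k) {I : Hilb k 1 3 6} (hI : I ∈ slip k 1 3 6) {φ : Fr k 1 3 6}
    (hφ : IsFr I.1 φ) : ident s φ = 0 := by
  refine eq_zero_of_mem_closure (ident_mem s) ?_ hI hφ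
  rintro J ⟨Γ, -, hΓ, hJ⟩ ψ hψ
  obtain ⟨q, hq⟩ := exists_three_points (by decide) hΓ hJ
  have H (l e y : Fin 6) (hey : e ≠ y) (h : ∀ i, d1 l e y i ≤ 1) :=
    (good_bad_of_points hψ q s hey (hq _ h)).imp fun c hc =>
      hc (fun i t => q t (i, 0)) (fun i t => eval (q t) (zs s i)) (fun _ _ => rfl) fun _ _ => rfl
  obtain ⟨c1, g1, b1⟩ := H 1 4 0 (by decide) (by decide)
  obtain ⟨c2, g2, b2⟩ := H 0 5 1 (by decide) (by decide)
  obtain ⟨c3, g3, b3⟩ := H 3 1 2 (by decide) (by decide)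
  obtain ⟨c4, g4, b4⟩ := H 3 5 2 (by decide) (by decide)
  obtain ⟨c5, g5, b5⟩ := H 2 0 3 (by decide) (by decide)
  obtain ⟨c6, g6, b6⟩ := H 2 4 3 (by decide) (by decide)
  rw [ident, g1, g2, g3, g4, g5, g6, b1, b2, b3, b4, b5, b6]
  ring

theorem exists_component_disjoint (k : Type u) [Field k] [Infinite k] :
    ∃ C ∈ @irreducibleComponents _ (zariski k 1 3 6), Disjoint C (slip k 1 3 6) := by
  classical
  let _ := zariski k 1 3 6
  obtain ⟨τ, hτ⟩ := Infinite.exists_notMem_finset ({0, 1} : Finset k)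
  rw [Finset.mem_insert, Finset.mem_singleton, not_or] at hτ
  let U : Set (Hilb k 1 3 6) := ⋂ t : Fin 6,
    {I | ∃ φ, IsFr I.1 φ ∧ condFun (tr t).1 (tr t).2.1 (tr t).2.2 φ ≠ 0}
  have hU : IsOpen U := isOpen_iInter_of_finite fun t => isOpen_ne (condFun_mem _ _ _)
  have h1 : ∀ t, (tr t).2.1 ≠ (tr t).2.2 := by decide
  have h2 : ∀ t, (tr t).1 ≠ (tr t).2.1 := by decide
  have h3 : ∀ t, (tr t).1 ≠ (tr t).2.2 := by decide
  have hP : ptP τ hτ.1 hτ.2 ∈ U := Set.mem_iInter.mpr fun t => ⟨frP τ, isFr_frP τ,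
    condFun_frP τ hτ.1 hτ.2 (h1 t) (h2 t) (h3 t) (c := ch (sup (d0 (tr t).2.1 (tr t).2.2)))
      (by revert t; decide) rfl (by revert t; decide) (by revert t; decide) (by revert t; decide)⟩
  refine ⟨_, irreducibleComponent_mem_irreducibleComponents (ptP τ hτ.1 hτ.2),
    Set.disjoint_left.mpr fun I hI hI' => ?_⟩
  have hcl : I ∈ closure U := closure_mono Set.inter_subset_right
    (subset_closure_inter_of_isPreirreducible_of_isOpen isIrreducible_irreducibleComponent.2 hU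
      ⟨_, mem_irreducibleComponent, hP⟩ hI)
  obtain ⟨φ, hφ⟩ := exists_isFr (by decide) I
  have hs (t : Fin 6) : Star (tr t).1 (tr t).2.1 (tr t).2.2 φ :=
    star_of_closure (fun J hJ ψ hψ => by
      obtain ⟨χ, hχ, hc⟩ := Set.mem_iInter.mp hJ t
      exact star_of_condFun (h1 t) hχ hc hψ) hcl hφ
  choose P hP hP' using fun t => (hs t).exists_good (h1 t) (h2 t) (h3 t) hφ
  obtain ⟨s, hs'⟩ := exists_common_ne_zero P hP'
  simp only [hP] at hs'
  have h4 := ident_eq_zero s hI' hφ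
  have b1 : bad s 1 4 0 φ = 0 := (hs 0).bad_eq_zero s
  have b3 : bad s 3 1 2 φ = 0 := (hs 2).bad_eq_zero s
  have b5 : bad s 2 0 3 φ = 0 := (hs 4).bad_eq_zero s
  have g1 : good s 1 4 0 φ ≠ 0 := hs' 0
  have g2 : good s 0 5 1 φ ≠ 0 := hs' 1
  have g3 : good s 3 1 2 φ ≠ 0 := hs' 2
  have g4 : good s 3 5 2 φ ≠ 0 := hs' 3
  have g5 : good s 2 0 3 φ ≠ 0 := hs' 4
  have g6 : good s 2 4 3 φ ≠ 0 := hs' 5
  simp [ident, b1, b3, b5, g1, g2, g3, g4, g5, g6] at h4

end Pool.Agent.Lib.MP_07b136_ag
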