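import Mathlib
import Pool.Agent.Lib.MP_07b136_ag.Defs

open MvPolynomial AlgebraicGeometry CategoryTheory

universe u

namespace Pool.Agent.Lib.MP_07b136_ag.Sch

/-- The graded piece `(S_A / I)_a` of the quotient of `S_A = A[x_{i,j}]`. -/
abbrev quo {A : Type u} [CommRing A] {n r : ℕ} (I : Ideal (MvPolynomial (Fin r × Fin (n + 1)) A))
    (a : Fin r → ℕ) : Type u :=
  weightedHomogeneousSubmodule A (wt n r) a ⧸
    (I.restrictScalars A).comap (weightedHomogeneousSubmodule A (wt n r) a).subtype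

/-- `I` is an `A`-point of the Haiman-Sturmfels functor: it is multihomogeneous, and every
`(S_A / I)_a` is a projective `A`-module of constant rank `hilbFun n d a`. -/
def IsFam {A : Type u} [CommRing A] {n r : ℕ} (d : ℕ)
    (I : Ideal (MvPolynomial (Fin r × Fin (n + 1)) A)) : Prop :=
  (∀ f ∈ I, ∀ a, weightedHomogeneousComponent (wt n r) a f ∈ I) ∧
    ∀ a, Module.Projective A (quo I a) ∧
      ∀ p, Module.rankAtStalk (R := A) (quo I a) p = hilbFun n d a

/-- The `A`-points of a `k`-scheme. -/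
abbrev Pts {k : Type u} [Field k] {X : Scheme.{u}} (s : X ⟶ Spec (.of k)) (A : Type u)
    [CommRing A] [Algebra k A] : Type u :=
  {f : Spec (.of A) ⟶ X // f ≫ s = Spec.map (CommRingCat.ofHom (algebraMap k A))}

/-- The `k`-scheme `X` represents the Haiman-Sturmfels functor. -/
structure Represents {k : Type u} [Field k] (n d r : ℕ) {X : Scheme.{u}}
    (s : X ⟶ Spec (.of k)) where
  /-- the bijection between `A`-points and families over `A` -/
  e : ∀ (A : Type u) [CommRing A] [Algebra k A],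
    Pts s A ≃ {I : Ideal (MvPolynomial (Fin r × Fin (n + 1)) A) // IsFam d I}
  natural : ∀ (A B : Type u) [CommRing A] [Algebra k A] [CommRing B] [Algebra k B]
    (φ : A →ₐ[k] B) (f : Pts s A) (g : Pts s B),
    g.1 = Spec.map (CommRingCat.ofHom φ.toRingHom) ≫ f.1 →
      (e B g).1 = (e A f).1.map (MvPolynomial.map φ.toRingHom)

/-- The multihomogeneous ideal of a set of points of `(ℙⁿ)^r`, given by coordinate vectors. -/
noncomputable def ptsIdeal {k : Type u} [Field k] {n r : ℕ} (Γ : Set (Fin r × Fin (n + 1) → k)) :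
    Ideal (MvPolynomial (Fin r × Fin (n + 1)) k) :=
  Ideal.span {f | (∃ a, f.IsWeightedHomogeneous (wt n r) a) ∧ ∀ q ∈ Γ, eval q f = 0}

/-- The closure in `X` of the `k`-points that are ideals of finite sets of points of `(ℙⁿ)^r`. -/
def Represents.slip {k : Type u} [Field k] {n d r : ℕ} {X : Scheme.{u}} {s : X ⟶ Spec (.of k)}
    (R : Represents n d r s) : Set X :=
  closure {x | ∃ f : Pts s k, f.1 (IsLocalRing.closedPoint k) = x ∧
    ∃ Γ : Set (Fin r × Fin (n + 1) → k), Γ.Finite ∧ (∀ q ∈ Γ, ∀ i, ∃ j, q (i, j) ≠ 0) ∧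
      (R.e k f).1 = ptsIdeal Γ}

end Pool.Agent.Lib.MP_07b136_ag.Sch
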