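import Mathlib
import Pool.Agent.Lib.MP_07b136_ag.Main
import Pool.Agent.Lib.MP_07b136_ag.SchDefs

open MvPolynomial TensorProduct

universe u

namespace Pool.Agent.Lib.MP_07b136_ag.Sch

/-- multihomogeneous ideals -/
def IsMH {A : Type u} [CommRing A] {r n : ℕ} (I : Ideal (MvPolynomial (Fin r × Fin (n + 1)) A)) :
    Prop :=
  ∀ f ∈ I, ∀ a, weightedHomogeneousComponent (wt n r) a f ∈ I

/-- forms of multidegree `a` over `A` -/
abbrev Pc (A : Type u) [CommRing A] (r n : ℕ) (a : Fin r → ℕ) := weightedHomogeneousSubmodule A (wt n r) a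

theorem fin_pc (A : Type u) [CommRing A] (r n : ℕ) (a : Fin r → ℕ) : Module.Finite A (Pc A r n a) := by
  unfold Pc
  rw [weightedHomogeneousSubmodule_eq_finsupp_supported]
  have h : {d : Fin r × Fin (n + 1) →₀ ℕ | Finsupp.weight (wt n r) d = a}.Finite := by
    refine (Set.finite_Iic (Finsupp.equivFunOnFinite.symm fun v : Fin r × Fin (n + 1) => a v.1)).subset ?_
    intro d hd v
    have h1 : (Finsupp.weight (wt n r) d) v.1 = a v.1 := congrFun hd v.1
    rw [Finsupp.weight_apply, Finsupp.sum_fintype _ _ (by simp), Finset.sum_apply] at h1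
    change d v ≤ a v.1
    rw [← h1]
    refine le_trans ?_ (Finset.single_le_sum (fun _ _ => Nat.zero_le _) (Finset.mem_univ v))
    simp [wt]
  have := h.to_subtype
  exact Module.Finite.of_basis (basisRestrictSupport A {d | Finsupp.weight (wt n r) d = a})

theorem map_comp {A B : Type u} [CommRing A] [CommRing B] (f : A →+* B) {r n : ℕ} (a : Fin r → ℕ)
    (F : MvPolynomial (Fin r × Fin (n + 1)) A) : map f (weightedHomogeneousComponent (wt n r) a F) =
      weightedHomogeneousComponent (wt n r) a (map f F) := by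
  ext d
  simp only [coeff_map, coeff_weightedHomogeneousComponent]
  split_ifs <;> simp

theorem map_mem {A B : Type u} [CommRing A] [CommRing B] (f : A →+* B) {r n : ℕ} {a : Fin r → ℕ}
    {F : MvPolynomial (Fin r × Fin (n + 1)) A} (h : F ∈ Pc A r n a) : map f F ∈ Pc B r n a :=
  fun d hd => h fun e => hd (by rw [coeff_map, e, map_zero])

/-- projection onto a piece -/
noncomputable def pr (A : Type u) [CommRing A] (r n : ℕ) (a : Fin r → ℕ) :
    MvPolynomial (Fin r × Fin (n + 1)) A →ₗ[A] Pc A r n a :=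
  (weightedHomogeneousComponent (wt n r) a).codRestrict _ fun F => weightedHomogeneousComponent_mem _ F a

theorem pr_val {A : Type u} [CommRing A] {r n : ℕ} {a : Fin r → ℕ} (F : Pc A r n a) :
    pr A r n a F.1 = F := Subtype.ext (weightedHomogeneousComponent_eq_self F.2)

section
variable {k A : Type u} [Field k] [CommRing A] [Algebra k A] {r n d : ℕ}

/-- inclusion of forms over k -/
noncomputable def inc (A : Type u) [CommRing A] [Algebra k A] (a : Fin r → ℕ) :
    Pc k r n a →ₗ[k] Pc A r n a where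
  toFun f := ⟨map (algebraMap k A) f.1, map_mem _ f.2⟩
  map_add' _ _ := Subtype.ext (map_add _ _ _)
  map_smul' c f := Subtype.ext ((mapAlgHom (Algebra.ofId k A)).toLinearMap.map_smul c f.1)

/-- reduction of forms along a point -/
noncomputable def red (φ : A →ₐ[k] k) {a : Fin r → ℕ} (F : Pc A r n a) : Pc k r n a :=
  ⟨map φ.toRingHom F.1, map_mem _ F.2⟩

theorem red_inc (φ : A →ₐ[k] k) {a : Fin r → ℕ} (f : Pc k r n a) : red φ (inc A a f) = f := by
  apply Subtype.ext
  change map φ.toRingHom (map (algebraMap k A) f.1) = f.1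
  rw [MvPolynomial.map_map, show φ.toRingHom.comp (algebraMap k A) = RingHom.id k from RingHom.ext φ.commutes,
    MvPolynomial.map_id]

/-- semilinear maps do not see the difference between `F` and `inc (red F)` -/
theorem semi (φ : A →ₐ[k] k) {a : Fin r → ℕ} {T : Type u} [AddCommGroup T] [Module k T]
    (L : Pc A r n a →+ T) (hL : ∀ c F, L (c • F) = φ c • L F) (F : Pc A r n a) :
    L (inc A a (red φ F)) = L F := by
  have key : ∀ G : MvPolynomial (Fin r × Fin (n + 1)) A,
      L (pr A r n a (map (algebraMap k A) (map φ.toRingHom G))) = L (pr A r n a G) := by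
    intro G
    induction G using MvPolynomial.induction_on' with
    | monomial m c =>
      have e : ∀ x : A, (monomial m x : MvPolynomial (Fin r × Fin (n + 1)) A) = x • monomial m 1 := fun x => by
        rw [smul_monomial, smul_eq_mul, mul_one]
      rw [map_monomial, map_monomial, e c, e (algebraMap k A _), (pr A r n a).map_smul, (pr A r n a).map_smul, hL, hL,
        φ.commutes]
      rfl
    | add p q hp hq => simp only [map_add, hp, hq]
  have := key F.1
  rwa [pr_val, show map (algebraMap k A) (map φ.toRingHom F.1) = (inc A a (red φ F)).1 from rfl,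
    pr_val] at this

variable {I : Ideal (MvPolynomial (Fin r × Fin (n + 1)) A)}

theorem mem_fib (hI : IsMH I) (φ : A →ₐ[k] k) {a : Fin r → ℕ} (f : Pc k r n a) :
    f.1 ∈ I.map (map φ.toRingHom) ↔ ∃ F : Pc A r n a, F.1 ∈ I ∧ red φ F = f := by
  have hs : Function.Surjective φ.toRingHom := fun c => ⟨algebraMap k A c, φ.commutes c⟩
  rw [Ideal.mem_map_iff_of_surjective _ (map_surjective _ hs)]
  constructor
  · rintro ⟨F, hF, e⟩
    refine ⟨pr A r n a F, hI F hF a, Subtype.ext ?_⟩
    change map φ.toRingHom (weightedHomogeneousComponent (wt n r) a F) = f.1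
    rw [map_comp, e, weightedHomogeneousComponent_eq_self f.2]
  · rintro ⟨F, hF, rfl⟩
    exact ⟨F.1, hF, rfl⟩

theorem mh_fib (hI : IsMH I) (φ : A →ₐ[k] k) : IsMH (I.map (map φ.toRingHom)) := by
  have hs : Function.Surjective φ.toRingHom := fun c => ⟨algebraMap k A c, φ.commutes c⟩
  intro f hf a
  obtain ⟨F, hF, rfl⟩ := (Ideal.mem_map_iff_of_surjective _ (map_surjective _ hs)).mp hf
  rw [← map_comp]
  exact Ideal.mem_map_of_mem _ (hI F hF a)

theorem red_smul (φ : A →ₐ[k] k) {a : Fin r → ℕ} (c : A) (F : Pc A r n a) :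
    red φ (c • F) = φ c • red φ F := by
  apply Subtype.ext
  change map φ.toRingHom (c • F.1) = φ c • map φ.toRingHom F.1
  rw [smul_eq_C_mul, smul_eq_C_mul, map_mul, map_C]
  rfl

theorem dim_fib (h : IsFam d I) (φ : A →ₐ[k] k) (a : Fin r → ℕ) :
    Module.finrank k (quo (I.map (map φ.toRingHom)) a) = hilbFun n d a := by
  let _ : Algebra A k := φ.toRingHom.toAlgebra
  have := fin_pc A r n a
  have := (h.2 a).1
  have h1 : Module.finrank k (k ⊗[A] quo I a) = hilbFun n d a := by
    have := Module.rankAtStalk_baseChange (R := A) (M := quo I a) (S := k) ⟨⊥, Ideal.isPrime_bot⟩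
    rw [(h.2 a).2, Module.rankAtStalk_eq_finrank_of_free] at this
    exact this
  let N' := ((I.map (map φ.toRingHom)).restrictScalars k).comap (Pc k r n a).subtype
  let N := (I.restrictScalars A).comap (Pc A r n a).subtype
  let L : Pc A r n a →ₗ[A] k ⊗[A] quo I a := (TensorProduct.mk A k (quo I a) 1).comp N.mkQ
  have hL : ∀ c F, L (c • F) = φ c • L F := fun c F => by
    rw [map_smul]; exact (algebraMap_smul k c (L F)).symm
  let α : Pc k r n a →ₗ[k] k ⊗[A] quo I a :=
    { toFun := fun f => L (inc A a f)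
      map_add' := fun f g => by rw [map_add, map_add]
      map_smul' := fun c f => by
        rw [map_smul, ← algebraMap_smul A c, hL, φ.commutes]; rfl }
  have hα : ∀ F, α (red φ F) = L F := semi φ L.toAddMonoidHom hL
  let ρ0 : Pc A r n a →ₗ[A] quo (I.map (map φ.toRingHom)) a :=
    { toFun := fun F => N'.mkQ (red φ F)
      map_add' := fun F G => by
        rw [← map_add]; exact congrArg _ (Subtype.ext (map_add _ _ _))
      map_smul' := fun c F => by
        rw [red_smul, map_smul]; exact algebraMap_smul k c _ }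
  let ρ : quo I a →ₗ[A] quo (I.map (map φ.toRingHom)) a := N.liftQ ρ0 fun F hF =>
    (Submodule.Quotient.mk_eq_zero N').mpr ((mem_fib h.1 φ _).mpr ⟨F, hF, rfl⟩)
  have hs : Function.Surjective α := by
    intro x
    induction x with
    | zero => exact ⟨0, map_zero _⟩
    | add x y hx hy =>
      obtain ⟨f, rfl⟩ := hx
      obtain ⟨g, rfl⟩ := hy
      exact ⟨f + g, map_add _ _ _⟩
    | tmul c q =>
      obtain ⟨F, rfl⟩ := N.mkQ_surjective q
      refine ⟨c • red φ F, ?_⟩
      rw [map_smul, hα]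
      change c • ((1 : k) ⊗ₜ[A] N.mkQ F) = _
      rw [TensorProduct.smul_tmul', smul_eq_mul, mul_one]
  have hk : LinearMap.ker α = N' := by
    ext f
    constructor
    · intro hf
      have e : ρ.liftBaseChange k (α f) = N'.mkQ f := by
        change ρ.liftBaseChange k ((1 : k) ⊗ₜ[A] N.mkQ (inc A a f)) = _
        rw [LinearMap.liftBaseChange_tmul, one_smul]
        change N'.mkQ (red φ (inc A a f)) = _
        rw [red_inc]
      rw [LinearMap.mem_ker.mp hf, map_zero] at e
      exact (Submodule.Quotient.mk_eq_zero N').mp e.symm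
    · intro hf
      obtain ⟨F, hF, rfl⟩ := (mem_fib h.1 φ f).mp hf
      rw [LinearMap.mem_ker, hα]
      change (1 : k) ⊗ₜ[A] N.mkQ F = 0
      rw [show N.mkQ F = 0 from (Submodule.Quotient.mk_eq_zero N).mpr hF, tmul_zero]
  rw [← h1, ← (α.quotKerEquivOfSurjective hs).finrank_eq, hk]

/-- specialisation of a linear map -/
noncomputable def spec (φ : A →ₐ[k] k) {a : Fin r → ℕ} {m : ℕ} (Ψ : Pc A r n a →ₗ[A] Fin m → A) :
    Pc k r n a →ₗ[k] Fin m → k where
  toFun f i := φ (Ψ (inc A a f) i)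
  map_add' f g := by funext i; simp
  map_smul' c f := by
    funext i
    rw [map_smul, ← algebraMap_smul A c, map_smul, Pi.smul_apply, smul_eq_mul, map_mul, φ.commutes]
    rfl

theorem spec_red (φ : A →ₐ[k] k) {a : Fin r → ℕ} {m : ℕ} (Ψ : Pc A r n a →ₗ[A] Fin m → A)
    (F : Pc A r n a) (i : Fin m) : spec φ Ψ (red φ F) i = φ (Ψ F i) :=
  semi φ (T := k) (AddMonoidHom.mk' (fun F => φ (Ψ F i)) fun _ _ => by simp)
    (fun c F => by simp) F

theorem loc_frame (h : IsFam d I) (φ0 : A →ₐ[k] k) (a : Fin r → ℕ)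
    (ψ0 : Pc k r n a →ₗ[k] Fin (hilbFun n d a) → k)
    (h0 : ∀ f, ψ0 f = 0 ↔ f.1 ∈ I.map (map φ0.toRingHom)) :
    ∃ (Ψ : Pc A r n a →ₗ[A] Fin (hilbFun n d a) → A) (Δ : A), spec φ0 Ψ = ψ0 ∧ φ0 Δ ≠ 0 ∧
      ∀ φ : A →ₐ[k] k, φ Δ ≠ 0 → ∀ f, spec φ Ψ f = 0 ↔ f.1 ∈ I.map (map φ.toRingHom) := by
  classical
  have := (h.2 a).1
  have := fin_pc k r n a
  let N := (I.restrictScalars A).comap (Pc A r n a).subtype
  have hΨ : ∃ Ψ : quo I a →ₗ[A] Fin (hilbFun n d a) → A, ∀ F i, φ0 (Ψ (N.mkQ F) i) = ψ0 (red φ0 F) i := by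
    let _ : Algebra A k := φ0.toRingHom.toAlgebra
    let g0 : Pc A r n a →ₗ[A] Fin (hilbFun n d a) → k :=
      { toFun := fun F => ψ0 (red φ0 F)
        map_add' := fun F G => by
          rw [← map_add]; exact congrArg _ (Subtype.ext (map_add _ _ _))
        map_smul' := fun c F => by
          rw [red_smul, map_smul]; exact algebraMap_smul k c _ }
    let g : quo I a →ₗ[A] Fin (hilbFun n d a) → k := N.liftQ g0 fun F hF =>
      (h0 _).mpr ((mem_fib h.1 φ0 _).mpr ⟨F, hF, rfl⟩)
    obtain ⟨Ψ, hΨ⟩ := Module.projective_lifting_property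
      ((Algebra.linearMap A k).compLeft (Fin (hilbFun n d a))) g fun y =>
        ⟨fun i => algebraMap k A (y i), funext fun i => φ0.commutes _⟩
    exact ⟨Ψ, fun F i => congrFun (LinearMap.congr_fun hΨ (N.mkQ F)) i⟩
  obtain ⟨Ψ, hΨ⟩ := hΨ
  have hker : ∀ (φ : A →ₐ[k] k) (ψ : Pc k r n a →ₗ[k] Fin (hilbFun n d a) → k),
      ((I.map (map φ.toRingHom)).restrictScalars k).comap (Pc k r n a).subtype ≤ LinearMap.ker ψ →
      (Function.Surjective ψ ↔ LinearMap.ker ψ =
        ((I.map (map φ.toRingHom)).restrictScalars k).comap (Pc k r n a).subtype) := by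
    intro φ ψ hle
    have e1 := dim_fib h φ a
    have e2 := Submodule.finrank_quotient_add_finrank
      (((I.map (map φ.toRingHom)).restrictScalars k).comap (Pc k r n a).subtype)
    have e3 := LinearMap.finrank_range_add_finrank_ker ψ
    rw [e1] at e2
    constructor
    · intro hs
      rw [LinearMap.range_eq_top.mpr hs, finrank_top, Module.finrank_fin_fun] at e3
      exact (Submodule.eq_of_le_of_finrank_eq hle (by omega)).symm
    · intro hk
      rw [hk] at e3
      rw [← LinearMap.range_eq_top]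
      exact Submodule.eq_top_of_finrank_eq (by rw [Module.finrank_fin_fun]; omega)
  have hs0 : Function.Surjective ψ0 :=
    (hker φ0 ψ0 fun f hf => (h0 f).mpr hf).mpr (Submodule.ext h0)
  choose b hb using fun i => hs0 (Pi.single i 1)
  let M : Matrix (Fin (hilbFun n d a)) (Fin (hilbFun n d a)) A := fun i j => Ψ (N.mkQ (inc A a (b j))) i
  have hsp : spec φ0 (Ψ.comp N.mkQ) = ψ0 := LinearMap.ext fun f => funext fun i => by
    have := hΨ (inc A a f) i
    rwa [red_inc] at this
  refine ⟨Ψ.comp N.mkQ, M.det, hsp, ?_, fun φ hφ => ?_⟩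
  · have e : φ0.toRingHom.mapMatrix M = 1 := by
      ext i j
      have := congrFun (LinearMap.congr_fun hsp (b j)) i
      rw [hb] at this
      exact this.trans (by simp [Matrix.one_apply, Pi.single_apply])
    have := φ0.toRingHom.map_det M
    rw [e, Matrix.det_one] at this
    exact fun h => one_ne_zero (this.symm.trans h)
  · have hle : ((I.map (map φ.toRingHom)).restrictScalars k).comap (Pc k r n a).subtype ≤
        LinearMap.ker (spec φ (Ψ.comp N.mkQ)) := fun f hf => by
      obtain ⟨F, hF, rfl⟩ := (mem_fib h.1 φ f).mp hf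
      funext i
      rw [spec_red, LinearMap.comp_apply,
        show N.mkQ F = 0 from (Submodule.Quotient.mk_eq_zero N).mpr hF, map_zero]
      exact map_zero φ
    have hd : (φ.toRingHom.mapMatrix M).det ≠ 0 := by
      rw [← φ.toRingHom.map_det M]; exact hφ
    have hs : Function.Surjective (spec φ (Ψ.comp N.mkQ)) := fun y => by
      obtain ⟨x, rfl⟩ := (Matrix.mulVec_surjective_iff_isUnit.mpr
        ((Matrix.isUnit_iff_isUnit_det _).mpr (isUnit_iff_ne_zero.mpr hd))) y
      refine ⟨∑ j, x j • b j, funext fun i => ?_⟩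
      rw [map_sum, Finset.sum_apply]
      simp only [map_smul, Pi.smul_apply, smul_eq_mul, Matrix.mulVec, dotProduct]
      exact Finset.sum_congr rfl fun j _ => mul_comm _ _
    intro f
    exact SetLike.ext_iff.mp ((hker φ _ hle).mp hs) f

end

theorem isPt_fib {k A : Type u} [Field k] [CommRing A] [Algebra k A] {r n d : ℕ}
    {I : Ideal (MvPolynomial (Fin r × Fin (n + 1)) A)} (hI : IsFam d I) (φ : A →ₐ[k] k) :
    IsPt d (I.map (map φ.toRingHom)) :=
  ⟨mh_fib hI.1 φ, dim_fib hI φ⟩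

theorem fine_aff {k A : Type u} [Field k] [CommRing A] [Algebra k A] {r n d : ℕ} (hd : 0 < d)
    {I : Ideal (MvPolynomial (Fin r × Fin (n + 1)) A)} (hI : IsFam d I)
    {G : Fr k n d r → k} (hG : G ∈ Algebra.adjoin k (entries k n d r)) (φ0 : A →ₐ[k] k)
    {ψ0 : Fr k n d r} (hψ0 : IsFr (I.map (map φ0.toRingHom)) ψ0) (hG0 : G ψ0 ≠ 0) :
    ∃ γ : A, φ0 γ ≠ 0 ∧ ∀ φ : A →ₐ[k] k, φ γ ≠ 0 →
      ∃ ψ : Fr k n d r, IsFr (I.map (map φ.toRingHom)) ψ ∧ G ψ ≠ 0 := by
  classical
  choose Ψ Δ h1 h2 h3 using fun a => loc_frame hI φ0 a (ψ0 a) fun f => hψ0 a f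
  have key : ∃ (D : Finset (Fin r → ℕ)) (γ : A), ∀ (φ : A →ₐ[k] k) (ψ : Fr k n d r),
      (∀ a ∈ D, ψ a = spec φ (Ψ a)) → G ψ = φ γ := by
    clear hG0
    induction hG using Algebra.adjoin_induction with
    | mem g hg =>
      obtain ⟨a, f, i, rfl⟩ := hg
      exact ⟨{a}, Ψ a (inc A a f) i, fun φ ψ h => by
        beta_reduce; rw [h a (Finset.mem_singleton_self a)]; rfl⟩
    | algebraMap c => exact ⟨∅, algebraMap k A c, fun φ ψ _ => (φ.commutes c).symm⟩
    | add x y _ _ hx hy =>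
      obtain ⟨D, γ, hx⟩ := hx
      obtain ⟨D', γ', hy⟩ := hy
      exact ⟨D ∪ D', γ + γ', fun φ ψ h => by
        rw [Pi.add_apply, map_add, hx φ ψ fun a ha => h a (Finset.mem_union_left _ ha),
          hy φ ψ fun a ha => h a (Finset.mem_union_right _ ha)]⟩
    | mul x y _ _ hx hy =>
      obtain ⟨D, γ, hx⟩ := hx
      obtain ⟨D', γ', hy⟩ := hy
      exact ⟨D ∪ D', γ * γ', fun φ ψ h => by
        rw [Pi.mul_apply, map_mul, hx φ ψ fun a ha => h a (Finset.mem_union_left _ ha),
          hy φ ψ fun a ha => h a (Finset.mem_union_right _ ha)]⟩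
  obtain ⟨D, γ, hγ⟩ := key
  have hm : ∀ φ : A →ₐ[k] k, φ (γ * ∏ a ∈ D, Δ a) ≠ 0 ↔ φ γ ≠ 0 ∧ ∀ a ∈ D, φ (Δ a) ≠ 0 := fun φ => by
    rw [map_mul, map_prod, mul_ne_zero_iff, Finset.prod_ne_zero_iff]
  refine ⟨γ * ∏ a ∈ D, Δ a,
    (hm φ0).mpr ⟨hγ φ0 ψ0 (fun a _ => (h1 a).symm) ▸ hG0, fun a _ => h2 a⟩, fun φ hφ => ?_⟩
  have hφ := (hm φ).mp hφ
  obtain ⟨χ, hχ⟩ := exists_isFr hd (⟨_, isPt_fib hI φ⟩ : Hilb k n d r)
  obtain ⟨ψ, hψ1, hψ2⟩ : ∃ ψ : Fr k n d r, (∀ a ∈ D, ψ a = spec φ (Ψ a)) ∧ ∀ a ∉ D, ψ a = χ a :=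
    ⟨fun a => if a ∈ D then spec φ (Ψ a) else χ a, fun a ha => if_pos ha, fun a ha => if_neg ha⟩
  refine ⟨ψ, fun a f => ?_, ?_⟩
  · by_cases ha : a ∈ D
    · rw [hψ1 a ha]
      exact h3 a φ (hφ.2 a ha) f
    · rw [hψ2 a ha]
      exact hχ a f
  · rw [hγ φ ψ hψ1]
    exact hφ.1

end Pool.Agent.Lib.MP_07b136_ag.Sch
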