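import Mathlib
import Pool.Agent.Lib.MP_07b136_ag.AllMain

open MvPolynomial Filter Topology

universe u

namespace Pool.Agent.Lib.MP_07b136_ag.Sch

theorem sep_all (k : Type u) [Field k] [Infinite k] (n r : ℕ) {d : ℕ} (hd : 4 ≤ d) :
    ∃ (U : Set (Hilb k (n + 1) d (r + 3))) (I₀ : Hilb k (n + 1) d (r + 3)),
      @IsOpen _ (zariski k (n + 1) d (r + 3)) U ∧ I₀ ∈ U ∧
      Disjoint (@closure _ (zariski k (n + 1) d (r + 3)) U) (slip k (n + 1) d (r + 3)) := by
  let _ := zariski k (n + 1) d (r + 3)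
  let c := Infinite.natEmbedding k
  have hc : Function.Injective c := c.injective
  obtain ⟨I₀, hI⟩ := exists_point (k := k) (d := d) hc (key_inj (n := n) (r := r) (d := d))
    (key_mono hd)
  obtain ⟨φ₀, hφ₀⟩ := exists_isFr (by omega) I₀
  let p : Pr k (n + 1) d (r + 3) := ⟨I₀, φ₀, hφ₀⟩
  have s01 := @ne01 r
  have s02 := @ne02 r
  have s12 := @ne12 r
  have lam (α : Fin (r + 3) → ℕ) := desc_lam (n := n) (α := α) hd
  have mu (α : Fin (r + 3) → ℕ) := desc_mu (n := n) (α := α) hd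
  have r1 : ∀ᶠ q in nb p, Rk q.I.1 (Pi.single 0 1) (Pi.single 1 1 + d • Pi.single 2 1) 1 := by
    refine rk_at hc hI rfl 0 (lam _ (by simp [*]) (by simp [s02.symm, s12.symm]))
      (lam _ (by simp [*]) (by simp [s02.symm, s12.symm]))
      (lam _ (by simp [*]) (by simp [s02.symm, s12.symm]))
      (desc_x hd (by simp; omega) (by simp) (by simp [s02.symm]))
      (desc_x hd (by simp) (by simp) (by simp [s02.symm])) (ℓ := fun _ => X (0, 0))
      (fun _ => X_mem _ _) fun g => ⟨fun _ => g (mk3 0 0 0), ?_⟩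
    rintro _ b c' a' _ _ ⟨rfl, -⟩ ⟨-, rfl, rfl⟩ h
    obtain rfl : 0 = a' := by simpa [mk3_0] using h
    simp [pt]
  have r2 : ∀ᶠ q in nb p, Rk q.I.1 (Pi.single 1 1) (Pi.single 0 1 + d • Pi.single 2 1) 2 := by
    refine rk_at hc hI rfl 1 (lam _ (by simp [*]) (by simp [s02.symm, s12.symm]))
      (lam _ (by simp [*]) (by simp [s02.symm, s12.symm]))
      (lam _ (by simp [*]) (by simp [s02.symm, s12.symm]))
      (desc_y hd (by simp) (by simp; omega) (by simp [s12.symm]))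
      (desc_y hd (by simp) (by simp) (by simp [s12.symm])) (ℓ := ![X (1, 0), X (1, Fin.succ 0)])
      (Fin.forall_fin_two.mpr ⟨X_mem _ _, X_mem _ _⟩) fun g =>
        ⟨![(c 1 * g (mk3 0 0 0) - c 0 * g (mk3 0 1 0)) / (c 1 - c 0),
          (g (mk3 0 1 0) - g (mk3 0 0 0)) / (c 1 - c 0)], ?_⟩
    rintro _ b c' _ b' _ ⟨rfl, h1⟩ ⟨rfl, -, rfl⟩ h
    obtain rfl : b = b' := by simpa [mk3_1] using h
    have h2 : c 1 - c 0 ≠ 0 := sub_ne_zero.mpr fun e => one_ne_zero (hc e)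
    have h3 (u : Ex (n + 1) (r + 3)) : pt c u (1, Fin.succ 0) = c (u 1 0) := rfl
    have h4 (u : Ex (n + 1) (r + 3)) : pt c u (1, 0) = 1 := rfl
    rw [Fin.sum_univ_two, map_add, smul_eval, smul_eval]
    simp only [Matrix.cons_val_zero, Matrix.cons_val_one, eval_X, h3, h4, mk3_1, Pi.single_eq_same]
    obtain rfl | rfl : b = 0 ∨ b = 1 := by omega
    all_goals field_simp; ring
  have m1 := mu (Pi.single 0 1 + (Pi.single 0 1 + d • Pi.single 2 1)) (by simp [*]) (by simp [*])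
    (by simp [s02.symm])
  have m2 := mu (Pi.single 2 1 + (Pi.single 0 1 + (Pi.single 0 1 + d • Pi.single 2 1)))
    (by simp [*]) (by simp [*]) (by simp [s02.symm])
  have m3 := desc_nu (n := n) (r := r) hd
    (α := d • Pi.single 2 1 + (Pi.single 0 1 + d • Pi.single 2 1))
    (by simp [*]) (by simp [*]) (by simp [s02.symm])
  have m4 := mu (Pi.single 0 1 + (d • Pi.single 2 1 + (Pi.single 0 1 + d • Pi.single 2 1)))
    (by simp [*]) (by simp [*]) (by simp [s02.symm])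
  have r3 := ev_not_onto (p := p) (x := pt c (mk3 0 0 (d - 2))) (X_mem 2 0) (X_mem 2 (Fin.succ 0))
    (mul_mem_piece (X_mem 0 0) (pow_mem_piece (X_mem 2 0) d)) m1.1 m2.1 m3.1 m4.1
    (onto_one hc hI 2 m1 m2) (by simp [pt]) (by simp [pt])
    (inj_at hc hI 2 m1 m2 fun a b c' h => by simp only [mk3_2, Pi.single_eq_same]; omega)
    fun f hf h => (hI _ f hf).mp h _ ((m3.2 _).mpr ⟨0, 0, d - 2, by omega, rfl⟩)
  obtain ⟨U, hU, hP, hQ⟩ := exists_open (p := p) (Q := fun J =>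
    Rk J.1 (Pi.single 0 1) (Pi.single 1 1 + d • Pi.single 2 1) 1 ∧
    Rk J.1 (Pi.single 1 1) (Pi.single 0 1 + d • Pi.single 2 1) 2 ∧
    ∀ w ∈ piece k (n + 1) (r + 3) (Pi.single 0 1), ¬ Onto J.1 w (Pi.single 0 1)
      (d • Pi.single 2 1 + (Pi.single 0 1 + d • Pi.single 2 1)))
    (by filter_upwards [r1, r2, r3] with q h1 h2 h3 using ⟨h1, h2, h3⟩)
  refine ⟨U, I₀, hU, hP, Set.disjoint_left.mpr fun I hcl hI' => ?_⟩
  obtain ⟨φ, hφ⟩ := exists_isFr (by omega) I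
  have fr := freq_of_closure (p := ⟨I, φ, hφ⟩) hcl
  have l1 := (lam (Pi.single 0 1 + (Pi.single 1 1 + d • Pi.single 2 1)) (by simp [*])
    (by simp [s02.symm, s12.symm])).1
  obtain ⟨z, hz, h⟩ := onto_of_slip (p := ⟨I, φ, hφ⟩) hI' l1
    (mu _ (by simp [*]) (by simp [*]) (by simp [s02.symm])).1
    (rk_of_freq (by omega) l1 (fr.mono fun q hq => (hQ _ hq).1))
    (rk_of_freq (by omega) (lam _ (by simp [*]) (by simp [s02.symm, s12.symm])).1
      (fr.mono fun q hq => (hQ _ hq).2.1))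
  obtain ⟨q, h1, h2⟩ := (fr.and_eventually (ev_onto m4.1 hz h)).exists
  exact (hQ _ h1).2.2 z hz h2

end Pool.Agent.Lib.MP_07b136_ag.Sch
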