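import Mathlib
import Pool.Agent.Lib.MP_07b136_ag.SchSep
import Pool.Agent.Lib.MP_07b136_ag.SchFam
import Pool.Agent.Lib.MP_07b136_ag.SchAlg

open MvPolynomial AlgebraicGeometry CategoryTheory TopologicalSpace TensorProduct Cardinal

universe u

namespace Pool.Agent.Lib.MP_07b136_ag.Sch

variable {k K : Type u} [Field k] [Field K] [Algebra k K] {n d r : ℕ}

theorem isPt_of_isFam {I : Ideal (MvPolynomial (Fin r × Fin (n + 1)) k)} (h : IsFam d I) :
    IsPt d I :=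
  ⟨h.1, fun a => by
    have := (h.2 a).2 ⟨⊥, Ideal.isPrime_bot⟩
    rwa [Module.rankAtStalk_eq_finrank_of_free] at this⟩

theorem isFam_of_isPt {I : Ideal (MvPolynomial (Fin r × Fin (n + 1)) k)} (h : IsPt d I) :
    IsFam d I :=
  ⟨h.1, fun a => ⟨inferInstance, fun p => by
    rw [Module.rankAtStalk_eq_finrank_of_free]
    exact h.2 a⟩⟩

theorem rid_lTensor {σ : Type} (χ : MvPolynomial σ k →ₗ[k] k) (χ' : MvPolynomial σ K →ₗ[K] K)
    (h : ∀ f, χ' (map (algebraMap k K) f) = algebraMap k K (χ f)) (t : K ⊗[k] MvPolynomial σ k) :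
    TensorProduct.rid k K (χ.lTensor K t) = χ' (algebraTensorAlgEquiv k K t) := by
  induction t with
  | zero => simp
  | add x y hx hy => simp only [map_add, hx, hy]
  | tmul c f =>
    rw [LinearMap.lTensor_tmul, TensorProduct.rid_tmul, algebraTensorAlgEquiv_tmul, map_smul, h,
      Algebra.smul_def, smul_eq_mul, mul_comm]

theorem eval_base {σ : Type} (q : σ → k) (f : MvPolynomial σ k) :
    eval (fun v => algebraMap k K (q v)) (map (algebraMap k K) f) = algebraMap k K (eval q f) := by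
  induction f using MvPolynomial.induction_on with
  | C a => simp
  | add p q hp hq => simp only [map_add, hp, hq]
  | mul_X p i hp => simp only [map_mul, hp]; simp

theorem pts_mem (Γ : Set (Fin r × Fin (n + 1) → k)) (a : Fin r → ℕ)
    (f : MvPolynomial (Fin r × Fin (n + 1)) K) (hf : f ∈ piece K n r a) :
    f ∈ (ptsIdeal Γ).map (map (algebraMap k K)) ↔
      ∀ q ∈ (fun q v => algebraMap k K (q v)) '' Γ, eval q f = 0 := by
  constructor
  · rintro h _ ⟨q, hq, rfl⟩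
    have : (ptsIdeal Γ).map (map (algebraMap k K)) ≤
        RingHom.ker (eval fun v => algebraMap k K (q v)) :=
      Ideal.map_le_iff_le_comap.mpr (Ideal.span_le.mpr fun g hg => by
        change eval _ (map (algebraMap k K) g) = 0
        rw [eval_base, hg.2 q hq, map_zero])
    exact this h
  · intro h
    obtain ⟨t, rfl⟩ := (algebraTensorAlgEquiv k K).surjective f
    have := tensor_ker ((fun q => (aeval q).toLinearMap) '' Γ ∪
      (fun m => lcoeff k m) '' {m | Finsupp.weight (wt n r) m ≠ a}) t (by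
        rintro _ (⟨q, hq, rfl⟩ | ⟨m, hm, rfl⟩)
        · exact (rid_lTensor (aeval q).toLinearMap
            (aeval fun v => algebraMap k K (q v)).toLinearMap (fun f => eval_base q f) t).trans
            (h _ ⟨q, hq, rfl⟩)
        · exact (rid_lTensor (lcoeff k m) (lcoeff K m) (fun f => coeff_map _ _ _) t).trans
            (by_contra fun h0 => hm (hf h0)))
    clear h hf
    induction this using Submodule.span_induction with
    | mem x hx =>
      obtain ⟨g, hg, rfl⟩ := hx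
      beta_reduce
      rw [algebraTensorAlgEquiv_tmul, one_smul]
      exact Ideal.mem_map_of_mem _ (Ideal.subset_span ⟨⟨a, fun m hm => by_contra fun h0 =>
        hm (hg _ (Or.inr ⟨m, h0, rfl⟩))⟩, fun q hq => hg _ (Or.inl ⟨q, hq, rfl⟩)⟩)
    | zero => rw [map_zero]; exact zero_mem _
    | add x y _ _ hx hy => rw [map_add]; exact add_mem hx hy
    | smul c x _ hx => rw [map_smul, smul_eq_C_mul]; exact Ideal.mul_mem_left _ _ hx

variable {X : Scheme.{u}} {s : X ⟶ Spec (.of k)}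

/-- base change of a point along an algebra map -/
noncomputable def pull {A B : Type u} [CommRing A] [Algebra k A] [CommRing B] [Algebra k B]
    (ι : Pts s A) (φ : A →ₐ[k] B) : Pts s B :=
  ⟨Spec.map (CommRingCat.ofHom φ.toRingHom) ≫ ι.1, by
    rw [Category.assoc, ι.2, ← Spec.map_comp]
    exact congrArg (fun t => Spec.map (CommRingCat.ofHom t)) (RingHom.ext φ.commutes)⟩

theorem pull_pull {A B C : Type u} [CommRing A] [Algebra k A] [CommRing B] [Algebra k B]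
    [CommRing C] [Algebra k C] (ι : Pts s A) (φ : A →ₐ[k] B) (ψ : B →ₐ[k] C) :
    pull (pull ι φ) ψ = pull ι (ψ.comp φ) :=
  Subtype.ext (by
    change Spec.map _ ≫ Spec.map _ ≫ ι.1 = Spec.map _ ≫ ι.1
    rw [← Category.assoc, ← Spec.map_comp]
    rfl)

/-- the underlying point of a field-valued point -/
noncomputable def loc (f : Pts s K) : X := f.1 (IsLocalRing.closedPoint K)

/-- the kernel of a field-valued point of an affine scheme -/
noncomputable def kerPt {A : Type u} [CommRing A] [Algebra k A] (χ : A →ₐ[k] K) : Spec (.of A) :=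
  PrimeSpectrum.comap χ.toRingHom (IsLocalRing.closedPoint K)

theorem mem_kerPt {A : Type u} [CommRing A] [Algebra k A] (χ : A →ₐ[k] K) (a : A) :
    a ∈ (kerPt χ).asIdeal ↔ χ a = 0 := by
  change χ a ∈ IsLocalRing.maximalIdeal K ↔ _
  rw [IsLocalRing.maximalIdeal_eq_bot, Ideal.mem_bot]

theorem loc_pull {A : Type u} [CommRing A] [Algebra k A] (ι : Pts s A) (χ : A →ₐ[k] K) :
    loc (pull ι χ) = ι.1 (kerPt χ) := rfl

/-- a point that lies in an affine chart comes from an algebra map -/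
theorem exists_algHom {A : Type u} [CommRing A] [Algebra k A] (ι : Pts s A) [IsOpenImmersion ι.1]
    (f : Pts s K) {y : Spec (.of A)} (hy : ι.1 y = loc f) :
    ∃ χ : A →ₐ[k] K, f = pull ι χ ∧ y = kerPt χ := by
  have hr : Set.range f.1 ⊆ Set.range ι.1 := by
    rintro _ ⟨z, rfl⟩
    exact ⟨y, hy.trans (congrArg f.1 (Subsingleton.elim _ _))⟩
  let ψ := Spec.preimage (IsOpenImmersion.lift ι.1 f.1 hr)
  have h1 : Spec.map ψ ≫ ι.1 = f.1 := by
    rw [Spec.map_preimage, IsOpenImmersion.lift_fac]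
  have h2 : CommRingCat.ofHom (algebraMap k A) ≫ ψ = CommRingCat.ofHom (algebraMap k K) := by
    apply Spec.map_injective
    rw [Spec.map_comp, ← ι.2, ← Category.assoc, h1, f.2]
  let χ : A →ₐ[k] K := ⟨ψ.hom, fun c => congrArg (fun t => t.hom c) h2⟩
  have e : f = pull ι χ := Subtype.ext h1.symm
  exact ⟨χ, e, ι.1.isOpenEmbedding.injective (hy.trans ((congrArg loc e).trans (loc_pull ι χ)))⟩

/-- the ideal of a field-valued point -/
noncomputable def Represents.hil (R : Represents n d r s) (f : Pts s K) : Hilb K n d r :=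
  ⟨_, isPt_of_isFam (R.e K f).2⟩

theorem hil_pull (R : Represents n d r s) {A : Type u} [CommRing A] [Algebra k A]
    (ι : Pts s A) (χ : A →ₐ[k] K) : (R.hil (pull ι χ)).1 =
      (R.e (K ⊗[k] A) (pull ι Algebra.TensorProduct.includeRight)).1.map
        (map (liftK χ).toRingHom) := by
  have e : ((liftK χ).restrictScalars k).comp Algebra.TensorProduct.includeRight = χ :=
    AlgHom.ext fun a => one_mul (χ a)
  have e2 := pull_pull ι (Algebra.TensorProduct.includeRight (R := k) (A := K) (B := A))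
    ((liftK χ).restrictScalars k)
  rw [e] at e2
  exact R.natural (K ⊗[k] A) K ((liftK χ).restrictScalars k)
    (pull ι Algebra.TensorProduct.includeRight) (pull ι χ) (congrArg Subtype.val e2.symm)

theorem cont (hd : 0 < d) (R : Represents n d r s) {A : Type u} [CommRing A] [Algebra k A]
    (ι : Pts s A) {U : Set (Hilb K n d r)} (hU : @IsOpen _ (zariski K n d r) U)
    (χ0 : A →ₐ[k] K) (h0 : R.hil (pull ι χ0) ∈ U) :
    ∃ γ : K ⊗[k] A, liftK χ0 γ ≠ 0 ∧ ∀ χ, liftK χ γ ≠ 0 → R.hil (pull ι χ) ∈ U := by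
  have he := hil_pull (K := K) R ι
  generalize R.e (K ⊗[k] A) (pull ι Algebra.TensorProduct.includeRight) = J at he
  induction hU with
  | basic V hV =>
    obtain ⟨G, hG, rfl⟩ := hV
    obtain ⟨ψ0, hψ0, hG0⟩ := h0
    rw [he] at hψ0
    obtain ⟨γ, hγ0, hγ⟩ := fine_aff hd J.2 hG (liftK χ0) hψ0 hG0
    refine ⟨γ, hγ0, fun χ hχ => ?_⟩
    obtain ⟨ψ, hψ, hGψ⟩ := hγ _ hχ
    exact ⟨ψ, by rw [he]; exact hψ, hGψ⟩
  | univ => exact ⟨1, by rw [map_one]; exact one_ne_zero, fun _ _ => trivial⟩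
  | inter V W _ _ hV hW =>
    obtain ⟨γ, h1, h2⟩ := hV h0.1
    obtain ⟨γ', h3, h4⟩ := hW h0.2
    refine ⟨γ * γ', by rw [map_mul]; exact mul_ne_zero h1 h3, fun χ hχ => ?_⟩
    rw [map_mul, mul_ne_zero_iff] at hχ
    exact ⟨h2 χ hχ.1, h4 χ hχ.2⟩
  | sUnion S _ ih =>
    obtain ⟨V, hV, h⟩ := h0
    obtain ⟨γ, h1, h2⟩ := ih V hV h
    exact ⟨γ, h1, fun χ hχ => ⟨V, hV, h2 χ hχ⟩⟩

theorem chart_le {A : Type u} [CommRing A] (ι : Spec (.of A) ⟶ X) [IsOpenImmersion ι]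
    {p y : Spec (.of A)} (h : ι p ⤳ ι y) : p.asIdeal ≤ y.asIdeal :=
  (PrimeSpectrum.le_iff_specializes p y).mpr
    (ι.isOpenEmbedding.isInducing.specializes_iff.mp h)

theorem le_chart {A : Type u} [CommRing A] (ι : Spec (.of A) ⟶ X)
    {p y : Spec (.of A)} (h : p.asIdeal ≤ y.asIdeal) : ι p ⤳ ι y :=
  ((PrimeSpectrum.le_iff_specializes p y).mp h).map ι.continuous

theorem core [IsAlgClosed k] [IsAlgClosed K] (hd : 0 < d) (R : Represents n d r s) (hK : ℵ₀ < #K)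
    {A A₀ : Type u} [CommRing A] [Algebra k A] [CommRing A₀] [Algebra k A₀] (hA : #A < #K)
    (hA₀ : #A₀ < #K) (ι : Pts s A) (ι₀ : Pts s A₀) [IsOpenImmersion ι.1] [IsOpenImmersion ι₀.1]
    {U : Set (Hilb K n d r)} (hU : @IsOpen _ (zariski K n d r) U) (χ₀ : A₀ →ₐ[k] K)
    (h0 : R.hil (pull ι₀ χ₀) ∈ U) {η : X} {y : Spec (.of A)} (h1 : η ⤳ ι₀.1 (kerPt χ₀))
    (h2 : η ⤳ ι.1 y) (hy : ι.1 y ∈ R.slip) :
    ∃ I, I ∈ @closure _ (zariski K n d r) U ∧ I ∈ slip K n d r := by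
  let _ := zariski K n d r
  obtain ⟨p, hp⟩ : η ∈ Set.range ι.1 := h2.mem_open ι.1.isOpenEmbedding.isOpen_range ⟨y, rfl⟩
  obtain ⟨p₀, hp₀⟩ : η ∈ Set.range ι₀.1 := h1.mem_open ι₀.1.isOpenEmbedding.isOpen_range ⟨_, rfl⟩
  have := p.isPrime
  have := p₀.isPrime
  have := y.isPrime
  obtain ⟨γ₀, g1, g2⟩ := cont hd R ι₀ hU χ₀ h0
  obtain ⟨_, ⟨δ, rfl⟩, hδ1, hδ2⟩ := PrimeSpectrum.isTopologicalBasis_basic_opens.exists_subset_of_mem_open
    (a := p₀) (u := ι₀.1 ⁻¹' Set.range ι.1) ⟨p, hp.trans hp₀.symm⟩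
    (ι.1.isOpenEmbedding.isOpen_range.preimage ι₀.1.continuous)
  obtain ⟨χ₁, k1, k2, k3⟩ := pt_of_redK hA₀ hK p₀.asIdeal
    (redK_ne_of_pt (fun a ha => (mem_kerPt χ₀ a).mp (chart_le ι₀.1 (hp₀ ▸ h1) ha)) g1)
    (redK_one_tmul (k := k) (K := K) hδ1)
  rw [liftK_tmul, one_mul] at k3
  obtain ⟨y₁, hy₁⟩ := hδ2 (show kerPt χ₁ ∈ PrimeSpectrum.basicOpen δ from
    fun h => k3 ((mem_kerPt χ₁ δ).mp h))
  obtain ⟨χ₂, e₂, rfl⟩ := exists_algHom ι (pull ι₀ χ₁) hy₁
  have k4 : p.asIdeal ≤ (kerPt χ₂).asIdeal := chart_le ι.1 (by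
    rw [hp, hy₁, ← hp₀]
    exact le_chart ι₀.1 fun a ha => (mem_kerPt χ₁ a).mpr (k1 a ha))
  obtain ⟨γ₁, g3, g4⟩ := cont hd R ι hU χ₂ (e₂ ▸ g2 χ₁ k2)
  have g5 := redK_ne_of_pt (fun a ha => (mem_kerPt χ₂ a).mp (k4 ha)) g3
  have hone : (1 : A) ∉ y.asIdeal := (Ideal.ne_top_iff_one _).mp y.isPrime.ne_top
  obtain ⟨χ₃, k5, -⟩ := pt_of_redK hA hK y.asIdeal (redK_one_tmul (k := k) (K := K) hone)
    (redK_one_tmul (k := k) (K := K) hone)
  have k6 : p.asIdeal ≤ y.asIdeal := chart_le ι.1 (hp ▸ h2)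
  refine ⟨R.hil (pull ι χ₃), mem_closure_iff.mpr fun V hV hm => ?_,
    mem_closure_iff.mpr fun V hV hm => ?_⟩
  · obtain ⟨γ₂, g6, g7⟩ := cont hd R ι hV χ₃ hm
    obtain ⟨χ₄, -, k7, k8⟩ := pt_of_redK hA hK p.asIdeal g5
      (redK_ne_of_pt (fun a ha => k5 a (k6 ha)) g6)
    exact ⟨_, g7 χ₄ k8, g4 χ₄ k7⟩
  · obtain ⟨γ₂, g6, g7⟩ := cont hd R ι hV χ₃ hm
    let P : Set (A →ₐ[k] k) := {χ | ∃ Γ : Set (Fin r × Fin (n + 1) → k), Γ.Finite ∧
      (∀ q ∈ Γ, ∀ i, ∃ j, q (i, j) ≠ 0) ∧ (R.e k (pull ι χ)).1 = ptsIdeal Γ}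
    have hJ : ∀ a : A, (∀ χ ∈ P, χ a = 0) → a ∈ y.asIdeal := fun a ha => by_contra fun hn => by
      obtain ⟨_, ⟨z, hz, rfl⟩, f, hf, hΓ⟩ := mem_closure_iff.mp hy
        (ι.1 '' (PrimeSpectrum.basicOpen a : Set (PrimeSpectrum A)))
        (ι.1.isOpenEmbedding.isOpenMap _ (PrimeSpectrum.basicOpen a).2) ⟨y, hn, rfl⟩
      obtain ⟨χ, rfl, rfl⟩ := exists_algHom ι f hf.symm
      exact hz ((mem_kerPt χ a).mpr (ha χ hΓ))
    obtain ⟨χ, ⟨Γ, hΓ1, hΓ2, hΓ3⟩, hχ⟩ : ∃ χ ∈ P, liftK ((Algebra.ofId k K).comp χ) γ₂ ≠ 0 := by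
      by_contra hc
      have hl : ∀ (χ : A →ₐ[k] k) (t : K ⊗[k] A), TensorProduct.rid k K (χ.toLinearMap.lTensor K t) =
          liftK ((Algebra.ofId k K).comp χ) t := fun χ t => by
        induction t with
        | zero => simp
        | add x y hx hy => simp only [map_add, hx, hy]
        | tmul c a =>
          rw [LinearMap.lTensor_tmul, TensorProduct.rid_tmul, liftK_tmul, Algebra.smul_def, mul_comm]
          rfl
      have := tensor_ker (AlgHom.toLinearMap '' P) γ₂ (by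
        rintro _ ⟨χ, hχ, rfl⟩
        rw [hl]
        exact by_contra fun h => hc ⟨χ, hχ, h⟩)
      refine g6 (Submodule.span_le (p := LinearMap.ker (liftK χ₃).toLinearMap) |>.mpr ?_ this)
      rintro _ ⟨a, ha, rfl⟩
      change liftK χ₃ ((1 : K) ⊗ₜ[k] a) = 0
      rw [liftK_tmul, k5 a (hJ a fun χ hχ => ha _ ⟨χ, hχ, rfl⟩), mul_zero]
    refine ⟨_, g7 _ hχ, (fun q v => algebraMap k K (q v)) '' Γ, hΓ1.image _, ?_, fun a F hF => ?_⟩
    · rintro _ ⟨q, hq, rfl⟩ i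
      obtain ⟨j, hj⟩ := hΓ2 q hq i
      exact ⟨j, (map_ne_zero _).mpr hj⟩
    · have e : (R.hil (pull ι ((Algebra.ofId k K).comp χ))).1 =
          (R.e k (pull ι χ)).1.map (map (algebraMap k K)) :=
        R.natural k K (Algebra.ofId k K) (pull ι χ) _
          (congrArg Subtype.val (pull_pull ι χ (Algebra.ofId k K)).symm)
      rw [e, hΓ3]
      exact pts_mem Γ a F hF

theorem transfer [IsAlgClosed k] (hd : 0 < d) (R : Represents n d r s)
    (h : ∀ (K : Type u) [Field K] [Infinite K], ∃ (U : Set (Hilb K n d r)) (I₀ : Hilb K n d r),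
      @IsOpen _ (zariski K n d r) U ∧ I₀ ∈ U ∧
        Disjoint (@closure _ (zariski K n d r) U) (slip K n d r)) :
    ∃ C ∈ irreducibleComponents X, Disjoint C R.slip := by
  choose A ι hι y hy using X.exists_Spec_apply_eq
  obtain ⟨K, _, _, _, hA, hK⟩ := exists_big k (Σ x, A x)
  have hA' : ∀ x, #(A x) < #K := fun x =>
    (mk_le_of_injective (f := Sigma.mk (β := fun x => A x) x) sigma_mk_injective).trans_lt hA
  obtain ⟨U, I₀, hU, h0, hdis⟩ := h K
  let f₀ : Pts s K := (R.e K).symm ⟨I₀.1, isFam_of_isPt I₀.2⟩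
  have e₀ : R.hil f₀ = I₀ := Subtype.ext (by
    change (R.e K f₀).1 = I₀.1
    rw [Equiv.apply_symm_apply])
  refine ⟨_, irreducibleComponent_mem_irreducibleComponents (loc f₀),
    Set.disjoint_left.mpr fun x hx hx' => ?_⟩
  have hη := isIrreducible_irreducibleComponent (x := loc f₀) |>.isGenericPoint_genericPoint
    isClosed_irreducibleComponent
  let alg : ∀ x, Algebra k (A x) := fun x => (Spec.preimage (ι x ≫ s)).hom.toAlgebra
  let ι' : ∀ x, Pts s (A x) := fun x => ⟨ι x, (Spec.map_preimage (ι x ≫ s)).symm⟩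
  have : ∀ x, IsOpenImmersion (ι' x).1 := hι
  obtain ⟨χ₀, e₁, e₂⟩ := exists_algHom (ι' (loc f₀)) f₀ (hy _)
  obtain ⟨I, h1, h2⟩ := core hd R hK (hA' x) (hA' (loc f₀)) (ι' x) (ι' (loc f₀)) hU χ₀
    (e₁ ▸ e₀ ▸ h0) (y := y x)
    ((hη.specializes mem_irreducibleComponent).trans
      (specializes_of_eq ((hy _).symm.trans (congrArg (ι _) e₂))))
    ((hη.specializes hx).trans (specializes_of_eq (hy x).symm)) ((hy x).symm ▸ hx')
  exact Set.disjoint_left.mp hdis h1 h2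

theorem scheme_main [IsAlgClosed k] (hn : 1 ≤ n) (hd : 4 ≤ d) (hr : 3 ≤ r)
    (R : Represents n d r s) : ∃ C ∈ irreducibleComponents X, Disjoint C R.slip := by
  obtain ⟨n, rfl⟩ := Nat.exists_eq_add_of_le' hn
  obtain ⟨r, rfl⟩ := Nat.exists_eq_add_of_le' hr
  exact transfer (by omega) R fun K _ _ => sep_all K n r hd

end Pool.Agent.Lib.MP_07b136_ag.Sch
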