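import Pool.Agent.Lib.MP_07b136_ag.Graded

open MvPolynomial

universe u

namespace Pool.Agent.Lib.MP_07b136_ag

variable {k : Type u} [Field k] {r : ℕ}

/-- The Cox ring of a product of projective lines -/
abbrev Cox (k : Type u) [Field k] (r : ℕ) := MvPolynomial (Fin r × Fin (1 + 1)) k

lemma hilbFun_eq (a : Fin r → ℕ) : hilbFun 1 3 a = min 3 (∏ i, (1 + a i)) := by
  simp [hilbFun]

lemma hilbFun_of_two {a : Fin r → ℕ} {i j : Fin r} (hij : i ≠ j) (hi : a i ≠ 0) (hj : a j ≠ 0) :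
    hilbFun 1 3 a = 3 := by
  have h := Finset.prod_le_prod_of_subset_of_one_le' (f := fun i => 1 + a i)
    (Finset.subset_univ {i, j}) fun _ _ _ => Nat.le_add_right _ _
  rw [Finset.prod_pair hij] at h
  rw [hilbFun_eq, min_eq_left]
  have : 2 * 2 ≤ (1 + a i) * (1 + a j) := Nat.mul_le_mul (by omega) (by omega)
  omega

lemma hilbFun_of_le {a : Fin r → ℕ} {i : Fin r} (hi : 2 ≤ a i) : hilbFun 1 3 a = 3 := by
  have h := Finset.single_le_prod' (f := fun i => 1 + a i) (s := Finset.univ)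
    (fun _ _ => Nat.le_add_right _ _) (Finset.mem_univ i)
  rw [hilbFun_eq, min_eq_left]
  omega

/-- degree of a pair -/
def d0 (e y : Fin r) : Fin r → ℕ := Pi.single e 1 + Pi.single y 1

/-- degree of a triple -/
def d1 (l e y : Fin r) : Fin r → ℕ := Pi.single l 1 + d0 e y

/-- auxiliary degree -/
def d3' (l e y : Fin r) : Fin r → ℕ := 3 • Pi.single l 1 + d0 e y

/-- auxiliary degree -/
def d' (l : Fin r) : Fin r → ℕ := 3 • Pi.single l 1

/-- three monomials -/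
noncomputable def mon3 (k : Type u) [Field k] (e y : Fin r) : Fin 3 → Cox k r :=
  ![X (e, 1) * X (y, 1), X (e, 0) * X (y, 1), X (e, 1) * X (y, 0)]

/-- four monomials -/
noncomputable def mon4 (k : Type u) [Field k] (l : Fin r) : Fin 4 → Cox k r :=
  ![X (l, 1) ^ 3, X (l, 0) * X (l, 1) ^ 2, X (l, 0) ^ 2 * X (l, 1), X (l, 0) ^ 3]

lemma mon3_mem (e y : Fin r) (s : Fin 3) : mon3 k e y s ∈ piece k 1 r (d0 e y) := by
  fin_cases s <;> exact mul_mem_piece (X_mem _ _) (X_mem _ _)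

lemma mon4_mem (l : Fin r) (s : Fin 4) : mon4 k l s ∈ piece k 1 r (d' l) := by
  fin_cases s
  · exact pow_mem_piece (X_mem _ _) 3
  · have := mul_mem_piece (X_mem (k := k) l (0 : Fin (1 + 1))) (pow_mem_piece (X_mem l 1) 2)
    rwa [← succ_nsmul'] at this
  · have := mul_mem_piece (pow_mem_piece (X_mem (k := k) l (0 : Fin (1 + 1))) 2) (X_mem l 1)
    rwa [← succ_nsmul] at this
  · exact pow_mem_piece (X_mem _ _) 3

/-- the polynomial defining the open set -/
noncomputable def condFun (l e y : Fin r) (φ : Fr k 1 3 r) : k :=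
  cond (Matrix.of fun s => ext3 φ (d0 e y) (mon3 k e y s))
    (Matrix.of fun s => ext3 φ (d1 l e y) (X (l, 1) * mon3 k e y s))
    (Matrix.of fun s => ext3 φ (d1 l e y) (X (l, 0) * mon3 k e y s))
    (Matrix.of fun s => ext3 φ (d3' l e y) (X (l, 1) ^ 3 * mon3 k e y s))
    fun j => ext3 φ (d' l) (mon4 k l j)

/-- a matrix entry as a polynomial function -/
noncomputable def entry (a : Fin r → ℕ) (f : Cox k r) (i : Fin 3) : polyFun k 1 3 r :=
  ⟨_, ext3_mem a f i⟩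

/-- evaluation of polynomial functions -/
noncomputable def evalFr (φ : Fr k 1 3 r) : polyFun k 1 3 r →+* k :=
  (Pi.evalRingHom _ φ).comp (polyFun k 1 3 r).val.toRingHom

lemma mem_of_evalFr {G : Fr k 1 3 r → k} (g : polyFun k 1 3 r) (h : ∀ φ, evalFr φ g = G φ) :
    G ∈ polyFun k 1 3 r := by
  rw [← show g.1 = G from funext h]
  exact g.2

lemma condFun_mem (l e y : Fin r) : condFun l e y ∈ polyFun k 1 3 r :=
  mem_of_evalFr (cond (Matrix.of fun s => entry (d0 e y) (mon3 k e y s))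
    (Matrix.of fun s => entry (d1 l e y) (X (l, 1) * mon3 k e y s))
    (Matrix.of fun s => entry (d1 l e y) (X (l, 0) * mon3 k e y s))
    (Matrix.of fun s => entry (d3' l e y) (X (l, 1) ^ 3 * mon3 k e y s))
    fun j => entry (d' l) (mon4 k l j)) fun φ => by rw [map_cond]; rfl

lemma d3_mem (a : Fin r → ℕ) (f g h : Cox k r) :
    (fun φ : Fr k 1 3 r => d3 (ext3 φ a f) (ext3 φ a g) (ext3 φ a h)) ∈ polyFun k 1 3 r :=
  mem_of_evalFr (d3 (entry a f) (entry a g) (entry a h)) fun φ => by rw [map_d3]; rfl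

section

variable {l e y : Fin r} (hey : e ≠ y)
include hey

lemma hilbFun_d0 : hilbFun 1 3 (d0 e y) = 3 := hilbFun_of_two hey (by simp [d0]) (by simp [d0])

lemma hilbFun_d1 : hilbFun 1 3 (d1 l e y) = 3 :=
  hilbFun_of_two hey (by simp [d1, d0]) (by simp [d1, d0])

lemma hilbFun_d3' : hilbFun 1 3 (d3' l e y) = 3 :=
  hilbFun_of_two hey (by simp [d3', d0]) (by simp [d3', d0])

end

lemma hilbFun_d' (l : Fin r) : hilbFun 1 3 (d' l) = 3 := hilbFun_of_le (i := l) (by simp [d'])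

/-- the closed condition -/
def Star (l e y : Fin r) (φ : Fr k 1 3 r) : Prop :=
  ∀ f ∈ piece k 1 r (d0 e y), ∀ g ∈ piece k 1 r (d0 e y), ∀ i j,
    ext3 φ (d1 l e y) (X (l, 0) * f) i * ext3 φ (d1 l e y) (X (l, 1) * g) j =
      ext3 φ (d1 l e y) (X (l, 1) * f) i * ext3 φ (d1 l e y) (X (l, 0) * g) j

lemma star_of_condFun {l e y : Fin r} (hey : e ≠ y) {I : Ideal (Cox k r)} {φ ψ : Fr k 1 3 r}
    (hφ : IsFr I φ) (hc : condFun l e y φ ≠ 0) (hψ : IsFr I ψ) : Star l e y ψ := by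
  obtain ⟨ρ, hρ⟩ := exists_scalar I (X (l, 0)) (X (l, 1)) (mon3 k e y) _ _ _ _
    (piece k 1 r (d0 e y)) (piece k 1 r (d1 l e y)) (piece k 1 r (d3' l e y)) (piece k 1 r (d' l))
    (fun f hf => (hφ.ext3_eq_zero (hilbFun_d0 hey) hf).mp)
    (fun f hf => (hφ.ext3_eq_zero (hilbFun_d1 hey) hf).mp)
    (fun f hf => (hφ.ext3_eq_zero (hilbFun_d3' hey) hf).mpr)
    (fun f hf => (hφ.ext3_eq_zero (hilbFun_d' l) hf).mp)
    (mon3_mem e y) (fun s => mul_mem_piece (X_mem _ _) (mon3_mem e y s))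
    (fun s => mul_mem_piece (X_mem _ _) (mon3_mem e y s))
    (fun s => mul_mem_piece (pow_mem_piece (X_mem _ _) 3) (mon3_mem e y s)) (mon4_mem l) hc
  have H (f) (hf : f ∈ piece k 1 r (d0 e y)) :
      ext3 ψ (d1 l e y) (X (l, 0) * f) = ρ • ext3 ψ (d1 l e y) (X (l, 1) * f) := by
    rw [← sub_eq_zero, ← map_smul, ← map_sub]
    exact (hψ.ext3_eq_zero (hilbFun_d1 hey) (sub_mem (mul_mem_piece (X_mem _ _) hf)
      (Submodule.smul_mem _ _ (mul_mem_piece (X_mem _ _) hf)))).mpr (hρ f hf)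
  intro f hf g hg i j
  rw [H f hf, H g hg]
  simp only [Pi.smul_apply, smul_eq_mul]
  ring

lemma star_of_closure {l e y : Fin r} {A : Set (Hilb k 1 3 r)}
    (hA : ∀ I ∈ A, ∀ φ, IsFr I.1 φ → Star l e y φ) {I : Hilb k 1 3 r}
    (hI : I ∈ @closure _ (zariski k 1 3 r) A) {φ : Fr k 1 3 r} (hφ : IsFr I.1 φ) :
    Star l e y φ := fun f hf g hg i j =>
  sub_eq_zero.mp (eq_zero_of_mem_closure
    (sub_mem (mul_mem (ext3_mem _ _ i) (ext3_mem _ _ j)) (mul_mem (ext3_mem _ _ i) (ext3_mem _ _ j)))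
    (fun J hJ ψ hψ => sub_eq_zero.mpr (hA J hJ ψ hψ f hf g hg i j)) hI hφ)

/-- a general linear form -/
noncomputable def zs (s : Fin r → k) (i : Fin r) : Cox k r := X (i, 1) + s i • X (i, 0)

lemma zs_mem (s : Fin r → k) (i : Fin r) : zs s i ∈ piece k 1 r (Pi.single i 1) :=
  add_mem (X_mem _ _) (Submodule.smul_mem _ _ (X_mem _ _))

/-- the Plücker coordinate of the chosen pair -/
noncomputable def good (s : Fin r → k) (l e y : Fin r) (φ : Fr k 1 3 r) : k :=
  d3 (ext3 φ (d1 l e y) (zs s l * (zs s e * zs s y)))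
    (ext3 φ (d1 l e y) (zs s l * (X (e, 0) * zs s y)))
    (ext3 φ (d1 l e y) (zs s l * (zs s e * X (y, 0))))

/-- the Plücker coordinate of another pair -/
noncomputable def bad (s : Fin r → k) (l e y : Fin r) (φ : Fr k 1 3 r) : k :=
  d3 (ext3 φ (d1 l e y) (zs s l * (zs s e * zs s y)))
    (ext3 φ (d1 l e y) (zs s l * (X (e, 0) * zs s y)))
    (ext3 φ (d1 l e y) (X (l, 0) * (zs s e * zs s y)))

lemma Star.bad_eq_zero {l e y : Fin r} {φ : Fr k 1 3 r} (h : Star l e y φ) (s : Fin r → k) :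
    bad s l e y φ = 0 := by
  have hw := mul_mem_piece (zs_mem s e) (zs_mem s y)
  have h1 := h _ hw _ hw
  rw [bad, show zs s l * (zs s e * zs s y) = X (l, 1) * (zs s e * zs s y) +
    s l • (X (l, 0) * (zs s e * zs s y)) by rw [zs, add_mul, smul_mul_assoc], map_add, map_smul]
  simp only [d3, Pi.add_apply, Pi.smul_apply, smul_eq_mul]
  linear_combination
    ext3 φ (d1 l e y) (zs s l * (X (e, 0) * zs s y)) 1 * h1 2 0 +
    ext3 φ (d1 l e y) (zs s l * (X (e, 0) * zs s y)) 2 * h1 0 1 +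
    ext3 φ (d1 l e y) (zs s l * (X (e, 0) * zs s y)) 0 * h1 1 2

/-- expansion of `good` -/
def gd {R : Type*} [CommRing R] (γ : Fin 2 × Fin 2 → Fin 3 → R) (s t : R) : R :=
  d3 (γ (1, 1) + s • γ (0, 1) + t • γ (1, 0) + (s * t) • γ (0, 0)) (γ (0, 1) + t • γ (0, 0))
    (γ (1, 0) + s • γ (0, 0))

lemma good_eq (s : Fin r → k) (l e y : Fin r) (φ : Fr k 1 3 r) :
    good s l e y φ = gd (fun v => ext3 φ (d1 l e y) (X (l, 1) * (X (e, v.1) * X (y, v.2))) +
      s l • ext3 φ (d1 l e y) (X (l, 0) * (X (e, v.1) * X (y, v.2)))) (s e) (s y) := by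
  simp only [good, gd, ← map_smul, ← map_add, zs]
  congr 2 <;> simp only [smul_eq_C_mul, map_mul] <;> ring

lemma Star.exists_good [Infinite k] {l e y : Fin r} (hey : e ≠ y) (hle : l ≠ e) (hly : l ≠ y)
    {I : Hilb k 1 3 r} {φ : Fr k 1 3 r} (hφ : IsFr I.1 φ) (h : Star l e y φ) :
    ∃ P : MvPolynomial (Fin r) k, (∀ s, eval s P = good s l e y φ) ∧ ∃ s, eval s P ≠ 0 := by
  set α : Fin 2 × Fin 2 → Fin 3 → k :=
    fun v => ext3 φ (d1 l e y) (X (l, 0) * (X (e, v.1) * X (y, v.2))) with hα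
  set β : Fin 2 × Fin 2 → Fin 3 → k :=
    fun v => ext3 φ (d1 l e y) (X (l, 1) * (X (e, v.1) * X (y, v.2))) with hβ
  have hP (s : Fin r → k) : eval s (gd (fun v i => C (β v i) + X l * C (α v i)) (X e) (X y)) =
      gd (fun v => β v + s l • α v) (s e) (s y) := by
    simp only [gd, d3, Pi.add_apply, Pi.smul_apply, smul_eq_mul, map_add, map_sub, map_mul, eval_C,
      eval_X]
  refine ⟨_, fun s => (hP s).trans (good_eq s l e y φ).symm, ?_⟩
  have hspan : Submodule.span k (Set.range α ∪ Set.range β) = ⊤ := by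
    rw [eq_top_iff]
    intro v _
    obtain ⟨f, hf, rfl⟩ := hφ.ext3_surj (hilbFun_d1 (l := l) hey) v
    obtain ⟨u, hu, rfl⟩ := exists_decomp hf
    choose u' hu' hu'' using fun j => exists_decomp (hu j)
    choose u'' h1 h2 using fun j j' => exists_decomp (l := y) (b := 0) (by simpa using hu' j j')
    choose c hc using fun j j' j'' => exists_eq_C (h1 j j' j'')
    rw [map_sum]
    refine sum_mem fun j _ => ?_
    rw [hu'', Finset.mul_sum, map_sum]
    refine sum_mem fun j' _ => ?_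
    rw [h2, Finset.mul_sum, Finset.mul_sum, map_sum]
    refine sum_mem fun j'' _ => ?_
    rw [hc, show (X (l, j) * (X (e, j') * (X (y, j'') * C (c j j' j''))) : Cox k r) =
      c j j' j'' • (X (l, j) * (X (e, j') * X (y, j''))) by rw [smul_eq_C_mul]; ring, map_smul]
    refine Submodule.smul_mem _ _ (Submodule.subset_span ?_)
    fin_cases j
    · exact Or.inl ⟨(j', j''), rfl⟩
    · exact Or.inr ⟨(j', j''), rfl⟩
  obtain ⟨t, ht⟩ := exists_span_eq_top α β (fun a b i j =>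
    h _ (mul_mem_piece (X_mem _ _) (X_mem _ _)) _ (mul_mem_piece (X_mem _ _) (X_mem _ _)) i j) hspan
  obtain ⟨s₁, s₂, hs⟩ := exists_d3_ne_zero _ ht
  refine ⟨Function.update (Function.update (fun _ => t) e s₁) y s₂, ?_⟩
  rw [hP, Function.update_self, Function.update_of_ne hey, Function.update_self,
    Function.update_of_ne hly, Function.update_of_ne hle]
  exact hs

lemma prod_X_pow_mem {n : ℕ} (j : Fin r → Fin (n + 1)) (c : Fin r → ℕ) :
    ∏ i, X (i, j i) ^ c i ∈ piece k n r c := by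
  have := IsWeightedHomogeneous.prod (w := wt n r) Finset.univ
    (fun i => (X (i, j i) ^ c i : MvPolynomial (Fin r × Fin (n + 1)) k))
    (fun i => c i • Pi.single i 1) fun i _ => pow_mem_piece (X_mem i (j i)) (c i)
  rwa [show ∑ i, c i • (Pi.single i 1 : Fin r → ℕ) = c by
    ext i; simp [Pi.single_apply]] at this

lemma exists_three_points {I : Hilb k 1 3 r} (h3 : hilbFun 1 3 (fun _ : Fin r => 1) = 3)
    {Γ : Set (Fin r × Fin (1 + 1) → k)} (hΓ : ∀ q ∈ Γ, ∀ i, ∃ j, q (i, j) ≠ 0)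
    (hI : ∀ a, ∀ f ∈ piece k 1 r a, f ∈ I.1 ↔ ∀ q ∈ Γ, eval q f = 0) :
    ∃ q : Fin 3 → Fin r × Fin (1 + 1) → k, ∀ b : Fin r → ℕ, (∀ i, b i ≤ 1) →
      ∀ f ∈ piece k 1 r b, (∀ s, eval (q s) f = 0) → f ∈ I.1 := by
  let N := (I.1.restrictScalars k).comap (piece k 1 r fun _ => 1).subtype
  have hN : Module.finrank k (_ ⧸ N) = 3 := (I.2.2 _).trans h3
  have : Module.Finite k (_ ⧸ N) := Module.finite_of_finrank_pos (by omega)
  let ev (q : Γ) : (_ ⧸ N) →ₗ[k] k :=
    N.liftQ ((aeval q.1).toLinearMap.comp (Submodule.subtype _)) fun f hf =>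
      (hI _ f.1 f.2).mp hf q.1 q.2
  have hev (v : _ ⧸ N) (hv : ∀ q, ev q v = 0) : v = 0 := by
    obtain ⟨f, rfl⟩ := N.mkQ_surjective v
    exact (Submodule.Quotient.mk_eq_zero _).mpr ((hI _ f.1 f.2).mpr fun q hq => hv ⟨q, hq⟩)
  have : Nonempty Γ := by
    by_contra H
    have : Subsingleton (_ ⧸ N) := subsingleton_of_forall_eq 0 fun v =>
      hev v fun q => absurd ⟨q⟩ H
    rw [Module.finrank_zero_of_subsingleton] at hN
    omega
  obtain ⟨q, hq⟩ := exists_points ev hev 3 ⊤ (by rw [finrank_top, hN])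
  refine ⟨fun s => (q s).1, fun b hb f hf h0 => (hI b f hf).mpr fun p hp => ?_⟩
  choose j hj using hΓ p hp
  have hg := mul_mem_piece hf (prod_X_pow_mem j fun i => 1 - b i)
  rw [show (b + fun i => 1 - b i) = fun _ => 1 by
    ext i; have := hb i; simp only [Pi.add_apply]; omega] at hg
  have h1 := hq (N.mkQ ⟨_, hg⟩) trivial fun s => by
    change eval (q s).1 (f * _) = 0
    rw [map_mul, h0, zero_mul]
  have h2 := (hI _ _ hg).mp ((Submodule.Quotient.mk_eq_zero N).mp h1) p hp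
  rw [map_mul, map_prod] at h2
  refine (mul_eq_zero.mp h2).resolve_right (Finset.prod_ne_zero_iff.mpr fun i _ => ?_)
  simpa using fun h => absurd h (hj i)

lemma good_bad_of_points {I : Ideal (Cox k r)} {φ : Fr k 1 3 r} (hφ : IsFr I φ)
    (q : Fin 3 → Fin r × Fin (1 + 1) → k) (s : Fin r → k) {l e y : Fin r} (hey : e ≠ y)
    (hq : ∀ f ∈ piece k 1 r (d1 l e y), (∀ t, eval (q t) f = 0) → f ∈ I) :
    ∃ c : k, ∀ (Xv Zv : Fin r → Fin 3 → k), (∀ i t, Xv i t = q t (i, 0)) →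
      (∀ i t, Zv i t = eval (q t) (zs s i)) →
      good s l e y φ = c * ((Zv l 0 * Zv l 1 * Zv l 2) *
        (al (Xv e) (Zv e) * be (Xv y) (Zv y) - be (Xv e) (Zv e) * al (Xv y) (Zv y))) ∧
      bad s l e y φ = c * ((Zv y 0 * Zv y 1 * Zv y 2) *
        (al (Xv e) (Zv e) * be (Xv l) (Zv l) - be (Xv e) (Zv e) * al (Xv l) (Zv l))) := by
  let Ψ : Cox k r →ₐ[k] Fin 3 → k := AlgHom.pi fun t => aeval (q t)
  obtain ⟨g, hg⟩ := exists_mulVec_of_ker_le (piece k 1 r (d1 l e y)) (ext3 φ (d1 l e y))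
    Ψ.toLinearMap fun f hf h0 =>
      (hφ.ext3_eq_zero (hilbFun_d1 hey) hf).mpr (hq f hf fun t => congr($h0 t))
  refine ⟨g.det, fun Xv Zv hX hZ => ?_⟩
  have h1 (i) : Ψ (X (i, 0)) = Xv i := funext fun t => by simp [Ψ, hX]
  have h2 (i) : Ψ (zs s i) = Zv i := funext fun t => (hZ i t).symm
  constructor
  · rw [good, hg _ (mul_mem_piece (zs_mem s l) (mul_mem_piece (zs_mem s e) (zs_mem s y))),
      hg _ (mul_mem_piece (zs_mem s l) (mul_mem_piece (X_mem e 0) (zs_mem s y))),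
      hg _ (mul_mem_piece (zs_mem s l) (mul_mem_piece (zs_mem s e) (X_mem y 0))), d3_mulVec]
    simp only [AlgHom.toLinearMap_apply, map_mul, h1, h2, d3_good]
  · rw [bad, hg _ (mul_mem_piece (zs_mem s l) (mul_mem_piece (zs_mem s e) (zs_mem s y))),
      hg _ (mul_mem_piece (zs_mem s l) (mul_mem_piece (X_mem e 0) (zs_mem s y))),
      hg _ (mul_mem_piece (X_mem l 0) (mul_mem_piece (zs_mem s e) (zs_mem s y))), d3_mulVec]
    simp only [AlgHom.toLinearMap_apply, map_mul, h1, h2, d3_bad]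

end Pool.Agent.Lib.MP_07b136_ag
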